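import Pool.Agent.Lib.MP_9fb650_an.Decomp

set_option autoImplicit false

namespace Pool.Agent.Lib.MP_9fb650_an

open Filter Topology
open scoped ComplexOrder ComplexConjugate

/-- the set of coefficient functions -/
def BSet (G : Type) [Group G] : Set (G → ℂ) :=
  {f : G → ℂ | ∃ (H : Type) (_ : NormedAddCommGroup H) (_ : InnerProductSpace ℂ H)
            (_ : CompleteSpace H) (π : G →* unitary (H →L[ℂ] H)) (ξ η : H),
            ∀ g : G, f g = inner ℂ η ((π g : H →L[ℂ] H) ξ)}

/-- the conclusion -/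
def Concl (G : Type) [Group G] (f : G → ℂ) : Prop :=
  ∃ f₁ ∈ BSet G, ∃ f₂ ∈ BSet G,
        {z : ℂ | ¬ ∃ h ∈ BSet G, ∀ g : G, (f₁ g - z) * h g = 1} = closure (Set.range f₁) ∧
        {z : ℂ | ¬ ∃ h ∈ BSet G, ∀ g : G, (f₂ g - z) * h g = 1} = closure (Set.range f₂) ∧
        f = f₁ + f₂

section

variable {G : Type} [Group G]

theorem mem_BSet (f : G → ℂ) : f ∈ BSet G ↔ MemB f := (memB_iff f).symm

/-- One inclusion is automatic. -/
theorem spec_eq {f : G → ℂ} (h : ∀ z : ℂ, z ∉ closure (Set.range f) → MemB (fun x => (z - f x)⁻¹)) :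
    {z : ℂ | ¬ ∃ h ∈ BSet G, ∀ g : G, (f g - z) * h g = 1} = closure (Set.range f) := by
  ext z
  constructor
  · intro hz
    by_contra hc
    apply hz
    have h1 := (h z hc).neg
    refine ⟨_, (mem_BSet _).mpr h1, fun g => ?_⟩
    have h2 : z - f g ≠ 0 := by
      intro h0
      apply hc
      rw [sub_eq_zero] at h0
      rw [h0]
      exact subset_closure ⟨g, rfl⟩
    field_simp
    ring
  · rintro hz ⟨k, hk, hk2⟩
    obtain ⟨C, hC⟩ := (mem_BSet _).mp hk
    have hC0 := hC.nonneg
    rw [Metric.mem_closure_iff] at hz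
    obtain ⟨_, ⟨g, rfl⟩, hd⟩ := hz (1 / (C + 1)) (by positivity)
    have h1 := hk2 g
    have h2 : ‖(f g - z) * k g‖ = 1 := by rw [h1, norm_one]
    rw [norm_mul] at h2
    have h3 := hC.norm_le g
    rw [dist_comm, dist_eq_norm] at hd
    have h4 : ‖f g - z‖ * ‖k g‖ ≤ 1 / (C + 1) * C := by gcongr
    have h5 : 1 / (C + 1) * C < 1 := by
      rw [one_div_mul_eq_div, div_lt_one (by positivity)]
      linarith
    linarith

theorem MemB.extend {A : Type} [Group A] (φ : A →* G) (hφ : Function.Injective φ) {f : A → ℂ}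
    (h : MemB f) : MemB (Function.extend φ f 0) := by
  obtain ⟨r, hr⟩ := h
  exact ⟨r, hr.extend φ hφ⟩

theorem MemB.comp {A : Type} [Group A] (φ : A →* G) {f : G → ℂ} (h : MemB f) :
    MemB (fun a => f (φ a)) := by
  obtain ⟨r, hr⟩ := h
  exact ⟨r, hr.comp φ⟩

/-- Assembling a decomposition from a subgroup. -/
theorem assemble {A : Type} [Group A] (φ : A →* G) (hφ : Function.Injective φ) {f : G → ℂ}
    {M : ℝ} (hf : BN f M) {F₁ : A → ℂ} (hF : MemB F₁)
    (h1 : ∀ z : ℂ, z ∉ closure (Set.range F₁) → MemB (fun x => (z - F₁ x)⁻¹))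
    (h2 : ∀ z : ℂ, z ∉ closure (Set.range fun x => f (φ x) - F₁ x) →
      M < ‖z‖ ∧ MemB (fun x => (z - (f (φ x) - F₁ x))⁻¹)) : Concl G f := by
  classical
  set f₁ : G → ℂ := Function.extend φ F₁ 0 with hf₁
  have hf₁φ : ∀ a, f₁ (φ a) = F₁ a := fun a => hφ.extend_apply _ _ _
  have hf₁n : ∀ g, (¬∃ a, φ a = g) → f₁ g = 0 := fun g hg => by
    rw [hf₁, Function.extend_apply' _ _ _ hg]; rfl
  have hB1 : MemB f₁ := hF.extend φ hφ
  have hB2 : MemB (fun x => f x - f₁ x) := MemB.sub ⟨M, hf⟩ hB1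
  refine ⟨f₁, (mem_BSet _).mpr hB1, fun x => f x - f₁ x, (mem_BSet _).mpr hB2, ?_, ?_, ?_⟩
  · refine spec_eq fun z hz => ?_
    have hz1 : z ∉ closure (Set.range F₁) := by
      intro h
      apply hz
      refine closure_mono ?_ h
      rintro _ ⟨a, rfl⟩
      exact ⟨φ a, hf₁φ a⟩
    have h3 := (((h1 z hz1).sub (memB_const z⁻¹)).extend φ hφ).add (memB_const z⁻¹)
    have h4 : (fun x => Function.extend φ (fun x => (z - F₁ x)⁻¹ - z⁻¹) 0 x + z⁻¹) =
        fun x => (z - f₁ x)⁻¹ := by
      ext x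
      by_cases hx : ∃ a, φ a = x
      · obtain ⟨a, rfl⟩ := hx
        rw [hφ.extend_apply, hf₁φ]
        ring
      · rw [Function.extend_apply' _ _ _ hx, hf₁n x hx]
        simp
    rwa [h4] at h3
  · refine spec_eq fun z hz => ?_
    have hz1 : z ∉ closure (Set.range fun x => f (φ x) - F₁ x) := by
      intro h
      apply hz
      refine closure_mono ?_ h
      rintro _ ⟨a, rfl⟩
      exact ⟨φ a, by simp only [hf₁φ]⟩
    obtain ⟨hM, h5⟩ := h2 z hz1
    have h6 : MemB (fun x => (z - f x)⁻¹) := (inv_const_sub hf hM).2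
    have h3 := ((h5.sub (h6.comp φ)).extend φ hφ).add h6
    have h4 : (fun x => Function.extend φ (fun x => (z - (f (φ x) - F₁ x))⁻¹ - (z - f (φ x))⁻¹) 0 x +
        (z - f x)⁻¹) = fun x => (z - (f x - f₁ x))⁻¹ := by
      ext x
      by_cases hx : ∃ a, φ a = x
      · obtain ⟨a, rfl⟩ := hx
        rw [hφ.extend_apply, hf₁φ]
        ring
      · rw [Function.extend_apply' _ _ _ hx, hf₁n x hx]
        simp
    rwa [h4] at h3
  · ext x
    simp

/-- positive naturals -/
def posN : Submonoid ℕ where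
  carrier := {i | 0 < i}
  one_mem' := Nat.one_pos
  mul_mem' := fun ha hb => Nat.mul_pos ha hb

/-- First case: finite torsion subgroups. -/
theorem case_one {A : Type} [CommGroup A] [Infinite A]
    (htor : ∀ j : ℕ, 0 < j → {x : A | x ^ j = 1}.Finite) (φ : A →* G)
    (hφ : Function.Injective φ) {f : G → ℂ} (hf : MemB f) : Concl G f := by
  classical
  obtain ⟨M, hM⟩ := hf
  have hM0 := hM.nonneg
  obtain ⟨F, hF, hF2⟩ := exists_idem A
  obtain ⟨r0, hc, g, hdec, hmod, ⟨M', hM'⟩, hex⟩ := decomp (MemB.comp φ ⟨M, hM⟩) hF hF2 posN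
  have hM'0 := hM'.nonneg
  set c0 : ℂ := r0 1 with hc0
  have hc0n : ‖c0‖ ≤ M' := hM'.norm_le 1
  set R : ℝ := M + M' + M' + 1 with hR
  have hR1 : 1 ≤ R := by rw [hR]; linarith
  have hm0 : Modl r0 g := hmod A _ (MonoidHom.id A)
  have hm : Modl (fun x => r0 x - c0) g := hm0.sub_const c0
  have hEX : EX g hc := by
    intro T D ε hε
    set J : Finset ℤ := (Finset.Ioo (-(2 * D : ℤ)) (2 * D)).erase 0 with hJ
    have hJ1 : ∀ j ∈ J, ∀ i ∈ posN, ∃ i' ∈ posN, ∃ k : ℤ,
        ∀ n : A, n ^ (i' : ℤ) = n ^ ((i : ℤ) * j * k) := by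
      intro j hj i hi
      rw [hJ, Finset.mem_erase] at hj
      have hi0 : 0 < i := hi
      refine ⟨((i : ℤ) * j).natAbs, ?_, j.sign, fun n => ?_⟩
      · change 0 < ((i : ℤ) * j).natAbs
        rw [Int.natAbs_pos]
        exact mul_ne_zero (by exact_mod_cast hi0.ne') hj.1
      · congr 1
        rw [Int.natCast_natAbs, abs_mul, Nat.abs_cast, mul_assoc, mul_comm j, Int.sign_mul_self_eq_abs]
    have hJ2 : ∀ j ∈ J, ∀ i ∈ posN, ∀ t : A, {n : A | n ^ ((i : ℤ) * j) = t}.Finite := by
      intro j hj i hi t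
      rw [hJ, Finset.mem_erase] at hj
      have hi0 : 0 < i := hi
      have hpos : 0 < ((i : ℤ) * j).natAbs := by
        rw [Int.natAbs_pos]
        exact mul_ne_zero (by exact_mod_cast hi0.ne') hj.1
      by_cases hne : ∃ n₀ : A, n₀ ^ ((i : ℤ) * j) = t
      · obtain ⟨n₀, rfl⟩ := hne
        refine ((htor _ hpos).image (fun x => x * n₀)).subset ?_
        intro n hn
        refine ⟨n * n₀⁻¹, ?_, by simp⟩
        have h1 : (n * n₀⁻¹) ^ ((i : ℤ) * j) = 1 := by
          rw [mul_zpow, inv_zpow]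
          change n ^ ((i : ℤ) * j) = n₀ ^ ((i : ℤ) * j) at hn
          rw [hn, mul_inv_cancel]
        have h2 : (n * n₀⁻¹) ^ (((i : ℤ) * j).natAbs : ℤ) = 1 := by
          rcases Int.natAbs_eq ((i : ℤ) * j) with h3 | h3
          · rw [← h3]; exact h1
          · have h4 : (((i : ℤ) * j).natAbs : ℤ) = -((i : ℤ) * j) := by omega
            rw [h4, zpow_neg, h1, inv_one]
        rw [zpow_natCast] at h2
        exact h2
      · have : {n : A | n ^ ((i : ℤ) * j) = t} = ∅ := by
          ext n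
          simp only [Set.mem_empty_iff_false, iff_false]
          exact fun h => hne ⟨n, h⟩
        rw [this]
        exact Set.finite_empty
    obtain ⟨n, n1, n2, n3⟩ := hex J hJ1 hJ2 T ε hε
    refine ⟨n, n1, fun j hj hj2 => n2 j ?_, fun m hm j hj hj2 => n3 m hm j ?_⟩
    · rw [hJ, Finset.mem_erase, Finset.mem_Ioo, ← abs_lt]
      exact ⟨hj, hj2⟩
    · rw [hJ, Finset.mem_erase, Finset.mem_Ioo, ← abs_lt]
      exact ⟨hj, hj2⟩
  have hr : BN (fun x => r0 x - c0) R :=
    (hM'.sub (BN_const c0)).mono (by rw [hR]; linarith)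
  have hrc : BN (fun x => (r0 x - c0) + hc x) R := by
    have h1 := (hM.comp φ).sub (BN_const c0)
    have h2 : (fun x => f (φ x) - c0) = fun x => (r0 x - c0) + hc x := by
      ext x
      rw [hdec]
      ring
    rw [h2] at h1
    exact h1.mono (by rw [hR]; linarith)
  obtain ⟨ν, hν, hdense, hinv⟩ := riesz_main hm (by simp [hc0]) hEX hR1 hr hrc
  have hBν : BN (fun x => -(R * ν x)) R := by
    have := (hν.smul (R : ℂ)).neg
    rw [Complex.norm_real, Real.norm_eq_abs, abs_of_pos (by linarith), mul_one] at this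
    exact this
  refine assemble φ hφ hM (F₁ := fun x => -(R * ν x)) ⟨R, hBν⟩ ?_ ?_
  · intro z hz
    have h1 : R < ‖z‖ := by
      by_contra hle
      push Not at hle
      apply hz
      rw [Metric.mem_closure_iff]
      intro ε hε
      have hRpos : 0 < R := by linarith
      obtain ⟨x, hx, _⟩ := hdense (-(z / R)) (by
        rw [norm_neg, norm_div, Complex.norm_real, Real.norm_eq_abs, abs_of_pos hRpos,
          div_le_one hRpos]
        exact hle) (ε / R) (by positivity)
      refine ⟨_, ⟨x, rfl⟩, ?_⟩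
      rw [dist_eq_norm]
      have h2 : z - -(R * ν x) = R * (ν x - -(z / R)) := by
        have : (R : ℂ) ≠ 0 := by exact_mod_cast hRpos.ne'
        field_simp
        ring
      simp only [h2]
      rw [norm_mul, Complex.norm_real, Real.norm_eq_abs, abs_of_pos hRpos]
      rw [lt_div_iff₀ hRpos] at hx
      linarith
    exact (inv_const_sub hBν h1).2
  · intro z hz
    have hfx : ∀ x, f (φ x) - -(R * ν x) = c0 + (r0 x - c0) + hc x + R * ν x := by
      intro x
      rw [hdec]
      ring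
    have h1 : R < ‖z - c0‖ := by
      by_contra hle
      push Not at hle
      apply hz
      rw [Metric.mem_closure_iff]
      intro ε hε
      have hRpos : 0 < R := by linarith
      obtain ⟨x, hx, hx2⟩ := hdense ((z - c0) / R) (by
        rw [norm_div, Complex.norm_real, Real.norm_eq_abs, abs_of_pos hRpos,
          div_le_one hRpos]
        exact hle) (ε / (2 * R)) (by positivity)
      refine ⟨_, ⟨x, rfl⟩, ?_⟩
      rw [dist_comm, dist_eq_norm]
      simp only [hfx]
      have h2 : c0 + (r0 x - c0) + hc x + R * ν x - z =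
          ((r0 x - c0) + hc x) + R * (ν x - (z - c0) / R) := by
        have : (R : ℂ) ≠ 0 := by exact_mod_cast hRpos.ne'
        field_simp
        ring
      rw [h2]
      refine (norm_add_le _ _).trans_lt ?_
      rw [norm_mul, Complex.norm_real, Real.norm_eq_abs, abs_of_pos hRpos]
      have h3 : ε / (2 * R) ≤ ε / 2 := by
        apply div_le_div_of_nonneg_left hε.le (by norm_num) (by linarith)
      have h4 : R * ‖ν x - (z - c0) / R‖ < R * (ε / (2 * R)) := by gcongr
      have h5 : R * (ε / (2 * R)) = ε / 2 := by field_simp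
      linarith
    refine ⟨?_, ?_⟩
    · have := norm_sub_le z c0
      linarith
    · have h2 : ∀ x, (z - c0) - (r0 x - c0) - hc x - R * ν x ≠ 0 := by
        intro x hx
        apply hz
        refine subset_closure ⟨x, ?_⟩
        simp only [hfx]
        linear_combination -hx
      have h3 := hinv (z - c0) h1 h2
      have h4 : (fun x => ((z - c0) - (r0 x - c0) - hc x - R * ν x)⁻¹) =
          fun x => (z - (f (φ x) - -(R * ν x)))⁻¹ := by
        ext x
        rw [hfx]
        congr 1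
        ring
      rwa [h4] at h3

end

end Pool.Agent.Lib.MP_9fb650_an
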