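import Mathlib

set_option autoImplicit false

namespace Pool.Agent.Lib.MP_9fb650_an

open Matrix Filter Topology
open scoped ComplexOrder ComplexConjugate

variable {G : Type} [Group G]

/-- The block kernel. -/
def Blk (f p q : G → ℂ) : Matrix (G × Bool) (G × Bool) ℂ := fun a b =>
  match a.2, b.2 with
  | false, false => p (a.1⁻¹ * b.1)
  | false, true => f (a.1⁻¹ * b.1)
  | true, false => conj (f (b.1⁻¹ * a.1))
  | true, true => q (a.1⁻¹ * b.1)

/-- `f` is a coefficient function of norm at most `r`. -/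
def BN (f : G → ℂ) (r : ℝ) : Prop :=
  ∃ p q : G → ℂ, (Blk f p q).PosSemidef ∧ (p 1).re ≤ r ∧ (q 1).re ≤ r

/-- positive definite functions -/
def PD (p : G → ℂ) : Prop := (Matrix.of fun x y : G => p (x⁻¹ * y)).PosSemidef

theorem diag_p {f p q : G → ℂ} (h : (Blk f p q).PosSemidef) : 0 ≤ p 1 := by
  have := h.diag_nonneg (i := (1, false))
  simpa [Blk] using this

theorem diag_q {f p q : G → ℂ} (h : (Blk f p q).PosSemidef) : 0 ≤ q 1 := by
  have := h.diag_nonneg (i := (1, true))
  simpa [Blk] using this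

theorem BN.nonneg {f : G → ℂ} {r : ℝ} (h : BN f r) : 0 ≤ r := by
  obtain ⟨p, q, h1, h2, h3⟩ := h
  have := (Complex.le_def.mp (diag_p h1)).1
  simp at this
  linarith

theorem BN.mono {f : G → ℂ} {r s : ℝ} (h : BN f r) (hrs : r ≤ s) : BN f s := by
  obtain ⟨p, q, h1, h2, h3⟩ := h
  exact ⟨p, q, h1, h2.trans hrs, h3.trans hrs⟩

theorem BN.add {f g : G → ℂ} {r s : ℝ} (hf : BN f r) (hg : BN g s) :
    BN (fun x => f x + g x) (r + s) := by
  obtain ⟨p, q, h1, h2, h3⟩ := hf
  obtain ⟨p', q', h1', h2', h3'⟩ := hg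
  refine ⟨fun x => p x + p' x, fun x => q x + q' x, ?_, ?_, ?_⟩
  · have : Blk (fun x => f x + g x) (fun x => p x + p' x) (fun x => q x + q' x)
        = Blk f p q + Blk g p' q' := by
      ext ⟨a, i⟩ ⟨b, j⟩
      cases i <;> cases j <;> simp [Blk]
    rw [this]
    exact h1.add h1'
  · simp; linarith
  · simp; linarith

theorem BN.mul {f g : G → ℂ} {r s : ℝ} (hf : BN f r) (hg : BN g s) :
    BN (fun x => f x * g x) (r * s) := by
  obtain ⟨p, q, h1, h2, h3⟩ := hf
  obtain ⟨p', q', h1', h2', h3'⟩ := hg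
  have a1 := Complex.le_def.mp (diag_p h1)
  have a2 := Complex.le_def.mp (diag_q h1)
  have a3 := Complex.le_def.mp (diag_p h1')
  have a4 := Complex.le_def.mp (diag_q h1')
  refine ⟨fun x => p x * p' x, fun x => q x * q' x, ?_, ?_, ?_⟩
  · have : Blk (fun x => f x * g x) (fun x => p x * p' x) (fun x => q x * q' x)
        = Blk f p q ⊙ Blk g p' q' := by
      ext ⟨a, i⟩ ⟨b, j⟩
      cases i <;> cases j <;> simp [Blk, Matrix.hadamard]
    rw [this]
    exact h1.hadamard h1'
  · simp only [Complex.zero_re, Complex.zero_im] at a1 a3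
    simp only [Complex.mul_re]
    rw [← a1.2, ← a3.2]
    nlinarith [a1.1, a3.1]
  · simp only [Complex.zero_re, Complex.zero_im] at a2 a4
    simp only [Complex.mul_re]
    rw [← a2.2, ← a4.2]
    nlinarith [a2.1, a4.1]

theorem PD.BN {p : G → ℂ} (h : PD p) : BN p (p 1).re := by
  refine ⟨p, p, ?_, le_refl _, le_refl _⟩
  have hs := h.submatrix (Prod.fst : G × Bool → G)
  have hherm : ∀ x y : G, conj (p (y⁻¹ * x)) = p (x⁻¹ * y) := fun x y => by
    have := h.isHermitian.apply x y
    simpa using this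
  have : Blk p p p = (Matrix.of fun x y : G => p (x⁻¹ * y)).submatrix Prod.fst Prod.fst := by
    ext ⟨a, i⟩ ⟨b, j⟩
    cases i <;> cases j <;> simp [Blk, hherm]
  rw [this]
  exact hs

/-- Gram matrices are positive semidefinite. -/
theorem gram_posSemidef {X H : Type*} [NormedAddCommGroup H] [InnerProductSpace ℂ H] (v : X → H) :
    (Matrix.of fun x y => inner ℂ (v x) (v y)).PosSemidef := by
  refine ⟨?_, fun c => ?_⟩
  · ext x y
    simp [Matrix.conjTranspose_apply]
  · have : (c.sum fun i xi => c.sum fun j xj =>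
        star xi * (Matrix.of fun x y => inner ℂ (v x) (v y)) i j * xj) =
        inner ℂ (c.sum fun i xi => xi • v i) (c.sum fun i xi => xi • v i) := by
      simp only [Finsupp.sum, sum_inner, inner_sum, inner_smul_left, inner_smul_right,
        Matrix.of_apply]
      rw [Finset.sum_comm]
      refine Finset.sum_congr rfl fun i _ => ?_
      rw [Finset.mul_sum]
      refine Finset.sum_congr rfl fun j _ => ?_
      simp only [RCLike.star_def]
      ring
    rw [this, inner_self_eq_norm_sq_to_K]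
    have h0 : (0 : ℝ) ≤ ‖c.sum fun i xi => xi • v i‖ ^ 2 := sq_nonneg _
    simp

/-- coefficient functions of unitary representations -/
theorem BN_coef {H : Type*} [NormedAddCommGroup H] [InnerProductSpace ℂ H] [CompleteSpace H]
    (π : G →* unitary (H →L[ℂ] H)) (ξ η : H) {r : ℝ} (h1 : ‖ξ‖ ^ 2 ≤ r) (h2 : ‖η‖ ^ 2 ≤ r) :
    BN (fun g => inner ℂ η ((π g : H →L[ℂ] H) ξ)) r := by
  have hinv : ∀ (a b : G) (x y : H), inner ℂ ((π a : H →L[ℂ] H) x) ((π b : H →L[ℂ] H) y) =
      inner ℂ x ((π (a⁻¹ * b) : H →L[ℂ] H) y) := by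
    intro a b x y
    have : ((π (a⁻¹ * b) : H →L[ℂ] H)) = (star (π a : H →L[ℂ] H)) * (π b : H →L[ℂ] H) := by
      rw [map_mul, map_inv]
      rfl
    rw [this]
    change _ = inner ℂ x ((star (π a : H →L[ℂ] H)) ((π b : H →L[ℂ] H) y))
    rw [ContinuousLinearMap.star_eq_adjoint, ContinuousLinearMap.adjoint_inner_right]
  refine ⟨fun g => inner ℂ η ((π g : H →L[ℂ] H) η), fun g => inner ℂ ξ ((π g : H →L[ℂ] H) ξ), ?_,
    ?_, ?_⟩
  · have : Blk (fun g => inner ℂ η ((π g : H →L[ℂ] H) ξ)) (fun g => inner ℂ η ((π g : H →L[ℂ] H) η))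
        (fun g => inner ℂ ξ ((π g : H →L[ℂ] H) ξ)) =
        Matrix.of fun x y : G × Bool => inner ℂ ((π x.1 : H →L[ℂ] H) (if x.2 then ξ else η))
          ((π y.1 : H →L[ℂ] H) (if y.2 then ξ else η)) := by
      ext ⟨a, i⟩ ⟨b, j⟩
      cases i <;> cases j <;> simp only [Blk, Matrix.of_apply, hinv, if_true, Bool.false_eq_true,
        if_false]
      rw [← hinv a b, ← hinv b a, inner_conj_symm]
    rw [this]
    exact gram_posSemidef _
  · simp only [map_one]
    change RCLike.re (inner ℂ η ((1 : H →L[ℂ] H) η)) ≤ r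
    rw [one_apply_eq_self, inner_self_eq_norm_sq]
    exact h2
  · simp only [map_one]
    change RCLike.re (inner ℂ ξ ((1 : H →L[ℂ] H) ξ)) ≤ r
    rw [one_apply_eq_self, inner_self_eq_norm_sq]
    exact h1

theorem BN_const (c : ℂ) : BN (fun _ : G => c) ‖c‖ := by
  obtain ⟨u, hu, hcu⟩ : ∃ u : ℂ, conj u * u = 1 ∧ c = ‖c‖ * u := by
    by_cases hc : c = 0
    · exact ⟨1, by simp, by simp [hc]⟩
    · have hn : (‖c‖ : ℂ) ≠ 0 := by simpa using hc
      refine ⟨c / ‖c‖, ?_, by field_simp⟩
      rw [map_div₀, Complex.conj_ofReal, div_mul_div_comm, ← Complex.normSq_eq_conj_mul_self,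
        Complex.normSq_eq_norm_sq]
      push_cast
      field_simp
  refine ⟨fun _ => (‖c‖ : ℂ), fun _ => (‖c‖ : ℂ), ?_, by simp, by simp⟩
  have hs : (Real.sqrt ‖c‖ : ℂ) * (Real.sqrt ‖c‖ : ℂ) = ‖c‖ := by
    rw [← Complex.ofReal_mul, Real.mul_self_sqrt (norm_nonneg c)]
  have : Blk (fun _ : G => c) (fun _ => (‖c‖ : ℂ)) (fun _ => (‖c‖ : ℂ)) =
      Matrix.of fun x y : G × Bool => inner ℂ (if x.2 then (Real.sqrt ‖c‖ : ℂ) * u
        else (Real.sqrt ‖c‖ : ℂ)) (if y.2 then (Real.sqrt ‖c‖ : ℂ) * u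
        else (Real.sqrt ‖c‖ : ℂ)) := by
    ext ⟨a, i⟩ ⟨b, j⟩
    cases i <;> cases j <;> simp only [Blk, Matrix.of_apply, if_true, Bool.false_eq_true,
        if_false, RCLike.inner_apply, map_mul, Complex.conj_ofReal]
    · exact hs.symm
    · linear_combination hcu - u * hs
    · have h2 := congrArg conj hcu
      simp only [map_mul, Complex.conj_ofReal] at h2
      linear_combination h2 - conj u * hs
    · linear_combination -hs * (conj u * u) - (‖c‖ : ℂ) * hu
  rw [this]
  exact gram_posSemidef _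

theorem psd_norm_sq_le {X : Type*} {K : Matrix X X ℂ} (h : K.PosSemidef) (a b : X) :
    ‖K a b‖ ^ 2 ≤ (K a a).re * (K b b).re := by
  have h2 := h.submatrix ![a, b]
  have hdet := h2.det_nonneg
  rw [Matrix.det_fin_two] at hdet
  simp only [submatrix_apply, Matrix.cons_val_zero, Matrix.cons_val_one] at hdet
  have hab : K b a = conj (K a b) := by
    have := h.isHermitian.apply b a
    simpa using this.symm
  have ha := Complex.le_def.mp (h.diag_nonneg (i := a))
  have hb := Complex.le_def.mp (h.diag_nonneg (i := b))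
  have h3 := (Complex.le_def.mp hdet).1
  rw [hab, Complex.mul_conj, Complex.normSq_eq_norm_sq] at h3
  simp only [Complex.zero_re, Complex.zero_im, Complex.sub_re, Complex.mul_re,
    Complex.ofReal_re] at h3 ha hb
  rw [← ha.2, ← hb.2] at h3
  linarith

theorem p_le {f p q : G → ℂ} (h : (Blk f p q).PosSemidef) (x : G) : ‖p x‖ ≤ (p 1).re := by
  have h1 := psd_norm_sq_le h (1, false) (x, false)
  simp only [Blk, inv_one, one_mul, mul_one, inv_mul_cancel] at h1
  have h2 := (Complex.le_def.mp (diag_p h)).1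
  simp only [Complex.zero_re] at h2
  nlinarith [norm_nonneg (p x), abs_le_of_sq_le_sq' (show ‖p x‖ ^ 2 ≤ (p 1).re ^ 2 by nlinarith) h2]

theorem q_le {f p q : G → ℂ} (h : (Blk f p q).PosSemidef) (x : G) : ‖q x‖ ≤ (q 1).re := by
  have h1 := psd_norm_sq_le h (1, true) (x, true)
  simp only [Blk, inv_one, one_mul, mul_one, inv_mul_cancel] at h1
  have h2 := (Complex.le_def.mp (diag_q h)).1
  simp only [Complex.zero_re] at h2
  nlinarith [norm_nonneg (q x), abs_le_of_sq_le_sq' (show ‖q x‖ ^ 2 ≤ (q 1).re ^ 2 by nlinarith) h2]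

theorem BN.norm_le {f : G → ℂ} {r : ℝ} (h : BN f r) (x : G) : ‖f x‖ ≤ r := by
  have hr := h.nonneg
  obtain ⟨p, q, h1, h2, h3⟩ := h
  have h4 := psd_norm_sq_le h1 (1, false) (x, true)
  simp only [Blk, inv_one, one_mul, inv_mul_cancel] at h4
  have h5 := (Complex.le_def.mp (diag_p h1)).1
  have h6 := (Complex.le_def.mp (diag_q h1)).1
  simp only [Complex.zero_re] at h5 h6
  have h7 : ‖f x‖ ^ 2 ≤ r ^ 2 := by nlinarith
  exact abs_le_of_sq_le_sq' h7 hr |>.2

theorem psd_of_tendsto {X ι : Type*} {l : Filter ι} [l.NeBot] {K : ι → Matrix X X ℂ}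
    {L : Matrix X X ℂ} (hK : ∀ i, (K i).PosSemidef)
    (h : ∀ a b, Tendsto (fun i => K i a b) l (𝓝 (L a b))) : L.PosSemidef := by
  refine ⟨?_, fun c => ?_⟩
  · ext a b
    rw [Matrix.conjTranspose_apply]
    have h1 := (continuous_star.tendsto (L b a)).comp (h b a)
    have h2 : (star ∘ fun i => K i b a) = fun i => K i a b := by
      ext i
      exact (hK i).isHermitian.apply a b
    rw [h2] at h1
    exact tendsto_nhds_unique h1 (h a b)
  · have h1 : Tendsto (fun i => c.sum fun a ca => c.sum fun b cb => star ca * K i a b * cb) l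
        (𝓝 (c.sum fun a ca => c.sum fun b cb => star ca * L a b * cb)) := by
      unfold Finsupp.sum
      refine tendsto_finsetSum _ fun a _ => tendsto_finsetSum _ fun b _ => ?_
      exact ((h a b).const_mul _).mul_const _
    exact ge_of_tendsto' h1 fun i => (hK i).2 c

/-- Balls are closed under pointwise limits. -/
theorem BN_of_tendsto {F : ℕ → G → ℂ} {f : G → ℂ} {r : ℝ} (hF : ∀ m, BN (F m) r)
    (h : ∀ x, Tendsto (fun m => F m x) atTop (𝓝 (f x))) : BN f r := by
  choose p q h1 h2 h3 using hF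
  have hU : ((hyperfilter ℕ : Ultrafilter ℕ) : Filter ℕ) ≤ atTop := by
    rw [← Nat.cofinite_eq_atTop]
    exact hyperfilter_le_cofinite
  have hlim : ∀ w : ℕ → ℂ, (∀ m, ‖w m‖ ≤ r) → ∃ z : ℂ,
      Tendsto w (hyperfilter ℕ : Ultrafilter ℕ) (𝓝 z) := by
    intro w hw
    have hc : IsCompact (Metric.closedBall (0 : ℂ) r) := isCompact_closedBall _ _
    obtain ⟨z, _, hz⟩ := hc.ultrafilter_le_nhds ((hyperfilter ℕ).map w) (by
      rw [Ultrafilter.coe_map, Filter.le_principal_iff, Filter.mem_map]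
      refine Filter.Eventually.of_forall fun m => ?_
      simpa using hw m)
    exact ⟨z, hz⟩
  have hp : ∀ x, ∃ z : ℂ, Tendsto (fun m => p m x) (hyperfilter ℕ : Ultrafilter ℕ) (𝓝 z) :=
    fun x => hlim _ fun m => (p_le (h1 m) x).trans (h2 m)
  have hq : ∀ x, ∃ z : ℂ, Tendsto (fun m => q m x) (hyperfilter ℕ : Ultrafilter ℕ) (𝓝 z) :=
    fun x => hlim _ fun m => (q_le (h1 m) x).trans (h3 m)
  choose P hP using hp
  choose Q hQ using hq
  refine ⟨P, Q, ?_, ?_, ?_⟩
  · refine psd_of_tendsto (l := ((hyperfilter ℕ : Ultrafilter ℕ) : Filter ℕ)) h1 ?_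
    rintro ⟨a, i⟩ ⟨b, j⟩
    cases i <;> cases j <;> simp only [Blk]
    · exact hP _
    · exact (h _).mono_left hU
    · exact (Complex.continuous_conj.tendsto _).comp ((h _).mono_left hU)
    · exact hQ _
  · exact le_of_tendsto' ((Complex.continuous_re.tendsto _).comp (hP 1)) h2
  · exact le_of_tendsto' ((Complex.continuous_re.tendsto _).comp (hQ 1)) h3

theorem BN_sum {ι : Type*} (s : Finset ι) {F : ι → G → ℂ} {r : ι → ℝ} (hF : ∀ i ∈ s, BN (F i) (r i)) :
    BN (fun x => ∑ i ∈ s, F i x) (∑ i ∈ s, r i) := by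
  classical
  induction s using Finset.induction_on with
  | empty => simpa using BN_const (G := G) 0
  | insert a s ha ih =>
    simp only [Finset.sum_insert ha]
    exact (hF a (Finset.mem_insert_self _ _)).add
      (ih fun i hi => hF i (Finset.mem_insert_of_mem hi))

theorem BN_tsum {F : ℕ → G → ℂ} {r : ℕ → ℝ} (hF : ∀ i, BN (F i) (r i)) (hr : Summable r) :
    BN (fun x => ∑' i, F i x) (∑' i, r i) := by
  refine BN_of_tendsto (F := fun m x => ∑ i ∈ Finset.range m, F i x) (fun m => ?_) fun x => ?_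
  · exact (BN_sum _ fun i _ => hF i).mono
      (hr.sum_le_tsum _ fun i _ => (hF i).nonneg)
  · have hs : Summable fun i => F i x :=
      Summable.of_norm_bounded hr fun i => (hF i).norm_le x
    exact hs.hasSum.tendsto_sum_nat

theorem BN.smul {f : G → ℂ} {r : ℝ} (h : BN f r) (c : ℂ) : BN (fun x => c * f x) (‖c‖ * r) :=
  (BN_const c).mul h

theorem BN.neg {f : G → ℂ} {r : ℝ} (h : BN f r) : BN (fun x => -f x) r := by
  have := h.smul (-1)
  simpa using this

theorem BN.sub {f g : G → ℂ} {r s : ℝ} (hf : BN f r) (hg : BN g s) :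
    BN (fun x => f x - g x) (r + s) := by
  simpa [sub_eq_add_neg] using hf.add hg.neg

theorem BN.pow {f : G → ℂ} {r : ℝ} (h : BN f r) (n : ℕ) : BN (fun x => f x ^ n) (r ^ n) := by
  induction n with
  | zero => simpa using BN_const (G := G) 1
  | succ n ih => simpa only [pow_succ] using ih.mul h

theorem BN.translate {f : G → ℂ} {r : ℝ} (h : BN f r) (g : G) : BN (fun x => f (x * g)) r := by
  obtain ⟨p, q, h1, h2, h3⟩ := h
  refine ⟨p, fun x => q (g⁻¹ * x * g), ?_, h2, by simpa using h3⟩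
  have : Blk (fun x => f (x * g)) p (fun x => q (g⁻¹ * x * g)) =
      (Blk f p q).submatrix (fun a => (if a.2 then a.1 * g else a.1, a.2))
        (fun a => (if a.2 then a.1 * g else a.1, a.2)) := by
    ext ⟨a, i⟩ ⟨b, j⟩
    cases i <;> cases j <;> simp [Blk, mul_assoc]
  rw [this]
  exact h1.submatrix _

/-- Extension by zero from a subgroup. -/
theorem BN.extend {A : Type} [Group A] (φ : A →* G) (hφ : Function.Injective φ) {f : A → ℂ}
    {r : ℝ} (h : BN f r) : BN (Function.extend φ f 0) r := by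
  classical
  obtain ⟨p, q, h1, h2, h3⟩ := h
  have hs : ∀ g : G, ∃ a : A, φ a = ((g : G ⧸ φ.range).out)⁻¹ * g := by
    intro g
    have : ((g : G ⧸ φ.range).out)⁻¹ * g ∈ φ.range := by
      rw [← QuotientGroup.eq]
      exact QuotientGroup.out_eq' _
    exact this
  choose s hs using hs
  have key : ∀ (w : A → ℂ) (x y : G), Function.extend φ w 0 (x⁻¹ * y) =
      (if (x : G ⧸ φ.range) = (y : G ⧸ φ.range) then (1 : ℂ) else 0) * w ((s x)⁻¹ * s y) := by
    intro w x y
    split_ifs with hxy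
    · have : x⁻¹ * y = φ ((s x)⁻¹ * s y) := by
        rw [map_mul, map_inv, hs, hs, hxy]
        group
      rw [this, hφ.extend_apply, one_mul]
    · rw [zero_mul, Function.extend_apply']
      · rfl
      · rintro ⟨a, ha⟩
        apply hxy
        rw [QuotientGroup.eq, ← ha]
        exact ⟨a, rfl⟩
  refine ⟨Function.extend φ p 0, Function.extend φ q 0, ?_, ?_, ?_⟩
  · have : Blk (Function.extend φ f 0) (Function.extend φ p 0) (Function.extend φ q 0) =
        ((1 : Matrix (G ⧸ φ.range) (G ⧸ φ.range) ℂ).submatrix (fun a : G × Bool => (a.1 : G ⧸ φ.range))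
          (fun a : G × Bool => (a.1 : G ⧸ φ.range))) ⊙
        ((Blk f p q).submatrix (fun a => (s a.1, a.2)) (fun a => (s a.1, a.2))) := by
      ext ⟨a, i⟩ ⟨b, j⟩
      cases i <;> cases j <;>
        simp only [Blk, Matrix.hadamard_apply, Matrix.submatrix_apply, Matrix.one_apply, key,
          map_mul, apply_ite conj, map_one, map_zero, eq_comm]
    rw [this]
    exact (Matrix.PosSemidef.one.submatrix _).hadamard (h1.submatrix _)
  · have := hφ.extend_apply p 0 1
    rw [map_one] at this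
    rw [this]
    exact h2
  · have := hφ.extend_apply q 0 1
    rw [map_one] at this
    rw [this]
    exact h3

end Pool.Agent.Lib.MP_9fb650_an
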