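import Pool.Agent.Lib.MP_9fb650_an.Ell2

set_option autoImplicit false

namespace Pool.Agent.Lib.MP_9fb650_an

open Filter Topology
open scoped ComplexOrder ComplexConjugate

/-- coefficients of the Fejer kernel -/
noncomputable def pj (D : ℕ) (w : ℂ) (j : ℤ) : ℂ :=
  if |j| < D then w ^ j * (1 - (|j| : ℤ) / D) else 0

theorem pj_zero {D : ℕ} (hD : 0 < D) (w : ℂ) : pj D w 0 = 1 := by
  simp [pj, hD]

theorem norm_pj {D : ℕ} {w : ℂ} (hw : ‖w‖ = 1) {j : ℤ} (hj : |j| < D) :
    ‖pj D w j‖ = 1 - (|j| : ℤ) / D := by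
  have hD : (0 : ℝ) < D := by
    have : (0 : ℤ) < D := (abs_nonneg j).trans_lt hj
    exact_mod_cast this
  have h1 : ((|j| : ℤ) : ℝ) ≤ D := by exact_mod_cast hj.le
  have h2 : (1 - (|j| : ℤ) / D : ℂ) = ((1 - (|j| : ℤ) / D : ℝ) : ℂ) := by
    simp only [Complex.ofReal_sub, Complex.ofReal_one, Complex.ofReal_div, Complex.ofReal_intCast,
      Complex.ofReal_natCast]
  rw [pj, if_pos hj, norm_mul, norm_zpow, hw, one_zpow, one_mul, h2, Complex.norm_real,
    Real.norm_eq_abs, abs_of_nonneg]
  rw [sub_nonneg, div_le_one hD]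
  exact h1

theorem sum_sum_sub (D : ℕ) (F : ℤ → ℂ) :
    ∑ a ∈ Finset.range D, ∑ b ∈ Finset.range D, F ((a : ℤ) - b) =
      ∑ j ∈ Finset.Ioo (-(D : ℤ)) D, ((D : ℂ) - (|j| : ℤ)) * F j := by
  induction D with
  | zero => simp
  | succ D ih =>
    have e1 : ∑ a ∈ Finset.range (D + 1), ∑ b ∈ Finset.range (D + 1), F ((a : ℤ) - b) =
        (∑ a ∈ Finset.range D, ∑ b ∈ Finset.range D, F ((a : ℤ) - b)) +
        (∑ a ∈ Finset.range D, F ((a : ℤ) - D) + (∑ b ∈ Finset.range D, F ((D : ℤ) - b) + F 0)) := by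
      rw [Finset.sum_range_succ]
      simp only [Finset.sum_range_succ, Finset.sum_add_distrib, sub_self]
      ring
    have e2 : Finset.Ioo (-((D + 1 : ℕ) : ℤ)) ((D + 1 : ℕ) : ℤ) =
        insert (-(D : ℤ)) (insert (D : ℤ) (Finset.Ioo (-(D : ℤ)) D)) := by
      ext j
      simp only [Finset.mem_Ioo, Finset.mem_insert]
      push_cast
      omega
    have e3 : ∑ j ∈ Finset.Ioo (-((D + 1 : ℕ) : ℤ)) ((D + 1 : ℕ) : ℤ), ((D : ℂ) - (|j| : ℤ)) * F j =
        ∑ j ∈ Finset.Ioo (-(D : ℤ)) D, ((D : ℂ) - (|j| : ℤ)) * F j := by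
      symm
      apply Finset.sum_subset
      · intro j
        simp only [Finset.mem_Ioo]
        push_cast
        omega
      · intro j h1 h2
        simp only [Finset.mem_Ioo] at h1 h2
        have : |j| = D := by
          push_cast at h1
          rcases abs_cases j with h | h <;> omega
        rw [this]
        simp
    have e4 : ∑ a ∈ Finset.range D, F ((a : ℤ) - D) = ∑ j ∈ Finset.Ico (-(D : ℤ)) 0, F j := by
      refine Finset.sum_bij (fun a _ => (a : ℤ) - D) ?_ ?_ ?_ ?_
      · intro a ha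
        simp only [Finset.mem_range] at ha
        simp only [Finset.mem_Ico]
        omega
      · intro a _ b _ h
        simpa using h
      · intro j hj
        simp only [Finset.mem_Ico] at hj
        exact ⟨(j + D).toNat, by simp only [Finset.mem_range]; omega, by omega⟩
      · intro a _
        rfl
    have e5 : ∑ b ∈ Finset.range D, F ((D : ℤ) - b) = ∑ j ∈ Finset.Ioc 0 (D : ℤ), F j := by
      refine Finset.sum_bij (fun a _ => (D : ℤ) - a) ?_ ?_ ?_ ?_
      · intro a ha
        simp only [Finset.mem_range] at ha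
        simp only [Finset.mem_Ioc]
        omega
      · intro a _ b _ h
        simpa using h
      · intro j hj
        simp only [Finset.mem_Ioc] at hj
        exact ⟨(D - j).toNat, by simp only [Finset.mem_range]; omega, by omega⟩
      · intro a _
        rfl
    have e6 : Finset.Ioo (-((D + 1 : ℕ) : ℤ)) ((D + 1 : ℕ) : ℤ) =
        (Finset.Ico (-(D : ℤ)) 0) ∪ (insert 0 (Finset.Ioc 0 (D : ℤ))) := by
      ext j
      simp only [Finset.mem_Ioo, Finset.mem_union, Finset.mem_Ico, Finset.mem_insert,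
        Finset.mem_Ioc]
      push_cast
      omega
    have e7 : ∑ j ∈ Finset.Ioo (-((D + 1 : ℕ) : ℤ)) ((D + 1 : ℕ) : ℤ), F j =
        ∑ j ∈ Finset.Ico (-(D : ℤ)) 0, F j + (∑ j ∈ Finset.Ioc 0 (D : ℤ), F j + F 0) := by
      rw [e6, Finset.sum_union, Finset.sum_insert]
      · ring
      · simp
      · rw [Finset.disjoint_left]
        intro j hj
        simp only [Finset.mem_Ico] at hj
        simp only [Finset.mem_insert, Finset.mem_Ioc]
        omega
    rw [e1, ih, e4, e5, ← e7, ← e3, ← Finset.sum_add_distrib]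
    refine Finset.sum_congr rfl fun j _ => ?_
    push_cast
    ring

section

variable {A : Type} [CommGroup A] (n : ℕ → A) (D : ℕ → ℕ) (w : ℕ → ℂ)

/-- products -/
noncomputable def EE (l : ℕ →₀ ℤ) : A := l.prod fun i j => n i ^ j

noncomputable def pp (l : ℕ →₀ ℤ) : ℂ := l.prod fun i j => pj (D i) (w i) j

/-- admissible exponents -/
def Adm (S : Set ℕ) (l : ℕ →₀ ℤ) : Prop := (∀ i, i ∉ S → l i = 0) ∧ ∀ i, |l i| < D i

open Classical in
noncomputable def nu (S : Set ℕ) (x : A) : ℂ :=
  if h : ∃ l, Adm D S l ∧ EE n l = x then pp D w h.choose else 0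

/-- uniqueness of representations -/
def Uniq : Prop := ∀ l : ℕ →₀ ℤ, (∀ i, |l i| < 2 * D i) → EE n l = 1 → l = 0

theorem EE_zero : EE n 0 = 1 := by simp [EE]

theorem EE_add (l l' : ℕ →₀ ℤ) : EE n (l + l') = EE n l * EE n l' := by
  unfold EE
  exact Finsupp.prod_add_index' (fun i => zpow_zero _) (fun i a b => zpow_add _ _ _)

theorem EE_single (i : ℕ) (j : ℤ) : EE n (Finsupp.single i j) = n i ^ j := by
  unfold EE
  exact Finsupp.prod_single_index (zpow_zero _)

theorem EE_neg (l : ℕ →₀ ℤ) : EE n (-l) = (EE n l)⁻¹ := by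
  have := EE_add n l (-l)
  rw [add_neg_cancel, EE_zero] at this
  exact (inv_eq_of_mul_eq_one_right this.symm).symm

variable {n D w}

theorem pp_zero : pp D w 0 = 1 := by simp [pp]

theorem pp_eq_of (hD : ∀ i, 0 < D i) (l : ℕ →₀ ℤ) (s : Finset ℕ) (hs : l.support ⊆ s) :
    pp D w l = ∏ i ∈ s, pj (D i) (w i) (l i) := by
  unfold pp
  rw [Finsupp.prod_of_support_subset _ hs]
  intro i _
  exact pj_zero (hD i) _

theorem pp_add_single (hD : ∀ i, 0 < D i) (l : ℕ →₀ ℤ) (i : ℕ) (j : ℤ) (hl : l i = 0) :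
    pp D w (l + Finsupp.single i j) = pj (D i) (w i) j * pp D w l := by
  classical
  rw [pp_eq_of hD _ (insert i l.support), pp_eq_of hD l (insert i l.support)
    (Finset.subset_insert _ _), Finset.prod_insert, Finset.prod_insert]
  · rw [hl, pj_zero (hD i)]
    simp only [Finsupp.add_apply, hl, Finsupp.single_eq_same, zero_add, one_mul]
    congr 1
    refine Finset.prod_congr rfl fun k hk => ?_
    have : i ≠ k := by
      rintro rfl
      rw [Finsupp.mem_support_iff] at hk
      exact hk hl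
    rw [Finsupp.single_apply, if_neg this, add_zero]
  · simp [hl]
  · simp [hl]
  · intro k hk
    rw [Finsupp.mem_support_iff] at hk
    rw [Finset.mem_insert, Finsupp.mem_support_iff]
    by_contra hc
    push Not at hc
    apply hk
    rw [Finsupp.add_apply, hc.2, Finsupp.single_apply, if_neg (Ne.symm hc.1), add_zero]

theorem inj_of_uniq (hu : Uniq n D) {l l' : ℕ →₀ ℤ} (h1 : ∀ i, |l i| < D i)
    (h2 : ∀ i, |l' i| < D i) (h : EE n l = EE n l') : l = l' := by
  have h3 : l + -l' = 0 := by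
    apply hu
    · intro i
      rw [Finsupp.add_apply, Finsupp.neg_apply]
      have := abs_add_le (l i) (-l' i)
      rw [abs_neg] at this
      have := h1 i
      have := h2 i
      omega
    · rw [EE_add, EE_neg, h, mul_inv_cancel]
  rw [← sub_eq_add_neg, sub_eq_zero] at h3
  exact h3

theorem nu_EE (hu : Uniq n D) {S : Set ℕ} {l : ℕ →₀ ℤ} (hl : Adm D S l) :
    nu n D w S (EE n l) = pp D w l := by
  have h : ∃ l', Adm D S l' ∧ EE n l' = EE n l := ⟨l, hl, rfl⟩
  rw [nu, dif_pos h]
  rw [inj_of_uniq hu h.choose_spec.1.2 hl.2 h.choose_spec.2]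

theorem nu_ne_zero {S : Set ℕ} {x : A} (h : nu n D w S x ≠ 0) : ∃ l, Adm D S l ∧ EE n l = x := by
  by_contra hc
  rw [nu, dif_neg hc] at h
  exact h rfl

theorem nu_eq_zero {S : Set ℕ} {x : A} (h : ¬∃ l, Adm D S l ∧ EE n l = x) : nu n D w S x = 0 := by
  rw [nu, dif_neg h]

theorem nu_one (hD : ∀ i, 0 < D i) (hu : Uniq n D) (S : Set ℕ) : nu n D w S 1 = 1 := by
  have := nu_EE (w := w) (S := S) hu (l := 0) ⟨fun i _ => rfl, fun i => by simpa using hD i⟩
  rwa [EE_zero, pp_zero] at this

theorem nu_insert (hD : ∀ i, 0 < D i) (hu : Uniq n D) {S : Set ℕ} {i : ℕ} (hi : i ∉ S) (x : A) :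
    nu n D w (insert i S) x = ∑ j ∈ Finset.Ioo (-(D i : ℤ)) (D i),
      pj (D i) (w i) j * nu n D w S (x * (n i ^ j)⁻¹) := by
  classical
  by_cases hex : ∃ l, Adm D (insert i S) l ∧ EE n l = x
  · obtain ⟨l, hl, rfl⟩ := hex
    have hl0 : (l.erase i) i = 0 := Finsupp.erase_same
    have hle : l = l.erase i + Finsupp.single i (l i) := (Finsupp.erase_add_single i l).symm
    have had : Adm D S (l.erase i) := by
      constructor
      · intro k hk
        by_cases hki : k = i
        · rw [hki]; exact hl0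
        · rw [Finsupp.erase_ne hki]
          exact hl.1 k (by simp [hki, hk])
      · intro k
        by_cases hki : k = i
        · rw [hki, hl0]; simpa using hD i
        · rw [Finsupp.erase_ne hki]
          exact hl.2 k
    have hli := hl.2 i
    rw [nu_EE hu hl, Finset.sum_eq_single (l i)]
    · have e1 : EE n l * (n i ^ l i)⁻¹ = EE n (l.erase i) := by
        conv_lhs => rw [hle]
        rw [EE_add, EE_single]
        simp [Finsupp.erase_same]
      rw [e1, nu_EE hu had]
      conv_lhs => rw [hle]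
      exact pp_add_single hD _ _ _ hl0
    · intro j hj hne
      rw [Finset.mem_Ioo] at hj
      suffices nu n D w S (EE n l * (n i ^ j)⁻¹) = 0 by rw [this, mul_zero]
      apply nu_eq_zero
      rintro ⟨l', hl', he⟩
      have h3 : EE n (l' + Finsupp.single i j) = EE n l := by
        rw [EE_add, he, EE_single]; simp
      have h4 : l' i = 0 := hl'.1 i hi
      have h5 : l' + Finsupp.single i j = l := by
        refine inj_of_uniq hu ?_ hl.2 h3
        intro k
        rw [Finsupp.add_apply]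
        by_cases hki : i = k
        · subst hki
          rw [h4, Finsupp.single_eq_same, zero_add, abs_lt]
          exact hj
        · rw [Finsupp.single_apply, if_neg hki, add_zero]
          exact hl'.2 k
      apply hne
      rw [← h5, Finsupp.add_apply, h4, Finsupp.single_eq_same, zero_add]
    · intro h
      exact absurd (by rw [Finset.mem_Ioo]; rw [abs_lt] at hli; exact hli) h
  · rw [nu_eq_zero hex, Finset.sum_eq_zero]
    intro j hj
    rw [Finset.mem_Ioo] at hj
    suffices nu n D w S (x * (n i ^ j)⁻¹) = 0 by rw [this, mul_zero]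
    apply nu_eq_zero
    rintro ⟨l', hl', he⟩
    apply hex
    have h4 : l' i = 0 := hl'.1 i hi
    refine ⟨l' + Finsupp.single i j, ⟨?_, ?_⟩, ?_⟩
    · intro k hk
      rw [Set.mem_insert_iff, not_or] at hk
      rw [Finsupp.add_apply, hl'.1 k hk.2, Finsupp.single_apply, if_neg (Ne.symm hk.1), add_zero]
    · intro k
      rw [Finsupp.add_apply]
      by_cases hki : i = k
      · subst hki
        rw [h4, Finsupp.single_eq_same, zero_add, abs_lt]
        exact hj
      · rw [Finsupp.single_apply, if_neg hki, add_zero]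
        exact hl'.2 k
    · rw [EE_add, he, EE_single]; simp

theorem exV (hD : ∀ i, 0 < D i) (hw : ∀ i, ‖w i‖ = 1) (hu : Uniq n D) (S : Finset ℕ) :
    ∃ V : L2 A ℂ, (∀ x, inner ℂ V (Lsh x V) = nu n D w (S : Set ℕ) x) ∧
      ∀ y, V y ≠ 0 → ∃ l, Adm D (S : Set ℕ) l ∧ y = EE n l := by
  classical
  induction S using Finset.induction_on with
  | empty =>
    refine ⟨lp.single 2 1 1, ?_, ?_⟩
    · intro x
      rw [L2_inner, tsum_eq_single 1]
      · simp only [Lsh_apply, mul_one, lp.single_apply_self]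
        by_cases hx : x = 1
        · subst hx
          rw [nu_one hD hu]
          simp
        · have h1 : x⁻¹ ≠ 1 := by simpa using hx
          rw [lp.single_apply_ne _ _ _ h1, nu_eq_zero]
          · simp
          · rintro ⟨l, hl, he⟩
            have : l = 0 := by
              ext i
              exact hl.1 i (by simp)
            rw [this, EE_zero] at he
            exact hx he.symm
      · intro y hy
        rw [lp.single_apply_ne _ _ _ hy]
        simp
    · intro y hy
      by_cases h : y = 1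
      · exact ⟨0, ⟨fun i _ => rfl, fun i => by simpa using hD i⟩, by rw [h, EE_zero]⟩
      · rw [lp.single_apply_ne _ _ _ h] at hy
        exact absurd rfl hy
  | insert i S hi ih =>
    obtain ⟨V, h1, h2⟩ := ih
    have hwc : conj (w i) * w i = 1 := by
      rw [← Complex.normSq_eq_conj_mul_self, Complex.normSq_eq_norm_sq, hw i]
      simp
    have hw0 : w i ≠ 0 := by
      intro h
      have := hw i
      rw [h] at this
      simp at this
    have hwinv : conj (w i) = (w i)⁻¹ := eq_inv_of_mul_eq_one_left hwc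
    have hDr : (0 : ℝ) < D i := by exact_mod_cast hD i
    have hDc : (D i : ℂ) ≠ 0 := by exact_mod_cast (hD i).ne'
    have hsq : ((Real.sqrt (D i) : ℝ) : ℂ) * ((Real.sqrt (D i) : ℝ) : ℂ) = D i := by
      rw [← Complex.ofReal_mul, Real.mul_self_sqrt hDr.le]
      simp
    have hs0 : ((Real.sqrt (D i) : ℝ) : ℂ) ≠ 0 := by
      intro h
      rw [h, mul_zero] at hsq
      exact hDc hsq.symm
    refine ⟨∑ a ∈ Finset.range (D i), ((conj (w i)) ^ a / (Real.sqrt (D i) : ℝ)) •
      Lsh (n i ^ a) V, ?_, ?_⟩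
    · intro x
      rw [Lsh_sum, sum_inner]
      simp only [inner_sum, Lsh_smul, inner_smul_left, inner_smul_right, Lsh_Lsh, Lsh_inner, h1]
      rw [Finset.coe_insert, nu_insert hD hu (by simpa using hi)]
      have e1 : ∀ a ∈ Finset.range (D i), ∀ b ∈ Finset.range (D i),
          ((conj (w i)) ^ b / (Real.sqrt (D i) : ℝ)) * (conj ((conj (w i)) ^ a / (Real.sqrt (D i) : ℝ)) *
            nu n D w (S : Set ℕ) ((n i ^ a)⁻¹ * (x * n i ^ b))) =
          (fun j : ℤ => (w i) ^ j / (D i) * nu n D w (S : Set ℕ) (x * (n i ^ j)⁻¹)) ((a : ℤ) - b) := by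
        intro a _ b _
        simp only
        have e2 : (n i ^ a)⁻¹ * (x * n i ^ b) = x * (n i ^ ((a : ℤ) - b))⁻¹ := by
          rw [zpow_sub, zpow_natCast, zpow_natCast, mul_inv, inv_inv, mul_left_comm]
        rw [e2, ← mul_assoc]
        congr 1
        rw [map_div₀, map_pow, Complex.conj_conj, Complex.conj_ofReal, hwinv, zpow_sub₀ hw0,
          zpow_natCast, zpow_natCast, inv_pow, ← hsq]
        field_simp
      rw [Finset.sum_congr rfl fun a ha => Finset.sum_congr rfl fun b hb => e1 a ha b hb]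
      rw [sum_sum_sub (D i) (fun j : ℤ => (w i) ^ j / (D i) *
        nu n D w (S : Set ℕ) (x * (n i ^ j)⁻¹))]
      refine Finset.sum_congr rfl fun j hj => ?_
      rw [Finset.mem_Ioo, ← abs_lt] at hj
      rw [pj, if_pos hj]
      field_simp
    · intro y hy
      have hy2 : ∃ a ∈ Finset.range (D i), (Lsh (n i ^ a) V) y ≠ 0 := by
        by_contra hc
        push Not at hc
        apply hy
        rw [lp.coeFn_sum, Finset.sum_apply]
        refine Finset.sum_eq_zero fun a ha => ?_
        rw [lp.coeFn_smul, Pi.smul_apply, hc a ha, smul_zero]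
      obtain ⟨a, ha, hy3⟩ := hy2
      rw [Lsh_apply] at hy3
      obtain ⟨l, hl, he⟩ := h2 _ hy3
      rw [Finset.mem_range] at ha
      have h4 : l i = 0 := hl.1 i (by simpa using hi)
      refine ⟨l + Finsupp.single i (a : ℤ), ⟨?_, ?_⟩, ?_⟩
      · intro k hk
        rw [Finset.coe_insert, Set.mem_insert_iff, not_or] at hk
        rw [Finsupp.add_apply, hl.1 k hk.2, Finsupp.single_apply, if_neg (Ne.symm hk.1), add_zero]
      · intro k
        rw [Finsupp.add_apply]
        by_cases hki : i = k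
        · subst hki
          rw [h4, Finsupp.single_eq_same, zero_add, abs_lt]
          omega
        · rw [Finsupp.single_apply, if_neg hki, add_zero]
          exact hl.2 k
      · rw [EE_add, ← he, EE_single, zpow_natCast]
        simp

theorem nu_tendsto (hu : Uniq n D) (S : Set ℕ) (x : A) :
    Tendsto (fun m => nu n D w (S ∩ {i | i < m}) x) atTop (𝓝 (nu n D w S x)) := by
  refine tendsto_const_nhds.congr' ?_
  by_cases hex : ∃ l, Adm D S l ∧ EE n l = x
  · obtain ⟨l, hl, rfl⟩ := hex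
    filter_upwards [eventually_gt_atTop (l.support.sup id)] with m hm
    rw [nu_EE hu hl, nu_EE hu]
    refine ⟨fun i hi => ?_, hl.2⟩
    by_contra h
    apply hi
    refine ⟨?_, ?_⟩
    · by_contra h2
      exact h (hl.1 i h2)
    · have : i ≤ l.support.sup id := Finset.le_sup (f := id) (Finsupp.mem_support_iff.mpr h)
      exact this.trans_lt hm
  · refine Eventually.of_forall fun m => ?_
    simp only
    rw [nu_eq_zero hex, nu_eq_zero]
    rintro ⟨l, hl, he⟩
    exact hex ⟨l, ⟨fun i hi => hl.1 i fun h => hi h.1, hl.2⟩, he⟩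

theorem exV' (hD : ∀ i, 0 < D i) (hw : ∀ i, ‖w i‖ = 1) (hu : Uniq n D) (S : Set ℕ) (m : ℕ) :
    ∃ V : L2 A ℂ, ‖V‖ = 1 ∧ (∀ x, inner ℂ V (Lsh x V) = nu n D w (S ∩ {i | i < m}) x) ∧
      ∀ y, V y ≠ 0 → ∃ l, Adm D (S ∩ {i | i < m}) l ∧ y = EE n l := by
  have hfin : (S ∩ {i | i < m}).Finite := (Set.finite_lt_nat m).subset Set.inter_subset_right
  obtain ⟨V, h1, h2⟩ := exV hD hw hu hfin.toFinset
  rw [Set.Finite.coe_toFinset] at h1 h2
  refine ⟨V, ?_, h1, h2⟩
  have h3 := h1 1
  rw [Lsh_one, nu_one hD hu] at h3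
  have h4 := inner_self_eq_norm_sq (𝕜 := ℂ) V
  rw [h3] at h4
  rw [RCLike.one_re] at h4
  nlinarith [norm_nonneg V]

theorem BN_nu (hD : ∀ i, 0 < D i) (hw : ∀ i, ‖w i‖ = 1) (hu : Uniq n D) (S : Set ℕ) :
    BN (nu n D w S) 1 := by
  refine BN_of_tendsto (F := fun m x => nu n D w (S ∩ {i | i < m}) x) (fun m => ?_)
    (fun x => nu_tendsto hu S x)
  obtain ⟨V, h0, h1, h2⟩ := exV' hD hw hu S m
  have := BN_L2 V V
  rw [h0, one_mul] at this
  simpa only [h1] using this

/-- the finite index set -/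
noncomputable def idx (D : ℕ → ℕ) (N : ℕ) : Finset (ℕ →₀ ℤ) :=
  (Finset.range N).finsupp (fun i => Finset.Ioo (-(D i : ℤ)) (D i))

theorem mem_idx (hD : ∀ i, 0 < D i) (N : ℕ) (l : ℕ →₀ ℤ) :
    l ∈ idx D N ↔ Adm D {i | i < N} l := by
  rw [idx, Finset.mem_finsupp_iff]
  constructor
  · rintro ⟨h1, h2⟩
    refine ⟨fun i hi => ?_, fun i => ?_⟩
    · by_contra h
      have := h1 (Finsupp.mem_support_iff.mpr h)
      exact hi (Finset.mem_range.mp this)
    · by_cases hi : i < N
      · have := h2 i (Finset.mem_range.mpr hi)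
        rw [Finset.mem_Ioo] at this
        exact abs_lt.mpr this
      · have h : l i = 0 := by
          by_contra h
          exact hi (Finset.mem_range.mp (h1 (Finsupp.mem_support_iff.mpr h)))
        rw [h]; simpa using hD i
  · rintro ⟨h1, h2⟩
    refine ⟨fun i hi => ?_, fun i _ => ?_⟩
    · rw [Finsupp.mem_support_iff] at hi
      rw [Finset.mem_range]
      by_contra h
      exact hi (h1 i h)
    · rw [Finset.mem_Ioo]
      exact abs_lt.mp (h2 i)

theorem adm_add (hD : ∀ i, 0 < D i) {N : ℕ} {l l' : ℕ →₀ ℤ} (h1 : Adm D {i | i < N} l)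
    (h2 : Adm D {i | N ≤ i} l') : ∀ i, |(l + l') i| < D i := by
  intro i
  rw [Finsupp.add_apply]
  by_cases hi : i < N
  · rw [h2.1 i (by simpa using hi), add_zero]
    exact h1.2 i
  · rw [h1.1 i hi, zero_add]
    exact h2.2 i

theorem adm_eq (hu : Uniq n D) {N : ℕ} {l l' k k' : ℕ →₀ ℤ}
    (h1 : Adm D {i | i < N} l) (h2 : Adm D {i | N ≤ i} l') (h3 : Adm D {i | i < N} k)
    (h4 : Adm D {i | N ≤ i} k') (hD : ∀ i, 0 < D i) (h : EE n (l + l') = EE n (k + k')) : l = k := by
  have h5 := inj_of_uniq hu (adm_add hD h1 h2) (adm_add hD h3 h4) h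
  ext i
  by_cases hi : i < N
  · have h6 := DFunLike.congr_fun h5 i
    rwa [Finsupp.add_apply, Finsupp.add_apply, h2.1 i (by simpa using hi), h4.1 i (by simpa using hi),
      add_zero, add_zero] at h6
  · rw [h1.1 i hi, h3.1 i hi]

theorem nu_split (hD : ∀ i, 0 < D i) (hu : Uniq n D) (N : ℕ) (x : A) :
    nu n D w Set.univ x = ∑ l ∈ idx D N, pp D w l * nu n D w {i | N ≤ i} (x * (EE n l)⁻¹) := by
  classical
  by_cases hex : ∃ l, Adm D Set.univ l ∧ EE n l = x
  · obtain ⟨l, hl, rfl⟩ := hex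
    have hsum : l.filter (fun i => i < N) + l.filter (fun i => ¬ i < N) = l :=
      Finsupp.filter_add_filter_not _ _
    have a1 : Adm D {i | i < N} (l.filter (fun i => i < N)) := by
      refine ⟨fun i hi => Finsupp.filter_apply_neg _ _ hi, fun i => ?_⟩
      by_cases hi : i < N
      · rw [Finsupp.filter_apply, if_pos hi]; exact hl.2 i
      · rw [Finsupp.filter_apply, if_neg hi]; simpa using hD i
    have a2 : Adm D {i | N ≤ i} (l.filter (fun i => ¬ i < N)) := by
      refine ⟨fun i hi => Finsupp.filter_apply_neg _ _ (by simpa using hi), fun i => ?_⟩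
      by_cases hi : i < N
      · rw [Finsupp.filter_apply, if_neg (by simpa using hi)]; simpa using hD i
      · rw [Finsupp.filter_apply, if_pos hi]; exact hl.2 i
    have hpp : pp D w l = pp D w (l.filter (fun i => i < N)) *
        pp D w (l.filter (fun i => ¬ i < N)) := by
      unfold pp
      exact (Finsupp.prod_filter_mul_prod_filter_not _ _ _).symm
    rw [nu_EE hu hl, Finset.sum_eq_single (l.filter (fun i => i < N)), hpp]
    · congr 1
      have e1 : EE n l * (EE n (l.filter (fun i => i < N)))⁻¹ =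
          EE n (l.filter (fun i => ¬ i < N)) := by
        conv_lhs => rw [← hsum]
        rw [EE_add]
        simp only [hsum]
        rw [mul_right_comm, mul_inv_cancel, one_mul]
      rw [e1, nu_EE hu a2]
    · intro k hk hne
      rw [mem_idx hD] at hk
      suffices nu n D w {i | N ≤ i} (EE n l * (EE n k)⁻¹) = 0 by rw [this, mul_zero]
      apply nu_eq_zero
      rintro ⟨l', hl', he⟩
      apply hne
      refine adm_eq hu hk hl' a1 a2 hD ?_
      rw [hsum, EE_add, he]
      simp
    · intro h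
      exact absurd ((mem_idx hD _ _).mpr a1) h
  · rw [nu_eq_zero hex, Finset.sum_eq_zero]
    intro k hk
    rw [mem_idx hD] at hk
    suffices nu n D w {i | N ≤ i} (x * (EE n k)⁻¹) = 0 by rw [this, mul_zero]
    apply nu_eq_zero
    rintro ⟨l', hl', he⟩
    apply hex
    refine ⟨k + l', ⟨fun i hi => absurd (Set.mem_univ i) hi, adm_add hD hk hl'⟩, ?_⟩
    rw [EE_add, he]
    simp

/-- almost periodic modulus -/
structure Modl (r : A → ℂ) (g : A → ℝ) : Prop where
  g_nonneg : ∀ x, 0 ≤ g x
  g_one : g 1 = 0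
  g_mul : ∀ x y, g (x * y) ≤ g x + g y
  g_inv : ∀ x, g x⁻¹ = g x
  diff : ∀ x m, ‖r (x * m) - r m‖ ≤ g x
  bn : ∀ (V : L2 A ℂ) (ε : ℝ), ‖V‖ = 1 → (∀ y, V y ≠ 0 → g y ≤ ε) → ∀ m,
    BN (fun x => (r (x * m) - r m) * inner ℂ V (Lsh x V)) ε

theorem Modl.g_pow {r : A → ℂ} {g : A → ℝ} (h : Modl r g) (x : A) (k : ℕ) : g (x ^ k) ≤ k * g x := by
  induction k with
  | zero => simp [h.g_one]
  | succ k ih =>
    rw [pow_succ]
    push_cast
    linarith [h.g_mul (x ^ k) x]

theorem Modl.g_zpow {r : A → ℂ} {g : A → ℝ} (h : Modl r g) (x : A) (j : ℤ) :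
    g (x ^ j) ≤ |(j : ℝ)| * g x := by
  obtain ⟨k, rfl | rfl⟩ := j.eq_nat_or_neg
  · simpa using h.g_pow x k
  · rw [zpow_neg, h.g_inv]
    simpa using h.g_pow x k

theorem Modl.g_EE {r : A → ℂ} {g : A → ℝ} (h : Modl r g) (l : ℕ →₀ ℤ) (s : Finset ℕ)
    (hs : l.support ⊆ s) : g (EE n l) ≤ ∑ i ∈ s, |(l i : ℝ)| * g (n i) := by
  classical
  have e1 : EE n l = ∏ i ∈ s, n i ^ l i := by
    unfold EE
    exact Finsupp.prod_of_support_subset _ hs _ fun i _ => zpow_zero _
  rw [e1]
  clear e1 hs
  induction s using Finset.induction_on with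
  | empty => simp [h.g_one]
  | insert a s ha ih =>
    rw [Finset.prod_insert ha, Finset.sum_insert ha]
    exact (h.g_mul _ _).trans (add_le_add (h.g_zpow _ _) ih)

/-- partial products of the reciprocals -/
noncomputable def Pk (D : ℕ → ℕ) (k : ℕ) : ℝ := ∏ i ∈ Finset.range k, (1 / (D i : ℝ))

theorem Pk_succ (k : ℕ) : Pk D (k + 1) = Pk D k * (1 / (D k : ℝ)) := by
  unfold Pk
  rw [Finset.prod_range_succ]

theorem Pk_pos (hD : ∀ i, 2 ≤ D i) (k : ℕ) : 0 < Pk D k := by
  unfold Pk
  refine Finset.prod_pos fun i _ => ?_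
  have : 0 < D i := by have := hD i; omega
  positivity

theorem Pk_le (hD : ∀ i, 2 ≤ D i) (k : ℕ) : Pk D k ≤ (1 / 2) ^ k := by
  induction k with
  | zero => simp [Pk]
  | succ k ih =>
    rw [Pk_succ, pow_succ]
    have h2 : (2 : ℝ) ≤ D k := by exact_mod_cast hD k
    have h3 : 1 / (D k : ℝ) ≤ 1 / 2 := by
      apply one_div_le_one_div_of_le (by norm_num) h2
    have h4 : 0 ≤ 1 / (D k : ℝ) := by positivity
    exact mul_le_mul ih h3 h4 (by positivity)

theorem pp_bounds (hD : ∀ i, 2 ≤ D i) (hw : ∀ i, ‖w i‖ = 1) {r : A → ℂ} {g : A → ℝ}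
    (hm : Modl r g) (hr1 : r 1 = 0) (hg : ∀ k, g (n k) ≤ Pk D (k + 1)) {R : ℝ} (hR : 1 ≤ R)
    (N : ℕ) : ∀ l : ℕ →₀ ℤ, Adm D {i | i < N} l → ‖pp D w l‖ ≤ 1 ∧ Pk D N ≤ ‖pp D w l‖ ∧
      ‖r (EE n l)‖ ≤ R * (1 - ‖pp D w l‖) := by
  have hD0 : ∀ i, 0 < D i := fun i => by have := hD i; omega
  induction N with
  | zero =>
    intro l hl
    have : l = 0 := by
      ext i
      exact hl.1 i (by simp)
    rw [this, pp_zero, EE_zero, hr1]
    simp [Pk]
  | succ N ih =>
    intro l hl
    have hl0 : (l.erase N) N = 0 := Finsupp.erase_same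
    have hle : l = l.erase N + Finsupp.single N (l N) := (Finsupp.erase_add_single N l).symm
    have had : Adm D {i | i < N} (l.erase N) := by
      constructor
      · intro k hk
        by_cases hki : k = N
        · rw [hki]; exact hl0
        · rw [Finsupp.erase_ne hki]
          refine hl.1 k ?_
          intro (h : k < N + 1)
          exact hk (show k < N by omega)
      · intro k
        by_cases hki : k = N
        · rw [hki, hl0]; simpa using hD0 N
        · rw [Finsupp.erase_ne hki]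
          exact hl.2 k
    obtain ⟨i1, i2, i3⟩ := ih _ had
    have hj : |l N| < D N := hl.2 N
    have hnp := norm_pj (hw N) hj
    have hDr : (0 : ℝ) < D N := by exact_mod_cast hD0 N
    have e1 : pp D w l = pj (D N) (w N) (l N) * pp D w (l.erase N) := by
      conv_lhs => rw [hle]
      exact pp_add_single hD0 _ _ _ hl0
    have e2 : EE n l = n N ^ (l N) * EE n (l.erase N) := by
      conv_lhs => rw [hle]
      rw [EE_add, EE_single]
      simp [mul_comm]
    set p : ℝ := ‖pp D w (l.erase N)‖ with hp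
    set c : ℝ := ((|l N| : ℤ) : ℝ) / D N with hc
    have hc0 : 0 ≤ c := by
      rw [hc]
      exact div_nonneg (by exact_mod_cast abs_nonneg (l N)) hDr.le
    have hc1 : c ≤ 1 - 1 / D N := by
      rw [hc, le_sub_iff_add_le, ← add_div, div_le_one hDr]
      have : |l N| + 1 ≤ D N := hj
      exact_mod_cast this
    have hp0 : 0 ≤ p := norm_nonneg _
    have e3 : ‖pp D w l‖ = (1 - c) * p := by rw [e1, norm_mul, hnp]
    have hinv : (0 : ℝ) < 1 / D N := by positivity
    rw [e3]
    refine ⟨by nlinarith, ?_, ?_⟩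
    · rw [Pk_succ]
      have hP := (Pk_pos hD N).le
      nlinarith
    · rw [e2]
      have h1 := hm.diff (n N ^ (l N)) (EE n (l.erase N))
      have h2 := hm.g_zpow (n N) (l N)
      have h3 : |((l N : ℤ) : ℝ)| = c * D N := by
        rw [hc]
        field_simp
        push_cast
        rfl
      have h4 : c * D N * g (n N) ≤ c * D N * Pk D (N + 1) := by
        have := hg N
        gcongr
      have h5 : c * D N * Pk D (N + 1) = c * Pk D N := by
        rw [Pk_succ]
        field_simp
      have h6 : ‖r (n N ^ (l N) * EE n (l.erase N))‖ ≤ ‖r (EE n (l.erase N))‖ + c * Pk D N := by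
        have h7 : ‖r (n N ^ (l N) * EE n (l.erase N))‖ - ‖r (EE n (l.erase N))‖ ≤
          ‖r (n N ^ (l N) * EE n (l.erase N)) - r (EE n (l.erase N))‖ := norm_sub_norm_le _ _
        rw [h3] at h2
        linarith
      have h8 : c * Pk D N ≤ c * p := by gcongr
      nlinarith [mul_nonneg hc0 hp0]

theorem tail_BN (hD : ∀ i, 2 ≤ D i) (hw : ∀ i, ‖w i‖ = 1) (hu : Uniq n D) {r : A → ℂ} {g : A → ℝ}
    (hm : Modl r g) (hg : ∀ k, g (n k) ≤ Pk D (k + 1)) (N : ℕ) (m : A) :
    BN (fun x => (r (x * m) - r m) * nu n D w {i | N ≤ i} x) (2 * (1 / 2) ^ N) := by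
  have hD0 : ∀ i, 0 < D i := fun i => by have := hD i; omega
  refine BN_of_tendsto (F := fun M x => (r (x * m) - r m) * nu n D w ({i | N ≤ i} ∩ {i | i < M}) x)
    (fun M => ?_) (fun x => (nu_tendsto hu _ x).const_mul _)
  obtain ⟨V, h0, h1, h2⟩ := exV' hD0 hw hu {i | N ≤ i} M
  simp only [← h1]
  refine hm.bn V _ h0 ?_ m
  intro y hy
  obtain ⟨l, hl, rfl⟩ := h2 y hy
  have hs : l.support ⊆ Finset.Ico N M := by
    intro i hi
    rw [Finsupp.mem_support_iff] at hi
    rw [Finset.mem_Ico]
    by_contra hc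
    exact hi (hl.1 i fun h => hc h)
  refine (hm.g_EE l _ hs).trans ?_
  have h3 : ∀ i ∈ Finset.Ico N M, |(l i : ℝ)| * g (n i) ≤ (1 / 2) ^ i := by
    intro i _
    have h4 : |(l i : ℝ)| ≤ D i := by
      have := (hl.2 i).le
      rw [← Int.cast_abs]
      exact_mod_cast this
    have hDr : (0 : ℝ) < D i := by exact_mod_cast hD0 i
    calc |(l i : ℝ)| * g (n i) ≤ D i * Pk D (i + 1) := by
          have := hg i
          have := hm.g_nonneg (n i)
          gcongr
      _ = Pk D i := by rw [Pk_succ]; field_simp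
      _ ≤ _ := Pk_le hD i
  refine (Finset.sum_le_sum h3).trans ?_
  have h5 : ∀ M, ∑ i ∈ Finset.Ico N M, (1 / 2 : ℝ) ^ i ≤ 2 * (1 / 2) ^ N := by
    intro M
    rw [Finset.sum_Ico_eq_sum_range]
    simp only [pow_add]
    rw [← Finset.mul_sum, mul_comm]
    gcongr
    have := (summable_geometric_of_lt_one (r := (1 / 2 : ℝ)) (by norm_num) (by norm_num)).sum_le_tsum
      (Finset.range (M - N)) (fun i _ => by positivity)
    rw [tsum_geometric_of_lt_one (by norm_num) (by norm_num)] at this
    linarith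
  exact h5 M

end

end Pool.Agent.Lib.MP_9fb650_an
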