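import Pool.Agent.Lib.MP_9fb650_an.Inv
import Pool.Agent.Lib.MP_9fb650_an.Riesz

set_option autoImplicit false

namespace Pool.Agent.Lib.MP_9fb650_an

open Filter Topology
open scoped ComplexOrder ComplexConjugate

section

variable {A : Type} [CommGroup A]

/-- the selection property -/
def EX (g : A → ℝ) (hc : A → ℂ) : Prop := ∀ (T : Finset A) (D : ℕ) (ε : ℝ), 0 < ε →
  ∃ n : A, g n ≤ ε ∧ (∀ j : ℤ, j ≠ 0 → |j| < 2 * D → n ^ j ∉ T) ∧
    (∀ m ∈ T, ∀ j : ℤ, j ≠ 0 → |j| < 2 * D → ‖hc (m * n ^ j)‖ ≤ ε)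

open Classical in
/-- next finite set -/
noncomputable def nextT (D : ℕ) (T : Finset A) (a : A) : Finset A :=
  (T ×ˢ Finset.Ioo (-(2 * D : ℤ)) (2 * D)).image (fun q : A × ℤ => q.1 * a ^ q.2)

/-- conclusion of the selection -/
structure Sel (D : ℕ → ℕ) (g : A → ℝ) (hc : A → ℂ) (n : ℕ → A) (T : ℕ → Finset A) : Prop where
  T0 : T 0 = {1}
  Ts : ∀ K, T (K + 1) = nextT (D K) (T K) (n K)
  gn : ∀ K, g (n K) ≤ Pk D (K + 1)
  nT : ∀ K, ∀ j : ℤ, j ≠ 0 → |j| < 2 * D K → n K ^ j ∉ T K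
  cn : ∀ K, ∀ m ∈ T K, ∀ j : ℤ, j ≠ 0 → |j| < 2 * D K →
    ‖hc (m * n K ^ j)‖ ≤ (1 / 2) ^ K / ((T K).card * (4 * D K) + 1)

theorem exists_seq {D : ℕ → ℕ} (hD : ∀ i, 2 ≤ D i) {g : A → ℝ} {hc : A → ℂ} (h : EX g hc) :
    ∃ (n : ℕ → A) (T : ℕ → Finset A), Sel D g hc n T := by
  classical
  have h1 : ∀ (K : ℕ) (T : Finset A), ∃ a : A, g a ≤ Pk D (K + 1) ∧
      (∀ j : ℤ, j ≠ 0 → |j| < 2 * D K → a ^ j ∉ T) ∧
      (∀ m ∈ T, ∀ j : ℤ, j ≠ 0 → |j| < 2 * D K →
        ‖hc (m * a ^ j)‖ ≤ (1 / 2) ^ K / (T.card * (4 * D K) + 1)) := by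
    intro K T
    have e1 : 0 < min (Pk D (K + 1)) ((1 / 2) ^ K / (T.card * (4 * D K) + 1)) :=
      lt_min (Pk_pos hD _) (by positivity)
    obtain ⟨a, a1, a2, a3⟩ := h T (D K) _ e1
    exact ⟨a, a1.trans (min_le_left _ _), a2, fun m hm j hj hj2 =>
      (a3 m hm j hj hj2).trans (min_le_right _ _)⟩
  choose nx hnx using h1
  let T : ℕ → Finset A := fun K => Nat.rec {1} (fun K T => nextT (D K) T (nx K T)) K
  exact ⟨fun K => nx K (T K), T, rfl, fun K => rfl, fun K => (hnx K (T K)).1,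
    fun K => (hnx K (T K)).2.1, fun K => (hnx K (T K)).2.2⟩

variable {D : ℕ → ℕ} {g : A → ℝ} {hc : A → ℂ} {n : ℕ → A} {T : ℕ → Finset A}

theorem Sel.mem_T (h : Sel D g hc n T) (K : ℕ) : ∀ l : ℕ →₀ ℤ, (∀ i, K ≤ i → l i = 0) →
    (∀ i, |l i| < 2 * D i) → EE n l ∈ T K := by
  classical
  induction K with
  | zero =>
    intro l hl _
    have : l = 0 := by
      ext i
      exact hl i (Nat.zero_le _)
    rw [this, EE_zero, h.T0]
    simp
  | succ K ih =>
    intro l hl hl2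
    have hle : l = l.erase K + Finsupp.single K (l K) := (Finsupp.erase_add_single K l).symm
    have e1 : EE n l = EE n (l.erase K) * n K ^ (l K) := by
      conv_lhs => rw [hle]
      rw [EE_add, EE_single]
    rw [e1, h.Ts, nextT, Finset.mem_image]
    refine ⟨(EE n (l.erase K), l K), ?_, rfl⟩
    rw [Finset.mem_product, Finset.mem_Ioo, ← abs_lt]
    refine ⟨ih _ ?_ ?_, hl2 K⟩
    · intro i hi
      by_cases hiK : i = K
      · rw [hiK]; exact Finsupp.erase_same
      · rw [Finsupp.erase_ne hiK]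
        exact hl i (by omega)
    · intro i
      by_cases hiK : i = K
      · rw [hiK, Finsupp.erase_same, abs_zero]
        exact (abs_nonneg _).trans_lt (hl2 K)
      · rw [Finsupp.erase_ne hiK]
        exact hl2 i

theorem Sel.uniq (h : Sel D g hc n T) : Uniq n D := by
  classical
  intro l hl h1
  by_contra hne
  have hs : l.support.Nonempty := Finsupp.support_nonempty_iff.mpr hne
  set K := l.support.max' hs with hK
  have hKm : K ∈ l.support := l.support.max'_mem hs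
  have hle : l = l.erase K + Finsupp.single K (l K) := (Finsupp.erase_add_single K l).symm
  have e1 : EE n l = EE n (l.erase K) * n K ^ (l K) := by
    conv_lhs => rw [hle]
    rw [EE_add, EE_single]
  rw [h1] at e1
  have e2 : n K ^ (-(l K)) = EE n (l.erase K) := by
    rw [zpow_neg]
    exact (eq_inv_of_mul_eq_one_left e1.symm).symm
  refine h.nT K (-(l K)) (by simpa using Finsupp.mem_support_iff.mp hKm)
    (by rw [abs_neg]; exact hl K) ?_
  rw [e2]
  refine h.mem_T K _ ?_ ?_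
  · intro i hi
    by_cases hiK : i = K
    · rw [hiK]; exact Finsupp.erase_same
    · rw [Finsupp.erase_ne hiK]
      by_contra hc
      have : i ≤ K := l.support.le_max' i (Finsupp.mem_support_iff.mpr hc)
      omega
  · intro i
    by_cases hiK : i = K
    · rw [hiK, Finsupp.erase_same, abs_zero]
      exact (abs_nonneg _).trans_lt (hl K)
    · rw [Finsupp.erase_ne hiK]
      exact hl i

theorem Sel.one_mem (h : Sel D g hc n T) (hD : ∀ i, 2 ≤ D i) (K : ℕ) : 1 ∈ T K := by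
  have := h.mem_T K 0 (fun i _ => rfl) (fun i => by have := hD i; simp; omega)
  rwa [EE_zero] at this

theorem Sel.mono (h : Sel D g hc n T) (hD : ∀ i, 2 ≤ D i) (K : ℕ) : T K ⊆ T (K + 1) := by
  classical
  intro x hx
  rw [h.Ts, nextT, Finset.mem_image]
  refine ⟨(x, 0), ?_, by simp⟩
  rw [Finset.mem_product, Finset.mem_Ioo]
  have := hD K
  refine ⟨hx, ?_, ?_⟩ <;> simp <;> omega

theorem Sel.sum_T (h : Sel D g hc n T) (hD : ∀ i, 2 ≤ D i) (N : ℕ) :
    ∑ x ∈ T N, ‖hc x‖ ^ 2 ≤ ‖hc 1‖ ^ 2 + ∑ K ∈ Finset.range N, (1 / 2 : ℝ) ^ K := by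
  classical
  induction N with
  | zero => simp [h.T0]
  | succ N ih =>
    rw [Finset.sum_range_succ, ← add_assoc]
    refine le_trans ?_ (add_le_add_left ih _)
    have hsub : T (N + 1) ⊆ T N ∪ ((T N ×ˢ (Finset.Ioo (-(2 * D N : ℤ)) (2 * D N)).erase 0).image
        (fun q : A × ℤ => q.1 * n N ^ q.2)) := by
      intro x hx
      rw [h.Ts, nextT, Finset.mem_image] at hx
      obtain ⟨q, hq, rfl⟩ := hx
      rw [Finset.mem_product] at hq
      rw [Finset.mem_union]
      by_cases hq0 : q.2 = 0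
      · left
        rw [hq0, zpow_zero, mul_one]
        exact hq.1
      · right
        rw [Finset.mem_image]
        exact ⟨q, Finset.mem_product.mpr ⟨hq.1, Finset.mem_erase.mpr ⟨hq0, hq.2⟩⟩, rfl⟩
    have hnn : ∀ x, 0 ≤ ‖hc x‖ ^ 2 := fun x => sq_nonneg _
    refine (Finset.sum_le_sum_of_subset_of_nonneg hsub fun x _ _ => hnn x).trans ?_
    have hun : ∀ s t : Finset A, ∑ x ∈ s ∪ t, ‖hc x‖ ^ 2 ≤
        ∑ x ∈ s, ‖hc x‖ ^ 2 + ∑ x ∈ t, ‖hc x‖ ^ 2 := by
      intro s t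
      have h1 := Finset.sum_union_inter (s₁ := s) (s₂ := t) (f := fun x => ‖hc x‖ ^ 2)
      have h2 : 0 ≤ ∑ x ∈ s ∩ t, ‖hc x‖ ^ 2 := Finset.sum_nonneg fun x _ => hnn x
      linarith
    refine (hun _ _).trans ?_
    gcongr
    refine (Finset.sum_image_le_of_nonneg fun x _ => hnn x).trans ?_
    set c : ℝ := (T N).card * (4 * D N) with hcdef
    have hc0 : 0 ≤ c := by positivity
    have h3 : ∀ q ∈ T N ×ˢ (Finset.Ioo (-(2 * D N : ℤ)) (2 * D N)).erase 0,
        ‖hc (q.1 * n N ^ q.2)‖ ^ 2 ≤ (1 / 2) ^ N / (c + 1) := by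
      intro q hq
      rw [Finset.mem_product, Finset.mem_erase, Finset.mem_Ioo, ← abs_lt] at hq
      have h4 := h.cn N q.1 hq.1 q.2 hq.2.1 hq.2.2
      have h5 : (1 / 2 : ℝ) ^ N / (c + 1) ≤ 1 := by
        rw [div_le_one (by positivity)]
        have : (1 / 2 : ℝ) ^ N ≤ 1 := pow_le_one₀ (by norm_num) (by norm_num)
        linarith
      have h6 := norm_nonneg (hc (q.1 * n N ^ q.2))
      nlinarith
    refine (Finset.sum_le_sum h3).trans ?_
    rw [Finset.sum_const, nsmul_eq_mul]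
    have h7 : ((T N ×ˢ (Finset.Ioo (-(2 * D N : ℤ)) (2 * D N)).erase 0).card : ℝ) ≤ c := by
      rw [Finset.card_product]
      have h8 : ((Finset.Ioo (-(2 * D N : ℤ)) (2 * D N)).erase 0).card ≤ 4 * D N := by
        refine (Finset.card_erase_le).trans ?_
        rw [Int.card_Ioo]
        omega
      rw [hcdef]
      push_cast
      gcongr
      exact_mod_cast h8
    calc _ ≤ c * ((1 / 2) ^ N / (c + 1)) := by gcongr
      _ = (1 / 2) ^ N * (c / (c + 1)) := by ring
      _ ≤ (1 / 2) ^ N * 1 := by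
          gcongr
          rw [div_le_one (by positivity)]
          linarith
      _ = (1 / 2) ^ N := mul_one _

theorem Sel.summable (h : Sel D g hc n T) (hD : ∀ i, 2 ≤ D i) {w : ℕ → ℂ} (hw : ∀ i, ‖w i‖ = 1) :
    Summable fun x => ‖hc x * nu n D w Set.univ x‖ ^ 2 := by
  classical
  have hD0 : ∀ i, 0 < D i := fun i => by have := hD i; omega
  have hBN := BN_nu hD0 hw h.uniq Set.univ
  refine summable_of_sum_le (c := ‖hc 1‖ ^ 2 + 2) (fun x => sq_nonneg _) fun u => ?_
  set u' := u.filter (fun x => nu n D w Set.univ x ≠ 0) with hu'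
  have h1 : ∀ x ∈ u', ∃ N, ∀ M, N ≤ M → x ∈ T M := by
    intro x hx
    rw [hu', Finset.mem_filter] at hx
    obtain ⟨l, hl, rfl⟩ := nu_ne_zero hx.2
    refine ⟨l.support.sup id + 1, fun M hM => h.mem_T M l ?_ ?_⟩
    · intro i hi
      by_contra hc
      have : i ≤ l.support.sup id := Finset.le_sup (f := id) (Finsupp.mem_support_iff.mpr hc)
      omega
    · intro i
      have := hl.2 i
      have := abs_nonneg (l i)
      omega
  choose! N hN using h1
  have h2 : u' ⊆ T (u'.sup N) := fun x hx => hN x hx _ (Finset.le_sup hx)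
  calc ∑ x ∈ u, ‖hc x * nu n D w Set.univ x‖ ^ 2
      = ∑ x ∈ u', ‖hc x * nu n D w Set.univ x‖ ^ 2 := by
        rw [hu', Finset.sum_filter]
        refine Finset.sum_congr rfl fun x _ => ?_
        split_ifs with h3
        · rfl
        · push Not at h3
          rw [h3]
          simp
    _ ≤ ∑ x ∈ u', ‖hc x‖ ^ 2 := by
        refine Finset.sum_le_sum fun x _ => ?_
        rw [norm_mul]
        have h4 := hBN.norm_le x
        have h5 := norm_nonneg (hc x)
        have h6 := norm_nonneg (nu n D w Set.univ x)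
        have h7 : ‖hc x‖ * ‖nu n D w Set.univ x‖ ≤ ‖hc x‖ * 1 := by gcongr
        rw [mul_one] at h7
        gcongr
    _ ≤ ∑ x ∈ T (u'.sup N), ‖hc x‖ ^ 2 :=
        Finset.sum_le_sum_of_subset_of_nonneg h2 fun x _ _ => sq_nonneg _
    _ ≤ ‖hc 1‖ ^ 2 + ∑ K ∈ Finset.range (u'.sup N), (1 / 2 : ℝ) ^ K := h.sum_T hD _
    _ ≤ ‖hc 1‖ ^ 2 + 2 := by
        gcongr
        have := (summable_geometric_of_lt_one (r := (1 / 2 : ℝ)) (by norm_num)
          (by norm_num)).sum_le_tsum (Finset.range (u'.sup N)) (fun i _ => by positivity)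
        rw [tsum_geometric_of_lt_one (by norm_num) (by norm_num)] at this
        linarith

/-- the degrees -/
def DD (k : ℕ) : ℕ := k.unpair.1 + 2

/-- the phases -/
noncomputable def ww (k : ℕ) : ℂ := (TopologicalSpace.denseSeq Circle k.unpair.2 : Circle)

theorem two_le_DD (k : ℕ) : 2 ≤ DD k := by unfold DD; omega

theorem norm_ww (k : ℕ) : ‖ww k‖ = 1 := Circle.norm_coe _

theorem norm_pow_sub_pow_le {a b : ℂ} (ha : ‖a‖ = 1) (hb : ‖b‖ = 1) (m : ℕ) :
    ‖a ^ m - b ^ m‖ ≤ m * ‖a - b‖ := by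
  induction m with
  | zero => simp
  | succ m ih =>
    have h1 : a ^ (m + 1) - b ^ (m + 1) = (a ^ m - b ^ m) * a + b ^ m * (a - b) := by ring
    rw [h1]
    refine (norm_add_le _ _).trans ?_
    rw [norm_mul, norm_mul, norm_pow, ha, hb, one_pow, one_mul, mul_one]
    push_cast
    linarith

theorem dens {c : ℂ} (hc : ‖c‖ ≤ 1) {ε : ℝ} (hε : 0 < ε) (N : ℕ) :
    ∃ k, N ≤ k ∧ ∃ j : ℤ, j ≠ 0 ∧ |j| < DD k ∧ ‖pj (DD k) (ww k) j - c‖ < ε := by
  obtain ⟨M, hM⟩ := exists_nat_gt (4 / ε)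
  set d : ℕ := N + M + 2 with hd
  have hd0 : (0 : ℝ) < d := by rw [hd]; positivity
  set t : ℝ := (1 - ‖c‖) * d with ht
  have ht0 : 0 ≤ t := mul_nonneg (by linarith) hd0.le
  have htd : t ≤ d := by
    rw [ht]
    nlinarith [norm_nonneg c]
  obtain ⟨j, hj1, hj2, hj3⟩ : ∃ j : ℕ, 1 ≤ j ∧ j < d ∧ |t - j| ≤ 1 := by
    have hf1 := Nat.floor_le ht0
    have hf2 := Nat.lt_floor_add_one t
    by_cases h0 : ⌊t⌋₊ = 0
    · refine ⟨1, le_refl _, by omega, ?_⟩
      rw [h0] at hf2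
      rw [abs_le]
      push_cast at hf2 ⊢
      constructor <;> linarith
    · by_cases h1 : ⌊t⌋₊ < d
      · refine ⟨⌊t⌋₊, by omega, h1, ?_⟩
        rw [abs_le]
        constructor <;> linarith
      · push Not at h1
        have h2 : (d : ℝ) ≤ ⌊t⌋₊ := by exact_mod_cast h1
        refine ⟨d - 1, by omega, by omega, ?_⟩
        rw [Nat.cast_sub (by omega), abs_le]
        push_cast
        constructor <;> linarith
  -- target root
  set u : Circle := Circle.exp (Complex.arg c / j) with hu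
  have hj0 : (j : ℝ) ≠ 0 := by positivity
  have huj : (u : ℂ) ^ j = Complex.exp (Complex.arg c * Complex.I) := by
    rw [hu, Circle.coe_exp, ← Complex.exp_nat_mul]
    congr 1
    push_cast
    have : (j : ℂ) ≠ 0 := by exact_mod_cast hj0
    field_simp
  obtain ⟨q, hq⟩ := (TopologicalSpace.denseRange_denseSeq Circle).exists_dist_lt u
    (show 0 < ε / (2 * d) by positivity)
  refine ⟨Nat.pair (d - 2) q, ?_, j, ?_, ?_, ?_⟩
  · have := Nat.left_le_pair (d - 2) q
    omega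
  · omega
  · unfold DD
    rw [Nat.unpair_pair]
    simp only [Nat.abs_cast]
    omega
  · have hDD : DD (Nat.pair (d - 2) q) = d := by
      unfold DD
      rw [Nat.unpair_pair]
      simp only
      omega
    have hww : ww (Nat.pair (d - 2) q) = (TopologicalSpace.denseSeq Circle q : Circle) := by
      unfold ww
      rw [Nat.unpair_pair]
    rw [hDD]
    set W := ww (Nat.pair (d - 2) q) with hW
    have hWu : ‖W - u‖ < ε / (2 * d) := by
      rw [hww, ← dist_eq_norm, dist_comm]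
      exact hq
    rw [pj, if_pos (by simp only [Nat.abs_cast]; exact_mod_cast hj2)]
    simp only [Nat.abs_cast, Int.cast_natCast, zpow_natCast]
    have hcc : c = (u : ℂ) ^ j * ‖c‖ := by
      rw [huj, mul_comm, Complex.norm_mul_exp_arg_mul_I]
    have h1 : W ^ j * (1 - (j : ℂ) / d) - c = (W ^ j - u ^ j) * (1 - (j : ℂ) / d) +
        (u : ℂ) ^ j * (1 - (j : ℂ) / d - ‖c‖) := by
      conv_lhs => rw [hcc]
      ring
    rw [h1]
    refine (norm_add_le _ _).trans_lt ?_
    rw [norm_mul, norm_mul, norm_pow, Circle.norm_coe, one_pow, one_mul]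
    have h2 : ‖W ^ j - (u : ℂ) ^ j‖ ≤ j * ‖W - u‖ :=
      norm_pow_sub_pow_le (norm_ww _) (Circle.norm_coe _) j
    have hjd : (j : ℝ) < d := by exact_mod_cast hj2
    have h3 : ‖(1 - (j : ℂ) / d)‖ ≤ 1 := by
      have : (1 - (j : ℂ) / d) = ((1 - (j : ℝ) / d : ℝ) : ℂ) := by push_cast; ring
      rw [this, Complex.norm_real, Real.norm_eq_abs, abs_of_nonneg]
      · have : 0 ≤ (j : ℝ) / d := by positivity
        linarith
      · rw [sub_nonneg, div_le_one hd0]
        exact hjd.le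
    have h4 : ‖(1 - (j : ℂ) / d - ‖c‖)‖ ≤ 1 / d := by
      have : (1 - (j : ℂ) / d - ‖c‖) = ((((t - j) / d : ℝ)) : ℂ) := by
        rw [ht]
        push_cast
        have : (d : ℂ) ≠ 0 := by exact_mod_cast hd0.ne'
        field_simp
        ring
      rw [this, Complex.norm_real, Real.norm_eq_abs, abs_div, abs_of_pos hd0]
      gcongr
    have h5 : (j : ℝ) * ‖W - u‖ ≤ d * (ε / (2 * d)) := by gcongr
    have h6 : (d : ℝ) * (ε / (2 * d)) = ε / 2 := by field_simp
    have h7 : (1 : ℝ) / d < ε / 2 := by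
      rw [div_lt_div_iff₀ hd0 (by norm_num)]
      rw [div_lt_iff₀ hε] at hM
      have : (M : ℝ) < d := by rw [hd]; push_cast; linarith [(Nat.cast_nonneg N : (0 : ℝ) ≤ N)]
      nlinarith
    have h8 : ‖W ^ j - (u : ℂ) ^ j‖ * ‖(1 - (j : ℂ) / d)‖ ≤ ε / 2 := by
      calc _ ≤ ‖W ^ j - (u : ℂ) ^ j‖ * 1 := by gcongr
        _ ≤ ε / 2 := by linarith
    linarith

/-- Conclusion of the Riesz product construction. -/
theorem riesz_main {r : A → ℂ} (hm : Modl r g) (hr1 : r 1 = 0) (hEX : EX g hc) {R : ℝ}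
    (hR : 1 ≤ R) (hr : BN r R) (hrc : BN (fun x => r x + hc x) R) :
    ∃ ν : A → ℂ, BN ν 1 ∧
      (∀ c : ℂ, ‖c‖ ≤ 1 → ∀ ε : ℝ, 0 < ε → ∃ x, ‖ν x - c‖ < ε ∧ ‖r x + hc x‖ < ε) ∧
      ∀ w : ℂ, R < ‖w‖ → (∀ x, w - r x - hc x - R * ν x ≠ 0) →
        MemB (fun x => (w - r x - hc x - R * ν x)⁻¹) := by
  classical
  obtain ⟨n, T, h⟩ := exists_seq two_le_DD hEX
  have hD0 : ∀ i, 0 < DD i := fun i => by have := two_le_DD i; omega
  have hu := h.uniq
  refine ⟨nu n DD ww Set.univ, BN_nu hD0 norm_ww hu _, ?_, ?_⟩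
  · intro c hc1 ε hε
    obtain ⟨N, hN⟩ := exists_pow_lt_of_lt_one (show 0 < ε / 2 by positivity)
      (show (1 / 2 : ℝ) < 1 by norm_num)
    obtain ⟨k, hk, j, hj0, hjD, hj⟩ := dens hc1 hε N
    refine ⟨n k ^ j, ?_, ?_⟩
    · have h1 : Adm DD Set.univ (Finsupp.single k j) := by
        refine ⟨fun i hi => absurd (Set.mem_univ i) hi, fun i => ?_⟩
        rw [Finsupp.single_apply]
        split_ifs with h2
        · rw [← h2]; exact hjD
        · simpa using hD0 i
      have h2 := nu_EE (w := ww) hu h1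
      rw [EE_single] at h2
      rw [h2]
      have h3 := pp_add_single (w := ww) hD0 0 k j rfl
      rw [zero_add, pp_zero, mul_one] at h3
      rw [h3]
      exact hj
    · have h1 : ‖r (n k ^ j)‖ ≤ (1 / 2) ^ k := by
        have h2 := hm.diff (n k ^ j) 1
        rw [mul_one, hr1, sub_zero] at h2
        have h3 := hm.g_zpow (n k) j
        have h4 : |(j : ℝ)| ≤ DD k := by
          rw [← Int.cast_abs]
          exact_mod_cast hjD.le
        have hDr : (0 : ℝ) < DD k := by exact_mod_cast hD0 k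
        calc _ ≤ |(j : ℝ)| * g (n k) := h2.trans h3
          _ ≤ DD k * Pk DD (k + 1) := by
              have := h.gn k
              have := hm.g_nonneg (n k)
              gcongr
          _ = Pk DD k := by rw [Pk_succ]; field_simp
          _ ≤ _ := Pk_le two_le_DD k
      have h2 : ‖hc (n k ^ j)‖ ≤ (1 / 2) ^ k := by
        have h3 := h.cn k 1 (h.one_mem two_le_DD k) j hj0 (by have := abs_nonneg j; omega)
        rw [one_mul] at h3
        refine h3.trans ?_
        apply div_le_self (by positivity)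
        have : (0 : ℝ) ≤ (T k).card * (4 * DD k) := by positivity
        linarith
      have h3 : (1 / 2 : ℝ) ^ k ≤ (1 / 2) ^ N :=
        pow_le_pow_of_le_one (by norm_num) (by norm_num) hk
      have := norm_add_le (r (n k ^ j)) (hc (n k ^ j))
      linarith
  · intro w hw hne
    refine key_inv (by linarith) hr hrc (h.summable two_le_DD norm_ww) ?_ hw hne
    intro ω hω
    obtain ⟨N, hN⟩ := exists_pow_lt_of_lt_one (show 0 < ω / 2 by positivity)
      (show (1 / 2 : ℝ) < 1 by norm_num)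
    refine ⟨ℕ →₀ ℤ, idx DD N, EE n, pp DD ww, nu n DD ww {i | N ≤ i}, BN_nu hD0 norm_ww hu _,
      ?_, nu_split hD0 hu N, ?_, ?_⟩
    · intro l hl
      rw [mem_idx hD0] at hl
      obtain ⟨h1, h2, h3⟩ := pp_bounds two_le_DD norm_ww hm hr1 h.gn hR N l hl
      exact ⟨h1, h3⟩
    · intro x l hl l' hl' h1 h2
      rw [mem_idx hD0] at hl hl'
      obtain ⟨a, ha, ha2⟩ := nu_ne_zero h1
      obtain ⟨b, hb, hb2⟩ := nu_ne_zero h2
      refine adm_eq hu hl ha hl' hb hD0 ?_
      rw [EE_add, EE_add, ha2, hb2]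
      simp
    · intro l _
      exact (tail_BN two_le_DD norm_ww hu hm h.gn N _).mono (by linarith)

end

end Pool.Agent.Lib.MP_9fb650_an
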