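import Pool.Agent.Lib.MP_9fb650_an.Weak

set_option autoImplicit false

namespace Pool.Agent.Lib.MP_9fb650_an

open Filter Topology
open scoped ComplexOrder ComplexConjugate

section

variable {A : Type} [CommGroup A]

theorem Modl.sub_const {r : A → ℂ} {g : A → ℝ} (h : Modl r g) (c : ℂ) :
    Modl (fun x => r x - c) g := by
  refine ⟨h.g_nonneg, h.g_one, h.g_mul, h.g_inv, fun x m => ?_, fun V ε h1 h2 m => ?_⟩
  · have := h.diff x m
    simpa using this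
  · have := h.bn V ε h1 h2 m
    simpa using this

variable {H : Type} [NormedAddCommGroup H] [InnerProductSpace ℂ H]
  [CompleteSpace H] (π : A →* unitary (H →L[ℂ] H))

/-- twisted vectors -/
noncomputable def tw (V : L2 A ℂ) (φ : A → H) (c : ℝ) (hφ : ∀ y, ‖φ y‖ ≤ c) : L2 A H :=
  ⟨fun y => V y • φ y, (memL2_iff (G := A) fun y => V y • φ y).mpr (by
    refine Summable.of_nonneg_of_le (fun y => sq_nonneg _) (fun y => ?_)
      ((L2_summable V).mul_right (c ^ 2))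
    rw [norm_smul, mul_pow]
    have := hφ y
    have := norm_nonneg (φ y)
    gcongr)⟩

theorem tw_apply (V : L2 A ℂ) (φ : A → H) (c : ℝ) (hφ : ∀ y, ‖φ y‖ ≤ c) (y : A) :
    tw V φ c hφ y = V y • φ y := rfl

theorem norm_le_of_pt {V : L2 A ℂ} (hV : ‖V‖ = 1) (X : L2 A H) {c : ℝ} (hc : 0 ≤ c)
    (h : ∀ y, ‖X y‖ ≤ ‖V y‖ * c) : ‖X‖ ≤ c := by
  have h1 := L2_norm_sq X
  have h2 := L2_norm_sq V
  rw [hV, one_pow] at h2
  have h3 : ∑' y, ‖X y‖ ^ 2 ≤ ∑' y, ‖V y‖ ^ 2 * c ^ 2 := by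
    refine (L2_summable X).tsum_le_tsum (fun y => ?_) ((L2_summable V).mul_right _)
    rw [← mul_pow]
    have := h y
    gcongr
  rw [tsum_mul_right, ← h2, one_mul, ← h1] at h3
  exact abs_le_of_sq_le_sq' h3 hc |>.2

theorem modl_coef {ξ η : H} (η₀ : H) (hη : ∀ x, inner ℂ η₀ (Ua π x ξ) = inner ℂ η (Ua π x ξ))
    (hle : ‖η‖ ≤ ‖η₀‖) :
    Modl (fun x => inner ℂ η₀ (Ua π x ξ))
      (fun x => 2 * (‖ξ‖ + ‖η₀‖ + 1) * (‖Ua π x ξ - ξ‖ + ‖Ua π x η - η‖)) := by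
  have hsub : ∀ (v : H) (x y : A), ‖Ua π (x * y) v - v‖ ≤ ‖Ua π x v - v‖ + ‖Ua π y v - v‖ := by
    intro v x y
    have h1 : Ua π (x * y) v - v = Ua π x (Ua π y v - v) + (Ua π x v - v) := by
      rw [Ua_mul, map_sub]; abel
    rw [h1]
    refine (norm_add_le _ _).trans ?_
    rw [Ua_norm, add_comm]
  set C : ℝ := ‖ξ‖ + ‖η₀‖ + 1 with hC
  have hC0 : 0 < C := by positivity
  refine ⟨fun x => by positivity, by simp [Ua_one], fun x y => ?_, fun x => ?_, fun x m => ?_,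
    fun V ε hV h m => ?_⟩
  · have h1 := hsub ξ x y
    have h2 := hsub η x y
    nlinarith
  · simp only [Ua_inv_sub]
  · have h1 : inner ℂ η₀ (Ua π (x * m) ξ) - inner ℂ η₀ (Ua π m ξ) =
        inner ℂ η₀ (Ua π m (Ua π x ξ - ξ)) := by
      rw [map_sub, inner_sub_right, mul_comm x m, Ua_mul]
    rw [h1]
    refine (norm_inner_le_norm _ _).trans ?_
    rw [Ua_norm]
    have h2 := norm_nonneg (Ua π x ξ - ξ)
    have h3 := norm_nonneg (Ua π x η - η)
    have h4 : ‖η₀‖ ≤ 2 * C := by rw [hC]; linarith [norm_nonneg ξ, norm_nonneg η₀]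
    calc ‖η₀‖ * ‖Ua π x ξ - ξ‖ ≤ 2 * C * ‖Ua π x ξ - ξ‖ := by gcongr
      _ ≤ 2 * C * (‖Ua π x ξ - ξ‖ + ‖Ua π x η - η‖) := by
          gcongr
          linarith
  · set e : H := Ua π m⁻¹ η with he
    have hen : ‖e‖ = ‖η‖ := Ua_norm _ _ _
    have hr : ∀ x, inner ℂ η₀ (Ua π (x * m) ξ) - inner ℂ η₀ (Ua π m ξ) =
        inner ℂ e (Ua π x ξ) - inner ℂ e ξ := by
      intro x
      rw [hη, hη, mul_comm x m, Ua_mul, he, Ua_adj, Ua_adj, inv_inv]
    simp only [hr]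
    let X1 : L2 A H := tw V (fun y => Ua π y⁻¹ ξ) ‖ξ‖ (fun y => (Ua_norm π _ _).le)
    let X0 : L2 A H := tw V (fun _ => ξ) ‖ξ‖ (fun y => le_refl _)
    let Y1 : L2 A H := tw V (fun y => Ua π y⁻¹ e) ‖e‖ (fun y => (Ua_norm π _ _).le)
    let Y0 : L2 A H := tw V (fun _ => e) ‖e‖ (fun y => le_refl _)
    have e1 : ∀ x, inner ℂ Y1 (Lsh x X1) = inner ℂ e (Ua π x ξ) * inner ℂ V (Lsh x V) := by
      intro x
      rw [L2_inner, L2_inner, ← tsum_mul_left]
      refine tsum_congr fun y => ?_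
      simp only [Lsh_apply, Y1, X1, tw_apply, inner_smul_left, inner_smul_right]
      have h1 : inner ℂ (Ua π y⁻¹ e) (Ua π (x⁻¹ * y)⁻¹ ξ) = inner ℂ e (Ua π x ξ) := by
        rw [mul_inv, inv_inv, mul_comm, Ua_mul, Ua_inner]
      rw [h1]
      have h2 : inner ℂ (V y) (V (x⁻¹ * y)) = conj (V y) * V (x⁻¹ * y) := by
        rw [RCLike.inner_apply, mul_comm]
      rw [h2]
      ring
    have e2 : ∀ x, inner ℂ Y0 (Lsh x X0) = inner ℂ e ξ * inner ℂ V (Lsh x V) := by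
      intro x
      rw [L2_inner, L2_inner, ← tsum_mul_left]
      refine tsum_congr fun y => ?_
      simp only [Lsh_apply, Y0, X0, tw_apply, inner_smul_left, inner_smul_right]
      have h2 : inner ℂ (V y) (V (x⁻¹ * y)) = conj (V y) * V (x⁻¹ * y) := by
        rw [RCLike.inner_apply, mul_comm]
      rw [h2]
      ring
    have e3 : (fun x => (inner ℂ e (Ua π x ξ) - inner ℂ e ξ) * inner ℂ V (Lsh x V)) =
        fun x => inner ℂ (Y1 - Y0) (Lsh x X1) + inner ℂ Y0 (Lsh x (X1 - X0)) := by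
      ext x
      rw [Lsh_sub, inner_sub_left, inner_sub_right, e1, e2]
      ring
    rw [e3]
    refine ((BN_L2 X1 (Y1 - Y0)).add (BN_L2 (X1 - X0) Y0)).mono ?_
    have hε : 0 ≤ ε := by
      have : ∃ y, V y ≠ 0 := by
        by_contra hc
        push Not at hc
        have : V = 0 := by
          ext y
          exact hc y
        rw [this, norm_zero] at hV
        exact zero_ne_one hV
      obtain ⟨y, hy⟩ := this
      exact le_trans (by positivity) (h y hy)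
    have hy1 : ∀ y, V y ≠ 0 → ‖Ua π y ξ - ξ‖ ≤ ε / (2 * C) ∧ ‖Ua π y η - η‖ ≤ ε / (2 * C) := by
      intro y hy
      have h1 := h y hy
      have h2 := norm_nonneg (Ua π y ξ - ξ)
      have h3 := norm_nonneg (Ua π y η - η)
      constructor
      · rw [le_div_iff₀ (by positivity)]
        nlinarith
      · rw [le_div_iff₀ (by positivity)]
        nlinarith
    have hεC : 0 ≤ ε / (2 * C) := by positivity
    have n1 : ‖X1‖ ≤ ‖ξ‖ := by
      refine norm_le_of_pt hV _ (norm_nonneg _) fun y => ?_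
      simp only [X1, tw_apply, norm_smul, Ua_norm]
      exact le_refl _
    have n2 : ‖Y0‖ ≤ ‖η₀‖ := by
      refine norm_le_of_pt hV _ (norm_nonneg _) fun y => ?_
      simp only [Y0, tw_apply, norm_smul, hen]
      gcongr
    have n3 : ‖X1 - X0‖ ≤ ε / (2 * C) := by
      refine norm_le_of_pt hV _ hεC fun y => ?_
      have : (X1 - X0) y = V y • (Ua π y⁻¹ ξ - ξ) := by
        rw [lp.coeFn_sub, Pi.sub_apply, smul_sub]
        rfl
      rw [this, norm_smul, Ua_inv_sub]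
      by_cases hy : V y = 0
      · rw [hy]; simp
      · have := (hy1 y hy).1
        gcongr
    have n4 : ‖Y1 - Y0‖ ≤ ε / (2 * C) := by
      refine norm_le_of_pt hV _ hεC fun y => ?_
      have : (Y1 - Y0) y = V y • (Ua π y⁻¹ e - e) := by
        rw [lp.coeFn_sub, Pi.sub_apply, smul_sub]
        rfl
      rw [this, norm_smul, Ua_inv_sub]
      by_cases hy : V y = 0
      · rw [hy]; simp
      · have h1 := (hy1 y hy).2
        have h2 : ‖Ua π y e - e‖ = ‖Ua π y η - η‖ := by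
          rw [he, Ua_comm, ← map_sub, Ua_norm]
        rw [h2]
        gcongr
    calc ‖X1‖ * ‖Y1 - Y0‖ + ‖X1 - X0‖ * ‖Y0‖ ≤ ‖ξ‖ * (ε / (2 * C)) + ε / (2 * C) * ‖η₀‖ := by
          gcongr
      _ = (‖ξ‖ + ‖η₀‖) * (ε / (2 * C)) := by ring
      _ ≤ (2 * C) * (ε / (2 * C)) := by
          gcongr
          rw [hC]
          linarith [norm_nonneg ξ, norm_nonneg η₀]
      _ = ε := by field_simp

/-- Decomposition into a recurrent and a mixing part. -/
theorem decomp {h : A → ℂ} (hh : MemB h) {F : Ultrafilter A} (hF : Idem F)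
    (hF2 : (F : Filter A) ≤ cofinite) (I : Submonoid ℕ) :
    ∃ (r hc : A → ℂ) (g : A → ℝ), (∀ x, h x = r x + hc x) ∧
      (∀ (A' : Type) (_ : CommGroup A') (Φ : A' →* A),
        Modl (fun x => r (Φ x)) (fun x => g (Φ x))) ∧ MemB r ∧
      ∀ J : Finset ℤ,
        (∀ j ∈ J, ∀ i ∈ I, ∃ i' ∈ I, ∃ k : ℤ, ∀ n : A, n ^ (i' : ℤ) = n ^ ((i : ℤ) * j * k)) →
        (∀ j ∈ J, ∀ i ∈ I, ∀ t : A, {n : A | n ^ ((i : ℤ) * j) = t}.Finite) →
        ∀ (T : Finset A) (ε : ℝ), 0 < ε → ∃ n : A, g n ≤ ε ∧ (∀ j ∈ J, n ^ j ∉ T) ∧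
          (∀ m ∈ T, ∀ j ∈ J, ‖hc (m * n ^ j)‖ ≤ ε) := by
  classical
  obtain ⟨H, i1, i2, i3, π, ξ, η, hcoef⟩ := (memB_iff h).mp hh
  set K := (SI π F I).topologicalClosure with hK
  obtain ⟨ξ', hξ', ξ'', hξ'', hξ⟩ := K.exists_add_mem_mem_orthogonal ξ
  obtain ⟨η', hη', η'', hη'', hη⟩ := K.exists_add_mem_mem_orthogonal η
  have hKU : ∀ x, ∀ v ∈ K, Ua π x v ∈ K := fun x v hv => Ua_closure π F I x v hv
  have hle : ‖η'‖ ≤ ‖η‖ := by
    have h1 : ‖η‖ ^ 2 = ‖η'‖ ^ 2 + ‖η''‖ ^ 2 := by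
      rw [hη]
      have h2 := norm_add_sq (𝕜 := ℂ) η' η''
      rw [Submodule.inner_right_of_mem_orthogonal hη' hη''] at h2
      simpa using h2
    nlinarith [norm_nonneg η, norm_nonneg η', sq_nonneg ‖η''‖]
  have hrr : ∀ x, inner ℂ η (Ua π x ξ') = inner ℂ η' (Ua π x ξ') := by
    intro x
    rw [hη, inner_add_left, Submodule.inner_left_of_mem_orthogonal (hKU x _ hξ') hη'', add_zero]
  refine ⟨fun x => inner ℂ η (Ua π x ξ'), fun x => inner ℂ η (Ua π x ξ''),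
    fun x => 2 * (‖ξ'‖ + ‖η‖ + 1) * (‖Ua π x ξ' - ξ'‖ + ‖Ua π x η' - η'‖), ?_,
    ?_, ?_, ?_⟩
  · intro x
    rw [hcoef]
    change inner ℂ η (Ua π x ξ) = _
    rw [← inner_add_right, ← map_add, ← hξ]
  · intro A' _ Φ
    exact modl_coef (π.comp Φ) (ξ := ξ') (η := η') η (fun x => hrr (Φ x)) hle
  · exact (memB_iff _).mpr ⟨H, i1, i2, i3, π, ξ', η, fun g => rfl⟩
  intro J hJ1 hJ2 T ε hε
  set C : ℝ := ‖ξ'‖ + ‖η‖ + 1 with hC
  have hC0 : 0 < C := by positivity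
  set δ : ℝ := ε / (12 * C) with hδ
  have hδ0 : 0 < δ := by positivity
  -- approximation
  obtain ⟨v, ⟨i, hi, hv⟩, hvξ⟩ : ∃ v ∈ SI π F I, ‖ξ' - v‖ < δ := by
    have h1 : ξ' ∈ closure ((SI π F I : Submodule ℂ H) : Set H) := hξ'
    rw [Metric.mem_closure_iff] at h1
    obtain ⟨v, hv, hd⟩ := h1 δ hδ0
    exact ⟨v, hv, by rwa [← dist_eq_norm]⟩
  obtain ⟨u, ⟨i₂, hi₂, hu⟩, huη⟩ : ∃ v ∈ SI π F I, ‖η' - v‖ < δ := by
    have h1 : η' ∈ closure ((SI π F I : Submodule ℂ H) : Set H) := hη'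
    rw [Metric.mem_closure_iff] at h1
    obtain ⟨v, hv, hd⟩ := h1 δ hδ0
    exact ⟨v, hv, by rwa [← dist_eq_norm]⟩
  set q : ℕ := i * i₂ with hq
  have hqI : q ∈ I := I.mul_mem hi hi₂
  have hv' : Fx π F (q : ℤ) v := by
    have := Fx_mul π F i i₂ v hv
    rw [hq]; push_cast; exact this
  have hu' : Fx π F (q : ℤ) u := by
    have := Fx_mul π F i₂ i u hu
    rw [hq]; push_cast; rwa [mul_comm]
  -- the eventual properties
  have ev1 : ∀ᶠ n : A in (F : Filter A), ‖Ua π (n ^ (q : ℤ)) v - v‖ < δ := by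
    rw [Fx_iff] at hv'
    exact hv'.eventually (gt_mem_nhds hδ0)
  have ev2 : ∀ᶠ n : A in (F : Filter A), ‖Ua π (n ^ (q : ℤ)) u - u‖ < δ := by
    rw [Fx_iff] at hu'
    exact hu'.eventually (gt_mem_nhds hδ0)
  have ev3 : ∀ᶠ n : A in (F : Filter A), ∀ j ∈ J, n ^ ((q : ℤ) * j) ∉ T := by
    rw [Filter.eventually_all_finset]
    intro j hj
    have h1 : {n : A | n ^ ((q : ℤ) * j) ∈ T}.Finite := by
      have h2 : {n : A | n ^ ((q : ℤ) * j) ∈ T} = ⋃ t ∈ T, {n : A | n ^ ((q : ℤ) * j) = t} := by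
        ext n
        simp
      rw [h2]
      exact T.finite_toSet.biUnion fun t _ => hJ2 j hj q hqI t
    exact hF2 h1.compl_mem_cofinite
  have ev4 : ∀ᶠ n : A in (F : Filter A), ∀ j ∈ J, ∀ m ∈ T,
      ‖inner ℂ η (Ua π (m * n ^ ((q : ℤ) * j)) ξ'')‖ ≤ ε := by
    rw [Filter.eventually_all_finset]
    intro j hj
    rw [Filter.eventually_all_finset]
    intro m _
    have hk : ∀ v, Fx π F ((q : ℤ) * j) v → v ∈ K := by
      intro v hv
      obtain ⟨i', hi', k, hk⟩ := hJ1 j hj q hqI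
      refine (SI π F I).le_topologicalClosure ⟨i', hi', ?_⟩
      have h1 := Fx_mul π F _ k v hv
      unfold Fx at h1 ⊢
      simpa only [hk] using h1
    have h1 := weak_zero π F hF K ((q : ℤ) * j) hk hξ'' (Ua π m⁻¹ η)
    have h2 := h1.norm
    rw [norm_zero] at h2
    filter_upwards [h2.eventually (gt_mem_nhds hε)] with n hn
    rw [Ua_adj, inv_inv, ← Ua_mul] at hn
    exact hn.le
  obtain ⟨n, h1, h2, h3, h4⟩ := (ev1.and (ev2.and (ev3.and ev4))).exists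
  refine ⟨n ^ (q : ℤ), ?_, ?_, ?_⟩
  · have happ : ∀ (a b : H), ‖a - b‖ < δ → ‖Ua π (n ^ (q : ℤ)) b - b‖ < δ →
        ‖Ua π (n ^ (q : ℤ)) a - a‖ ≤ 3 * δ := by
      intro a b hab hb
      have e1 : Ua π (n ^ (q : ℤ)) a - a = Ua π (n ^ (q : ℤ)) (a - b) +
          (Ua π (n ^ (q : ℤ)) b - b) - (a - b) := by
        rw [map_sub]; abel
      rw [e1]
      refine (norm_sub_le _ _).trans ?_
      have := norm_add_le (Ua π (n ^ (q : ℤ)) (a - b)) (Ua π (n ^ (q : ℤ)) b - b)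
      rw [Ua_norm] at this
      linarith
    have e1 := happ _ _ hvξ h1
    have e2 := happ _ _ huη h2
    calc 2 * C * (‖Ua π (n ^ (q : ℤ)) ξ' - ξ'‖ + ‖Ua π (n ^ (q : ℤ)) η' - η'‖)
        ≤ 2 * C * (3 * δ + 3 * δ) := by gcongr
      _ = ε := by rw [hδ]; field_simp; ring
  · intro j hj
    rw [← zpow_mul]
    exact h3 j hj
  · intro m hm j hj
    rw [← zpow_mul]
    exact h4 j hj m hm

end

end Pool.Agent.Lib.MP_9fb650_an
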