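import Pool.Agent.Lib.MP_9fb650_an.Torsion

set_option autoImplicit false

namespace Pool.Agent.Lib.MP_9fb650_an

open Filter Topology
open scoped ComplexOrder ComplexConjugate

section

variable {A : Type} [CommGroup A]

open Classical in
/-- next finite subgroup -/
noncomputable def nextT2 (p : ℕ) (T : Finset A) (a : A) : Finset A :=
  (T ×ˢ Finset.range p).image (fun q : A × ℕ => q.1 * a ^ q.2)

/-- conclusion of the selection -/
structure Sel2 (p : ℕ) (g : A → ℝ) (hc : A → ℂ) (n : ℕ → A) (T : ℕ → Finset A) : Prop where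
  T0 : T 0 = {1}
  Ts : ∀ K, T (K + 1) = nextT2 p (T K) (n K)
  gn : ∀ K, g (n K) ≤ (1 / 2) ^ K / p
  nT : ∀ K, ∀ j : ℕ, 0 < j → j < p → n K ^ j ∉ T K
  cn : ∀ K, ∀ m ∈ T K, ∀ j : ℕ, 0 < j → j < p →
    ‖hc (m * n K ^ j)‖ ≤ (1 / 2) ^ K / ((T K).card * p + 1)

theorem exists_seq2 {p : ℕ} (hp : 0 < p) {g : A → ℝ} {hc : A → ℂ}
    (h : ∀ (T : Finset A) (ε : ℝ), 0 < ε → ∃ n : A, g n ≤ ε ∧
      (∀ j : ℕ, 0 < j → j < p → n ^ j ∉ T) ∧
      (∀ m ∈ T, ∀ j : ℕ, 0 < j → j < p → ‖hc (m * n ^ j)‖ ≤ ε)) :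
    ∃ (n : ℕ → A) (T : ℕ → Finset A), Sel2 p g hc n T := by
  classical
  have hp' : (0 : ℝ) < p := by exact_mod_cast hp
  have h1 : ∀ (K : ℕ) (T : Finset A), ∃ a : A, g a ≤ (1 / 2) ^ K / p ∧
      (∀ j : ℕ, 0 < j → j < p → a ^ j ∉ T) ∧
      (∀ m ∈ T, ∀ j : ℕ, 0 < j → j < p →
        ‖hc (m * a ^ j)‖ ≤ (1 / 2) ^ K / (T.card * p + 1)) := by
    intro K T
    have e1 : 0 < min ((1 / 2 : ℝ) ^ K / p) ((1 / 2) ^ K / (T.card * p + 1)) :=
      lt_min (by positivity) (by positivity)
    obtain ⟨a, a1, a2, a3⟩ := h T _ e1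
    exact ⟨a, a1.trans (min_le_left _ _), a2, fun m hm j hj hj2 =>
      (a3 m hm j hj hj2).trans (min_le_right _ _)⟩
  choose nx hnx using h1
  let T : ℕ → Finset A := fun K => Nat.rec {1} (fun K T => nextT2 p T (nx K T)) K
  exact ⟨fun K => nx K (T K), T, rfl, fun K => rfl, fun K => (hnx K (T K)).1,
    fun K => (hnx K (T K)).2.1, fun K => (hnx K (T K)).2.2⟩

theorem Sel2.sum_T {p : ℕ} {g : A → ℝ} {hc : A → ℂ} {n : ℕ → A} {T : ℕ → Finset A}
    (h : Sel2 p g hc n T) (N : ℕ) :
    ∑ x ∈ T N, ‖hc x‖ ^ 2 ≤ ‖hc 1‖ ^ 2 + ∑ K ∈ Finset.range N, (1 / 2 : ℝ) ^ K := by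
  classical
  induction N with
  | zero => simp [h.T0]
  | succ N ih =>
    rw [Finset.sum_range_succ, ← add_assoc]
    refine le_trans ?_ (add_le_add_left ih _)
    have hsub : T (N + 1) ⊆ T N ∪ ((T N ×ˢ (Finset.range p).erase 0).image
        (fun q : A × ℕ => q.1 * n N ^ q.2)) := by
      intro x hx
      rw [h.Ts, nextT2, Finset.mem_image] at hx
      obtain ⟨q, hq, rfl⟩ := hx
      rw [Finset.mem_product] at hq
      rw [Finset.mem_union]
      by_cases hq0 : q.2 = 0
      · left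
        rw [hq0, pow_zero, mul_one]
        exact hq.1
      · right
        rw [Finset.mem_image]
        exact ⟨q, Finset.mem_product.mpr ⟨hq.1, Finset.mem_erase.mpr ⟨hq0, hq.2⟩⟩, rfl⟩
    have hnn : ∀ x, 0 ≤ ‖hc x‖ ^ 2 := fun x => sq_nonneg _
    refine (Finset.sum_le_sum_of_subset_of_nonneg hsub fun x _ _ => hnn x).trans ?_
    have hun : ∀ s t : Finset A, ∑ x ∈ s ∪ t, ‖hc x‖ ^ 2 ≤
        ∑ x ∈ s, ‖hc x‖ ^ 2 + ∑ x ∈ t, ‖hc x‖ ^ 2 := by
      intro s t
      have h1 := Finset.sum_union_inter (s₁ := s) (s₂ := t) (f := fun x => ‖hc x‖ ^ 2)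
      have h2 : 0 ≤ ∑ x ∈ s ∩ t, ‖hc x‖ ^ 2 := Finset.sum_nonneg fun x _ => hnn x
      linarith
    refine (hun _ _).trans ?_
    gcongr
    refine (Finset.sum_image_le_of_nonneg fun x _ => hnn x).trans ?_
    set c : ℝ := (T N).card * p with hcdef
    have hc0 : 0 ≤ c := by positivity
    have h3 : ∀ q ∈ T N ×ˢ (Finset.range p).erase 0,
        ‖hc (q.1 * n N ^ q.2)‖ ^ 2 ≤ (1 / 2) ^ N / (c + 1) := by
      intro q hq
      rw [Finset.mem_product, Finset.mem_erase, Finset.mem_range] at hq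
      have h4 := h.cn N q.1 hq.1 q.2 (Nat.pos_of_ne_zero hq.2.1) hq.2.2
      have h5 : (1 / 2 : ℝ) ^ N / (c + 1) ≤ 1 := by
        rw [div_le_one (by positivity)]
        have : (1 / 2 : ℝ) ^ N ≤ 1 := pow_le_one₀ (by norm_num) (by norm_num)
        linarith
      have h6 := norm_nonneg (hc (q.1 * n N ^ q.2))
      nlinarith
    refine (Finset.sum_le_sum h3).trans ?_
    rw [Finset.sum_const, nsmul_eq_mul]
    have h7 : ((T N ×ˢ (Finset.range p).erase 0).card : ℝ) ≤ c := by
      rw [Finset.card_product]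
      have h8 : ((Finset.range p).erase 0).card ≤ p := by
        refine (Finset.card_erase_le).trans ?_
        rw [Finset.card_range]
      rw [hcdef]
      push_cast
      gcongr
    calc _ ≤ c * ((1 / 2) ^ N / (c + 1)) := by gcongr
      _ = (1 / 2) ^ N * (c / (c + 1)) := by ring
      _ ≤ (1 / 2) ^ N * 1 := by
          gcongr
          rw [div_le_one (by positivity)]
          linarith
      _ = (1 / 2) ^ N := mul_one _

/-- the embedding of the model group -/
noncomputable def Phi {p : ℕ} (hexp : ∀ x : A, x ^ p = 1) [NeZero p] (n : ℕ → A) : Vp p →* A where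
  toFun x := (Multiplicative.toAdd x).prod fun i c => n i ^ c.val
  map_one' := by
    change (0 : ℕ →₀ ZMod p).prod (fun i c => n i ^ c.val) = 1
    simp
  map_mul' x y := by
    change ((Multiplicative.toAdd x) + (Multiplicative.toAdd y)).prod (fun i c => n i ^ c.val) =
      (Multiplicative.toAdd x).prod (fun i c => n i ^ c.val) *
      (Multiplicative.toAdd y).prod (fun i c => n i ^ c.val)
    refine Finsupp.prod_add_index' (fun i => by simp) (fun i a b => ?_)
    rw [ZMod.val_add, ← pow_add, ← pow_eq_pow_mod _ (hexp (n i))]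

theorem Phi_single {p : ℕ} (hexp : ∀ x : A, x ^ p = 1) [NeZero p] (n : ℕ → A) (i : ℕ)
    (c : ZMod p) : Phi hexp n (Multiplicative.ofAdd (Finsupp.single i c)) = n i ^ c.val := by
  change (Finsupp.single i c).prod (fun i c => n i ^ c.val) = _
  rw [Finsupp.prod_single_index]
  simp

theorem Vp_split {p : ℕ} (x : Vp p) (K : ℕ) :
    x = Multiplicative.ofAdd ((Multiplicative.toAdd x).erase K) *
      Multiplicative.ofAdd (Finsupp.single K (co p x K)) :=
  (Finsupp.erase_add_single K (Multiplicative.toAdd x)).symm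

theorem Sel2.mem_T {p : ℕ} {g : A → ℝ} {hc : A → ℂ} {n : ℕ → A} {T : ℕ → Finset A}
    (h : Sel2 p g hc n T) (hexp : ∀ x : A, x ^ p = 1) [NeZero p] (K : ℕ) :
    ∀ x : Vp p, (∀ i, K ≤ i → co p x i = 0) → Phi hexp n x ∈ T K := by
  classical
  induction K with
  | zero =>
    intro x hx
    have : x = 1 := co_ext p fun i => hx i (Nat.zero_le _)
    rw [this, map_one, h.T0]
    simp
  | succ K ih =>
    intro x hx
    rw [Vp_split x K, map_mul, Phi_single, h.Ts, nextT2, Finset.mem_image]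
    refine ⟨(_, (co p x K).val), ?_, rfl⟩
    rw [Finset.mem_product, Finset.mem_range]
    refine ⟨ih _ ?_, ZMod.val_lt _⟩
    intro i hi
    change ((Multiplicative.toAdd x).erase K) i = 0
    by_cases hiK : i = K
    · rw [hiK]; exact Finsupp.erase_same
    · rw [Finsupp.erase_ne hiK]
      exact hx i (by omega)

theorem Sel2.inj {p : ℕ} {g : A → ℝ} {hc : A → ℂ} {n : ℕ → A} {T : ℕ → Finset A}
    (h : Sel2 p g hc n T) (hexp : ∀ x : A, x ^ p = 1) [NeZero p] :
    Function.Injective (Phi hexp n) := by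
  classical
  rw [injective_iff_map_eq_one]
  intro x hx
  by_contra hne
  have hne' : Multiplicative.toAdd x ≠ 0 := fun h0 => hne h0
  have hs : (Multiplicative.toAdd x).support.Nonempty := Finsupp.support_nonempty_iff.mpr hne'
  set K := (Multiplicative.toAdd x).support.max' hs with hK
  have hKm : K ∈ (Multiplicative.toAdd x).support := Finset.max'_mem _ hs
  have hKne : co p x K ≠ 0 := Finsupp.mem_support_iff.mp hKm
  rw [Vp_split x K, map_mul, Phi_single] at hx
  refine h.nT K (co p x K).val ?_ (ZMod.val_lt _) ?_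
  · rw [Nat.pos_iff_ne_zero]
    rwa [Ne, ZMod.val_eq_zero]
  · have e2 : n K ^ (co p x K).val =
        Phi hexp n (Multiplicative.ofAdd ((Multiplicative.toAdd x).erase K))⁻¹ := by
      rw [map_inv]
      exact eq_inv_of_mul_eq_one_right hx
    rw [e2]
    refine h.mem_T hexp K _ fun i hi => ?_
    rw [co_inv, neg_eq_zero]
    change ((Multiplicative.toAdd x).erase K) i = 0
    by_cases hiK : i = K
    · rw [hiK]; exact Finsupp.erase_same
    · rw [Finsupp.erase_ne hiK]
      by_contra hc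
      have : i ≤ K := Finset.le_max' _ i (Finsupp.mem_support_iff.mpr hc)
      omega

theorem Sel2.summable {p : ℕ} {g : A → ℝ} {hc : A → ℂ} {n : ℕ → A} {T : ℕ → Finset A}
    (h : Sel2 p g hc n T) (hexp : ∀ x : A, x ^ p = 1) [NeZero p] :
    Summable fun x => ‖hc (Phi hexp n x)‖ ^ 2 := by
  classical
  refine summable_of_sum_le (c := ‖hc 1‖ ^ 2 + 2) (fun x => sq_nonneg _) fun u => ?_
  have h1 : ∀ x : Vp p, ∃ N, ∀ M, N ≤ M → Phi hexp n x ∈ T M := by
    intro x
    refine ⟨(Multiplicative.toAdd x).support.sup id + 1, fun M hM => h.mem_T hexp M x ?_⟩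
    intro i hi
    by_contra hc
    have : i ≤ (Multiplicative.toAdd x).support.sup id :=
      Finset.le_sup (f := id) (Finsupp.mem_support_iff.mpr hc)
    omega
  choose N hN using h1
  have h2 : u.image (Phi hexp n) ⊆ T (u.sup N) := by
    intro y hy
    rw [Finset.mem_image] at hy
    obtain ⟨x, hx, rfl⟩ := hy
    exact hN x _ (Finset.le_sup hx)
  calc ∑ x ∈ u, ‖hc (Phi hexp n x)‖ ^ 2
      = ∑ y ∈ u.image (Phi hexp n), ‖hc y‖ ^ 2 := by
        rw [Finset.sum_image (fun a _ b _ hab => h.inj hexp hab)]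
    _ ≤ ∑ x ∈ T (u.sup N), ‖hc x‖ ^ 2 :=
        Finset.sum_le_sum_of_subset_of_nonneg h2 fun x _ _ => sq_nonneg _
    _ ≤ ‖hc 1‖ ^ 2 + ∑ K ∈ Finset.range (u.sup N), (1 / 2 : ℝ) ^ K := h.sum_T _
    _ ≤ ‖hc 1‖ ^ 2 + 2 := by
        gcongr
        have := (summable_geometric_of_lt_one (r := (1 / 2 : ℝ)) (by norm_num)
          (by norm_num)).sum_le_tsum (Finset.range (u.sup N)) (fun i _ => by positivity)
        rw [tsum_geometric_of_lt_one (by norm_num) (by norm_num)] at this
        linarith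

theorem g_prod {r : A → ℂ} {g : A → ℝ} (h : Modl r g) (n : ℕ → A) (e : ℕ → ℕ) (s : Finset ℕ) :
    g (∏ i ∈ s, n i ^ e i) ≤ ∑ i ∈ s, e i * g (n i) := by
  classical
  induction s using Finset.induction_on with
  | empty => simp [h.g_one]
  | insert a s ha ih =>
    rw [Finset.prod_insert ha, Finset.sum_insert ha]
    exact (h.g_mul _ _).trans (add_le_add (h.g_pow _ _) ih)

/-- the recurrent part is natural -/
theorem Nat_of_Modl {p : ℕ} [NeZero p] {g : A → ℝ} {hc : A → ℂ} {n : ℕ → A} {T : ℕ → Finset A}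
    (h : Sel2 p g hc n T) (hexp : ∀ x : A, x ^ p = 1) {r : A → ℂ} (hm : Modl r g)
    (hm2 : Modl (fun x => r (Phi hexp n x)) (fun x => g (Phi hexp n x))) :
    Nat' p (fun x => r (Phi hexp n x)) := by
  classical
  intro ε hε
  obtain ⟨K, hK⟩ := exists_pow_lt_of_lt_one (show 0 < ε / 2 by positivity)
      (show (1 / 2 : ℝ) < 1 by norm_num)
  refine ⟨K, fun m => ?_⟩
  have hp' : (0 : ℝ) < p := by exact_mod_cast Nat.pos_of_ne_zero (NeZero.ne p)
  refine BN_of_tendsto (F := fun M x => (r (Phi hexp n (x * m)) - r (Phi hexp n m)) *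
    oneS (Sg p ({i | i < K} ∪ {i | M ≤ i})) x) (fun M => ?_) (fun x => ?_)
  · have hfin : ((Sg p ({i | i < K} ∪ {i | M ≤ i}) : Subgroup (Vp p)) : Set (Vp p)).Finite := by
      refine (((Finset.range M).finsupp (fun _ => (Finset.univ : Finset (ZMod p)))).finite_toSet.image
        Multiplicative.ofAdd).subset ?_
      intro x hx
      refine ⟨Multiplicative.toAdd x, ?_, rfl⟩
      rw [Finset.mem_coe, Finset.mem_finsupp_iff]
      refine ⟨fun i hi => ?_, fun i _ => Finset.mem_univ _⟩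
      rw [Finset.mem_range]
      by_contra hc
      exact Finsupp.mem_support_iff.mp hi (hx i (Or.inr (by simpa using hc)))
    obtain ⟨V, v1, v2, v3⟩ := exists_V _ hfin
    simp only [← v2]
    refine hm2.bn V ε v1 (fun y hy => ?_) m
    have hy' := v3 y hy
    have hsupp : (Multiplicative.toAdd y).support ⊆ Finset.Ico K M := by
      intro i hi
      rw [Finset.mem_Ico]
      by_contra hc
      refine Finsupp.mem_support_iff.mp hi (hy' i ?_)
      by_cases h1 : i < K
      · exact Or.inl h1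
      · refine Or.inr ?_
        change M ≤ i
        by_contra h2
        exact hc ⟨by omega, by omega⟩
    have e1 : Phi hexp n y = ∏ i ∈ Finset.Ico K M, n i ^ (co p y i).val := by
      change (Multiplicative.toAdd y).prod (fun i c => n i ^ c.val) = _
      exact Finsupp.prod_of_support_subset _ hsupp _ fun i _ => by simp
    rw [e1]
    refine (g_prod hm n _ _).trans ?_
    have h3 : ∀ i ∈ Finset.Ico K M, ((co p y i).val : ℝ) * g (n i) ≤ (1 / 2) ^ i := by
      intro i _
      have h4 : ((co p y i).val : ℝ) ≤ p := by exact_mod_cast (ZMod.val_lt (co p y i)).le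
      calc ((co p y i).val : ℝ) * g (n i) ≤ p * ((1 / 2) ^ i / p) := by
            have := h.gn i
            have := hm.g_nonneg (n i)
            gcongr
        _ = (1 / 2) ^ i := by field_simp
    refine (Finset.sum_le_sum h3).trans ?_
    rw [Finset.sum_Ico_eq_sum_range]
    simp only [pow_add]
    rw [← Finset.mul_sum]
    have := (summable_geometric_of_lt_one (r := (1 / 2 : ℝ)) (by norm_num) (by norm_num)).sum_le_tsum
      (Finset.range (M - K)) (fun i _ => by positivity)
    rw [tsum_geometric_of_lt_one (by norm_num) (by norm_num)] at this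
    have h5 : (0 : ℝ) ≤ (1 / 2) ^ K := by positivity
    nlinarith
  · refine Tendsto.const_mul _ ?_
    refine tendsto_const_nhds.congr' ?_
    filter_upwards [eventually_gt_atTop ((Multiplicative.toAdd x).support.sup id)] with M hM
    unfold oneS
    have : x ∈ Sg p {i | i < K} ↔ x ∈ Sg p ({i | i < K} ∪ {i | M ≤ i}) := by
      constructor
      · rintro hx i (hi | hi)
        · exact hx i hi
        · by_contra hc
          have h1 : i ≤ (Multiplicative.toAdd x).support.sup id :=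
            Finset.le_sup (f := id) (Finsupp.mem_support_iff.mpr hc)
          have h2 : M ≤ i := hi
          omega
      · intro hx i hi
        exact hx i (Or.inl hi)
    simp only [this]

end

section

variable {G : Type} [Group G]

/-- Second case: infinite elementary abelian subgroups. -/
theorem case_two {p : ℕ} (hp : p.Prime) {A : Type} [CommGroup A] [Infinite A]
    (hexp : ∀ x : A, x ^ p = 1) (φ : A →* G)
    (hφ : Function.Injective φ) {f : G → ℂ} (hf : MemB f) : Concl G f := by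
  classical
  have : Fact p.Prime := ⟨hp⟩
  have : Fact (1 < p) := ⟨hp.one_lt⟩
  have : NeZero p := ⟨hp.ne_zero⟩
  obtain ⟨M, hM⟩ := hf
  have hM0 := hM.nonneg
  obtain ⟨F, hF, hF2⟩ := exists_idem A
  obtain ⟨r0, hc, g, hdec, hmod, hr0, hex⟩ := decomp (MemB.comp φ ⟨M, hM⟩) hF hF2 ⊥
  have hm : Modl r0 g := hmod A _ (MonoidHom.id A)
  have hzexp : ∀ (x : A) (k : ℤ), x ^ ((p : ℤ) * k) = 1 := by
    intro x k
    rw [zpow_mul, zpow_natCast, hexp, one_zpow]
  have hinvj : ∀ j : ℤ, 0 < j → j < p → ∃ k : ℤ, ∀ n : A, n ^ (j * k) = n := by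
    intro j hj1 hj2
    have hcop : IsCoprime j (p : ℤ) := by
      have h1 : Nat.Coprime j.toNat p := by
        rw [Nat.coprime_comm, hp.coprime_iff_not_dvd]
        intro hd
        have := Nat.le_of_dvd (by omega) hd
        omega
      have h2 := (Nat.isCoprime_iff_coprime).mpr h1
      rwa [Int.toNat_of_nonneg hj1.le] at h2
    obtain ⟨a, b, hab⟩ := hcop
    refine ⟨a, fun n => ?_⟩
    have h3 : j * a = 1 - (p : ℤ) * b := by linarith
    rw [h3, zpow_sub, zpow_one, hzexp]
    simp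
  set J : Finset ℤ := Finset.Ioo 0 (p : ℤ) with hJ
  have hJ1 : ∀ j ∈ J, ∀ i ∈ (⊥ : Submonoid ℕ), ∃ i' ∈ (⊥ : Submonoid ℕ), ∃ k : ℤ,
      ∀ n : A, n ^ (i' : ℤ) = n ^ ((i : ℤ) * j * k) := by
    intro j hj i hi
    rw [hJ, Finset.mem_Ioo] at hj
    rw [Submonoid.mem_bot] at hi
    subst hi
    obtain ⟨k, hk⟩ := hinvj j hj.1 hj.2
    refine ⟨1, Submonoid.mem_bot.mpr rfl, k, fun n => ?_⟩
    rw [Nat.cast_one, one_mul, hk, zpow_one]
  have hJ2 : ∀ j ∈ J, ∀ i ∈ (⊥ : Submonoid ℕ), ∀ t : A,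
      {n : A | n ^ ((i : ℤ) * j) = t}.Finite := by
    intro j hj i hi t
    rw [hJ, Finset.mem_Ioo] at hj
    rw [Submonoid.mem_bot] at hi
    subst hi
    obtain ⟨k, hk⟩ := hinvj j hj.1 hj.2
    refine (Set.finite_singleton (t ^ k)).subset ?_
    intro n hn
    change n ^ (((1 : ℕ) : ℤ) * j) = t at hn
    rw [Nat.cast_one, one_mul] at hn
    rw [Set.mem_singleton_iff, ← hn, ← zpow_mul, hk]
  obtain ⟨n, T, hS⟩ : ∃ (n : ℕ → A) (T : ℕ → Finset A), Sel2 p g hc n T := by
    refine exists_seq2 hp.pos fun T ε hε => ?_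
    obtain ⟨n, n1, n2, n3⟩ := hex J hJ1 hJ2 T ε hε
    refine ⟨n, n1, fun j hj hj2 => ?_, fun m hm j hj hj2 => ?_⟩
    · have := n2 j (by rw [hJ, Finset.mem_Ioo]; omega)
      rwa [zpow_natCast] at this
    · have := n3 m hm j (by rw [hJ, Finset.mem_Ioo]; omega)
      rwa [zpow_natCast] at this
  set Φ := Phi hexp n with hΦ
  have hinj : Function.Injective Φ := hS.inj hexp
  have hsum : Summable fun x => ‖hc (Φ x)‖ ^ 2 := hS.summable hexp
  have hNr : Nat' p (fun x => r0 (Φ x)) := Nat_of_Modl hS hexp hm (hmod (Vp p) _ Φ)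
  set R : ℝ := M + 1 with hR
  have hRpos : 0 < R := by rw [hR]; linarith
  have hNu : Nat' p (fun x => (R : ℂ) * uu x) := Nat_uu.smul _
  have hMu : MemB (fun x : Vp p => (R : ℂ) * uu x) := (memB_const _).mul MemB_uu
  have hrange : ∀ z : ℂ, ‖z‖ ≤ R → ∀ ε : ℝ, 0 < ε → ∃ x : Vp p, ‖(R : ℂ) * uu x - z‖ < ε := by
    intro z hz ε hε
    obtain ⟨x, hx⟩ := uu_dense (p := p) (z := z / R) (by
      rw [norm_div, Complex.norm_real, Real.norm_eq_abs, abs_of_pos hRpos, div_le_one hRpos]
      exact hz) (ε := ε / R) (by positivity)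
    refine ⟨x, ?_⟩
    have h2 : (R : ℂ) * uu x - z = R * (uu x - z / R) := by
      have : (R : ℂ) ≠ 0 := by exact_mod_cast hRpos.ne'
      field_simp
    rw [h2, norm_mul, Complex.norm_real, Real.norm_eq_abs, abs_of_pos hRpos]
    rw [lt_div_iff₀ hRpos] at hx
    linarith
  refine assemble (φ.comp Φ) (hφ.comp hinj) hM (F₁ := fun x => r0 (Φ x) - R * uu x)
    ((MemB.comp Φ hr0).sub hMu) (fun z hz => inv_of_Nat (hNr.sub hNu) hz) ?_
  intro z hz
  have hfx : ∀ x, f ((φ.comp Φ) x) - (r0 (Φ x) - R * uu x) = hc (Φ x) + R * uu x := by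
    intro x
    have : f ((φ.comp Φ) x) = r0 (Φ x) + hc (Φ x) := hdec (Φ x)
    rw [this]
    ring
  -- values of `R u` are in the closure
  have hcl : ∀ x : Vp p, (R : ℂ) * uu x ∈ closure (Set.range fun x : Vp p => hc (Φ x) + R * uu x) := by
    intro x
    let e : ℕ → Vp p := fun k => x * Multiplicative.ofAdd (Finsupp.single (2 * k) 1)
    have he : Function.Injective e := by
      intro k l hkl
      have h0 : (Multiplicative.ofAdd (Finsupp.single (2 * k) (1 : ZMod p)) : Vp p) =
          Multiplicative.ofAdd (Finsupp.single (2 * l) 1) := mul_left_cancel (a := x) hkl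
      have h1 : (Finsupp.single (2 * k) (1 : ZMod p) : ℕ →₀ ZMod p) = Finsupp.single (2 * l) 1 :=
        Multiplicative.ofAdd.injective h0
      have h2 := DFunLike.congr_fun h1 (2 * k)
      rw [Finsupp.single_eq_same, Finsupp.single_apply] at h2
      split_ifs at h2 with h3
      · omega
      · exact absurd h2 one_ne_zero
    have h1 : Tendsto (fun k => ‖hc (Φ (e k))‖ ^ 2) atTop (𝓝 0) := by
      have := hsum.tendsto_cofinite_zero.comp he.tendsto_cofinite
      rwa [Nat.cofinite_eq_atTop] at this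
    have h2 : Tendsto (fun k => hc (Φ (e k))) atTop (𝓝 0) := by
      rw [tendsto_zero_iff_norm_tendsto_zero]
      have h3 := (Real.continuous_sqrt.tendsto 0).comp h1
      rw [Real.sqrt_zero] at h3
      refine h3.congr fun k => ?_
      simp only [Function.comp]
      exact Real.sqrt_sq (norm_nonneg _)
    have h3 : Tendsto (fun k => uu (e k)) atTop (𝓝 (uu x)) := by
      rw [tendsto_iff_norm_sub_tendsto_zero]
      refine squeeze_zero (fun k => norm_nonneg _) (fun k => uu_shift x k 1) ?_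
      have := (tendsto_pow_atTop_nhds_zero_of_lt_one (r := (1 / 2 : ℝ)) (by norm_num)
        (by norm_num)).const_mul 2
      rwa [mul_zero] at this
    have h4 := h2.add (h3.const_mul (R : ℂ))
    rw [zero_add] at h4
    exact mem_closure_of_tendsto h4 (Eventually.of_forall fun k => ⟨e k, rfl⟩)
  have hrg : (Set.range fun x => f ((φ.comp Φ) x) - (r0 (Φ x) - R * uu x)) =
      Set.range fun x : Vp p => hc (Φ x) + R * uu x := by
    congr 1
    ext x
    exact hfx x
  rw [hrg] at hz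
  have hzR : z ∉ closure (Set.range fun x : Vp p => (R : ℂ) * uu x) := by
    intro h
    apply hz
    refine closure_minimal ?_ isClosed_closure h
    rintro _ ⟨x, rfl⟩
    exact hcl x
  refine ⟨?_, ?_⟩
  · by_contra hle
    push Not at hle
    apply hzR
    rw [Metric.mem_closure_iff]
    intro ε hε
    obtain ⟨x, hx⟩ := hrange z (by rw [hR]; linarith) ε hε
    refine ⟨_, ⟨x, rfl⟩, ?_⟩
    rw [dist_comm, dist_eq_norm]
    exact hx
  · have hinvu := inv_of_Nat hNu hzR
    obtain ⟨C, hC⟩ := hinvu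
    have hC0 := hC.nonneg
    have hne1 : ∀ x : Vp p, z - R * uu x ≠ 0 := by
      intro x h0
      apply hzR
      rw [sub_eq_zero] at h0
      rw [h0]
      exact subset_closure ⟨x, rfl⟩
    have hne2 : ∀ x : Vp p, z - (hc (Φ x) + R * uu x) ≠ 0 := by
      intro x h0
      apply hz
      rw [sub_eq_zero] at h0
      rw [h0]
      exact subset_closure ⟨x, rfl⟩
    have hasum : Summable fun x : Vp p => ‖hc (Φ x) * (z - R * uu x)⁻¹‖ ^ 2 := by
      refine Summable.of_nonneg_of_le (fun x => sq_nonneg _) (fun x => ?_) (hsum.mul_right (C ^ 2))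
      rw [norm_mul, mul_pow]
      have := hC.norm_le x
      gcongr
    have ha1 : ∀ x : Vp p, 1 - hc (Φ x) * (z - R * uu x)⁻¹ ≠ 0 := by
      intro x h0
      apply hne2 x
      have h1 := hne1 x
      have h2 : z - (hc (Φ x) + R * uu x) =
          (z - R * uu x) * (1 - hc (Φ x) * (z - R * uu x)⁻¹) := by
        field_simp
        ring
      rw [h2, h0, mul_zero]
    have h3 := MemB.mul ⟨C, hC⟩ (inv_one_sub hasum ha1)
    have h4 : (fun x : Vp p => (z - R * uu x)⁻¹ * (1 - hc (Φ x) * (z - R * uu x)⁻¹)⁻¹) =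
        fun x => (z - (f ((φ.comp Φ) x) - (r0 (Φ x) - R * uu x)))⁻¹ := by
      ext x
      have h1 := hne1 x
      rw [hfx, ← mul_inv]
      congr 1
      field_simp
      ring
    rwa [h4] at h3

end

end Pool.Agent.Lib.MP_9fb650_an
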