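import Pool.Agent.Lib.MP_9fb650_an.Basic

set_option autoImplicit false

namespace Pool.Agent.Lib.MP_9fb650_an

open Matrix Filter Topology
open scoped ComplexOrder ComplexConjugate

variable {G : Type} [Group G]

section vec

variable {H : Type} [NormedAddCommGroup H] [InnerProductSpace ℂ H]

abbrev L2 (G H : Type) [NormedAddCommGroup H] : Type := lp (fun _ : G => H) 2

theorem memL2_iff (f : G → H) :
    Memℓp (fun i : G => f i) (2 : ENNReal) ↔ Summable fun i => ‖f i‖ ^ 2 := by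
  rw [memℓp_gen_iff (by norm_num)]
  simp

theorem L2_summable (η : L2 G H) : Summable fun i => ‖η i‖ ^ 2 :=
  (memL2_iff _).mp (lp.memℓp η)

/-- left translation -/
noncomputable def Lsh (g : G) (η : L2 G H) : L2 G H :=
  ⟨fun x => η (g⁻¹ * x), (memL2_iff (fun x => η (g⁻¹ * x))).mpr
    ((Equiv.mulLeft g⁻¹).summable_iff.mpr (L2_summable η))⟩

theorem Lsh_apply (g : G) (η : L2 G H) (x : G) : Lsh g η x = η (g⁻¹ * x) := rfl

theorem L2_inner (x y : L2 G H) : inner ℂ x y = ∑' i, inner ℂ (x i) (y i) := by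
  rw [lp.inner_eq_tsum]

theorem L2_norm_sq (x : L2 G H) : ‖x‖ ^ 2 = ∑' i, ‖x i‖ ^ 2 := by
  have := lp.norm_rpow_eq_tsum (p := 2) (by norm_num) x
  simpa using this

theorem Lsh_inner (a b : G) (x y : L2 G H) : inner ℂ (Lsh a x) (Lsh b y) =
    inner ℂ x (Lsh (a⁻¹ * b) y) := by
  rw [L2_inner, L2_inner, ← (Equiv.mulLeft a).tsum_eq]
  refine tsum_congr fun i => ?_
  simp [Lsh_apply, mul_assoc]

theorem Lsh_one (x : L2 G H) : Lsh 1 x = x := by
  ext i
  simp [Lsh_apply]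

theorem Lsh_add (g : G) (x y : L2 G H) : Lsh g (x + y) = Lsh g x + Lsh g y := rfl

theorem Lsh_sub (g : G) (x y : L2 G H) : Lsh g (x - y) = Lsh g x - Lsh g y := rfl

theorem Lsh_smul (g : G) (c : ℂ) (x : L2 G H) : Lsh g (c • x) = c • Lsh g x := rfl

theorem Lsh_Lsh (g h : G) (x : L2 G H) : Lsh g (Lsh h x) = Lsh (g * h) x := by
  ext i
  simp [Lsh_apply, mul_assoc]

theorem Lsh_zero (g : G) : Lsh g (0 : L2 G H) = 0 := rfl

theorem Lsh_sum {ι : Type*} (s : Finset ι) (g : G) (x : ι → L2 G H) :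
    Lsh g (∑ i ∈ s, x i) = ∑ i ∈ s, Lsh g (x i) := by
  classical
  induction s using Finset.induction_on with
  | empty => simp [Lsh_zero]
  | insert a s ha ih => rw [Finset.sum_insert ha, Finset.sum_insert ha, Lsh_add, ih]

theorem BN_L2' (ξ η : L2 G H) {r : ℝ} (h1 : ‖ξ‖ ^ 2 ≤ r) (h2 : ‖η‖ ^ 2 ≤ r) :
    BN (fun g => inner ℂ η (Lsh g ξ)) r := by
  refine ⟨fun g => inner ℂ η (Lsh g η), fun g => inner ℂ ξ (Lsh g ξ), ?_, ?_, ?_⟩
  · have : Blk (fun g => inner ℂ η (Lsh g ξ)) (fun g => inner ℂ η (Lsh g η))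
        (fun g => inner ℂ ξ (Lsh g ξ)) =
        Matrix.of fun x y : G × Bool => inner ℂ (Lsh x.1 (if x.2 then ξ else η))
          (Lsh y.1 (if y.2 then ξ else η)) := by
      ext ⟨a, i⟩ ⟨b, j⟩
      cases i <;> cases j <;> simp only [Blk, Matrix.of_apply, Lsh_inner, if_true, Bool.false_eq_true,
        if_false]
      rw [← Lsh_inner a b, ← Lsh_inner b a, inner_conj_symm]
    rw [this]
    exact gram_posSemidef _
  · simp only [Lsh_one]
    change RCLike.re (inner ℂ η η) ≤ r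
    rw [inner_self_eq_norm_sq]
    exact h2
  · simp only [Lsh_one]
    change RCLike.re (inner ℂ ξ ξ) ≤ r
    rw [inner_self_eq_norm_sq]
    exact h1

theorem BN_L2 (ξ η : L2 G H) : BN (fun g => inner ℂ η (Lsh g ξ)) (‖ξ‖ * ‖η‖) := by
  by_cases hξ : ξ = 0
  · have : (fun g => inner ℂ η (Lsh g ξ)) = fun _ : G => (0 : ℂ) := by
      ext g
      rw [hξ, Lsh_zero, inner_zero_right]
    rw [this, hξ, norm_zero, zero_mul]
    simpa using BN_const (G := G) 0
  by_cases hη : η = 0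
  · have : (fun g => inner ℂ η (Lsh g ξ)) = fun _ : G => (0 : ℂ) := by
      ext g
      rw [hη, inner_zero_left]
    rw [this, hη, norm_zero, mul_zero]
    simpa using BN_const (G := G) 0
  have h1 : 0 < ‖ξ‖ := norm_pos_iff.mpr hξ
  have h2 : 0 < ‖η‖ := norm_pos_iff.mpr hη
  set t : ℝ := Real.sqrt (‖η‖ / ‖ξ‖) with ht
  have ht0 : 0 < t := Real.sqrt_pos.mpr (div_pos h2 h1)
  have ht2 : t ^ 2 = ‖η‖ / ‖ξ‖ := Real.sq_sqrt (div_pos h2 h1).le
  have key := BN_L2' ((t : ℂ) • ξ) (((t⁻¹ : ℝ) : ℂ) • η) (r := ‖ξ‖ * ‖η‖)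
    (by
      rw [norm_smul, Complex.norm_real, mul_pow, Real.norm_eq_abs, sq_abs, ht2]
      apply le_of_eq
      field_simp)
    (by
      rw [norm_smul, Complex.norm_real, mul_pow, Real.norm_eq_abs, sq_abs, inv_pow, ht2]
      apply le_of_eq
      field_simp)
  have : (fun g => inner ℂ η (Lsh g ξ)) =
      (fun g => inner ℂ (((t⁻¹ : ℝ) : ℂ) • η) (Lsh g ((t : ℂ) • ξ))) := by
    ext g
    rw [Lsh_smul, inner_smul_left, inner_smul_right, Complex.conj_ofReal, ← mul_assoc,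
      ← Complex.ofReal_mul, inv_mul_cancel₀ ht0.ne', Complex.ofReal_one, one_mul]
  rw [this]
  exact key

end vec

/-- Square summable functions are coefficient functions. -/
theorem BN_of_summable_sq {a : G → ℂ} (ha : Summable fun x => ‖a x‖ ^ 2) : ∃ r, BN a r := by
  classical
  let η : L2 G ℂ := ⟨fun x => conj (a x), (memL2_iff fun x => conj (a x)).mpr (by simpa using ha)⟩
  let ξ : L2 G ℂ := lp.single 2 1 1
  refine ⟨‖ξ‖ * ‖η‖, ?_⟩
  have : a = fun g => inner ℂ η (Lsh g ξ) := by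
    ext g
    rw [L2_inner, tsum_eq_single g]
    · simp [Lsh_apply, ξ, η]
    · intro b hb
      have : g⁻¹ * b ≠ 1 := by
        intro h
        apply hb
        rw [inv_mul_eq_one] at h
        exact h.symm
      simp [Lsh_apply, ξ, this]
  rw [this]
  exact BN_L2 ξ η

end Pool.Agent.Lib.MP_9fb650_an
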