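import Pool.Agent.Lib.MP_9fb650_an.Basic

set_option autoImplicit false

namespace Pool.Agent.Lib.MP_9fb650_an

open Matrix Filter Topology
open scoped ComplexOrder ComplexConjugate

/-- Kolmogorov decomposition of a positive semidefinite kernel. -/
theorem exists_hilbert {X : Type} (K : Matrix X X ℂ) (hK : K.PosSemidef) :
    ∃ (H : Type) (_ : NormedAddCommGroup H) (_ : InnerProductSpace ℂ H) (_ : CompleteSpace H)
      (v : X → H), (∀ x y, inner ℂ (v x) (v y) = K x y) ∧
      DenseRange (Finsupp.linearCombination ℂ v) := by
  let c : PreInnerProductSpace.Core ℂ (X →₀ ℂ) :=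
    { inner := fun f g => f.sum fun x a => g.sum fun y b => star a * K x y * b
      conj_inner_symm := by
        intro f g
        change conj (g.sum fun x a => f.sum fun y b => star a * K x y * b) =
          f.sum fun x a => g.sum fun y b => star a * K x y * b
        simp only [Finsupp.sum, map_sum, map_mul]
        rw [Finset.sum_comm]
        refine Finset.sum_congr rfl fun x _ => Finset.sum_congr rfl fun y _ => ?_
        have := hK.isHermitian.apply x y
        rw [← this]
        simp only [RCLike.star_def, Complex.conj_conj]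
        ring
      re_inner_nonneg := by
        intro f
        exact (Complex.le_def.mp (hK.2 f)).1
      add_left := by
        intro f g h
        change ((f + g).sum fun x a => h.sum fun y b => star a * K x y * b) = _
        rw [Finsupp.sum_add_index']
        · intro x
          simp
        · intro x a b
          simp [add_mul, Finsupp.sum_add]
      smul_left := by
        intro f g r
        change ((r • f).sum fun x a => g.sum fun y b => star a * K x y * b) = conj r * _
        rw [Finsupp.sum_smul_index]
        · simp only [Finsupp.mul_sum]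
          refine Finsupp.sum_congr fun x _ => Finsupp.sum_congr fun y _ => ?_
          simp only [star_mul', RCLike.star_def]
          ring
        · intro x
          simp }
  let i1 : SeminormedAddCommGroup (X →₀ ℂ) :=
    @InnerProductSpace.Core.toSeminormedAddCommGroup ℂ (X →₀ ℂ) _ _ _ c
  let i2 : InnerProductSpace ℂ (X →₀ ℂ) := InnerProductSpace.ofCore c
  have hinner : ∀ f g : X →₀ ℂ, inner ℂ f g =
      f.sum fun x a => g.sum fun y b => star a * K x y * b := fun f g => rfl
  refine ⟨UniformSpace.Completion (X →₀ ℂ), inferInstance, inferInstance, inferInstance,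
    fun x => ((Finsupp.single x (1 : ℂ) : X →₀ ℂ) : UniformSpace.Completion (X →₀ ℂ)), ?_, ?_⟩
  · intro x y
    rw [UniformSpace.Completion.inner_coe, hinner]
    simp
  · have : ⇑(Finsupp.linearCombination ℂ fun x =>
        ((Finsupp.single x (1 : ℂ) : X →₀ ℂ) : UniformSpace.Completion (X →₀ ℂ))) =
        fun f : X →₀ ℂ => (f : UniformSpace.Completion (X →₀ ℂ)) := by
      have h2 : Finsupp.linearCombination ℂ (fun x =>
          ((Finsupp.single x (1 : ℂ) : X →₀ ℂ) : UniformSpace.Completion (X →₀ ℂ))) =
          (UniformSpace.Completion.toComplL : (X →₀ ℂ) →L[ℂ] UniformSpace.Completion (X →₀ ℂ)).toLinearMap := by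
        ext x
        simp
      rw [h2]
      rfl
    rw [this]
    exact UniformSpace.Completion.denseRange_coe

/-- Invariant kernels give unitary representations. -/
theorem exists_rep {G X : Type} [Group G] (act : G →* Equiv.Perm X) (K : Matrix X X ℂ)
    (hK : K.PosSemidef) (hinv : ∀ g x y, K (act g x) (act g y) = K x y) :
    ∃ (H : Type) (_ : NormedAddCommGroup H) (_ : InnerProductSpace ℂ H) (_ : CompleteSpace H)
      (π : G →* unitary (H →L[ℂ] H)) (v : X → H), (∀ x y, inner ℂ (v x) (v y) = K x y) ∧
      ∀ g x, (π g : H →L[ℂ] H) (v x) = v (act g x) := by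
  obtain ⟨H, i1, i2, i3, v, hv, hd⟩ := exists_hilbert K hK
  set e := Finsupp.linearCombination ℂ v with he
  let D : G → ((X →₀ ℂ) ≃ₗ[ℂ] (X →₀ ℂ)) := fun g => Finsupp.domLCongr (act g)
  have hnorm : ∀ (g : G) (f : X →₀ ℂ), ‖e (D g f)‖ = ‖e f‖ := by
    intro g f
    have h1 : ∀ f : X →₀ ℂ, ‖e f‖ ^ 2 = RCLike.re (inner ℂ (e f) (e f)) := fun f =>
      (inner_self_eq_norm_sq (𝕜 := ℂ) (e f)).symm
    have h2 : inner ℂ (e (D g f)) (e (D g f)) =
        inner ℂ (e f) (e f) := by
      simp only [D, he, Finsupp.linearCombination_apply, Finsupp.domLCongr_apply]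
      simp only [Finsupp.domCongr_apply, Finsupp.equivMapDomain_eq_mapDomain]
      rw [Finsupp.sum_mapDomain_index (by simp) (by intros; rw [add_smul])]
      simp only [Finsupp.sum, sum_inner, inner_sum, inner_smul_left, inner_smul_right, hv, hinv]
    have h3 := h1 (D g f)
    rw [h2, ← h1 f] at h3
    exact (sq_eq_sq₀ (norm_nonneg _) (norm_nonneg _)).mp h3
  let U : G → (H ≃ₗᵢ[ℂ] H) := fun g =>
    (D g).extendOfIsometry e e hd hd (hnorm g)
  have hU : ∀ g x, U g (v x) = v (act g x) := by
    intro g x
    have h1 : v x = e (Finsupp.single x 1) := by simp [he]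
    have h2 : v (act g x) = e (Finsupp.single (act g x) 1) := by simp [he]
    rw [h1, h2]
    change (D g).extendOfIsometry e e hd hd (hnorm g) (e (Finsupp.single x 1)) = _
    rw [LinearEquiv.extendOfIsometry_eq]
    simp [D]
  have hext : ∀ (S T : H →L[ℂ] H), (∀ x, S (v x) = T (v x)) → S = T := by
    intro S T h
    ext w
    refine hd.induction_on (p := fun w => S w = T w) w (isClosed_eq S.continuous T.continuous) ?_
    intro f
    simp only [he, Finsupp.linearCombination_apply, Finsupp.sum, map_sum, map_smul, h]
  let T : G → unitary (H →L[ℂ] H) := fun g =>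
    ⟨((U g).toContinuousLinearEquiv : H →L[ℂ] H), by
      rw [Unitary.mem_iff]
      constructor
      · ext w
        refine ext_inner_left ℂ fun z => ?_
        change inner ℂ z ((star ((U g).toContinuousLinearEquiv : H →L[ℂ] H)) (U g w)) = inner ℂ z w
        rw [ContinuousLinearMap.star_eq_adjoint, ContinuousLinearMap.adjoint_inner_right]
        exact (U g).inner_map_map z w
      · ext w
        refine ext_inner_left ℂ fun z => ?_
        obtain ⟨w', rfl⟩ := (U g).surjective w
        have h1 : (star ((U g).toContinuousLinearEquiv : H →L[ℂ] H)) (U g w') = w' := by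
          refine ext_inner_left ℂ fun z => ?_
          rw [ContinuousLinearMap.star_eq_adjoint, ContinuousLinearMap.adjoint_inner_right]
          exact (U g).inner_map_map z w'
        change inner ℂ z ((U g) ((star ((U g).toContinuousLinearEquiv : H →L[ℂ] H)) (U g w'))) =
          inner ℂ z (U g w')
        rw [h1]⟩
  refine ⟨H, i1, i2, i3,
    { toFun := T
      map_one' := by
        apply Subtype.ext
        refine hext _ _ fun x => ?_
        change U 1 (v x) = v x
        rw [hU, map_one]
        rfl
      map_mul' := by
        intro g h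
        apply Subtype.ext
        refine hext _ _ fun x => ?_
        change U (g * h) (v x) = U g (U h (v x))
        rw [hU, hU, hU, map_mul]
        rfl }, v, hv, ?_⟩
  intro g x
  exact hU g x

/-- Every function of finite norm is a coefficient function. -/
theorem BN.exists_coef {G : Type} [Group G] {f : G → ℂ} {r : ℝ} (h : BN f r) :
    ∃ (H : Type) (_ : NormedAddCommGroup H) (_ : InnerProductSpace ℂ H) (_ : CompleteSpace H)
      (π : G →* unitary (H →L[ℂ] H)) (ξ η : H), ∀ g, f g = inner ℂ η ((π g : H →L[ℂ] H) ξ) := by
  obtain ⟨p, q, h1, h2, h3⟩ := h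
  let act : G →* Equiv.Perm (G × Bool) :=
    { toFun := fun g => (Equiv.mulLeft g).prodCongr (Equiv.refl Bool)
      map_one' := by
        ext ⟨a, i⟩ <;> simp
      map_mul' := by
        intro a b
        ext ⟨c, i⟩ <;> simp [mul_assoc] }
  have hact : ∀ g a i, act g (a, i) = (g * a, i) := fun g a i => rfl
  obtain ⟨H, i1, i2, i3, π, v, hv, hπ⟩ := exists_rep act (Blk f p q) h1 (by
    rintro g ⟨a, i⟩ ⟨b, j⟩
    rw [hact, hact]
    cases i <;> cases j <;> simp [Blk, mul_assoc])
  refine ⟨H, i1, i2, i3, π, v (1, true), v (1, false), fun g => ?_⟩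
  rw [hπ, hact, hv]
  simp [Blk]

end Pool.Agent.Lib.MP_9fb650_an
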