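import Pool.Agent.Lib.MP_9fb650_an.Ell2
import Pool.Agent.Lib.MP_9fb650_an.GNS

set_option autoImplicit false

namespace Pool.Agent.Lib.MP_9fb650_an

open Matrix Filter Topology
open scoped ComplexOrder ComplexConjugate

variable {G : Type} [Group G]

/-- membership in the Fourier-Stieltjes algebra -/
def MemB (f : G → ℂ) : Prop := ∃ r, BN f r

theorem memB_iff (f : G → ℂ) : MemB f ↔
    ∃ (H : Type) (_ : NormedAddCommGroup H) (_ : InnerProductSpace ℂ H)
            (_ : CompleteSpace H) (π : G →* unitary (H →L[ℂ] H)) (ξ η : H),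
            ∀ g : G, f g = inner ℂ η ((π g : H →L[ℂ] H) ξ) := by
  constructor
  · rintro ⟨r, h⟩
    exact h.exists_coef
  · rintro ⟨H, i1, i2, i3, π, ξ, η, h⟩
    have : f = fun g => inner ℂ η ((π g : H →L[ℂ] H) ξ) := funext h
    rw [this]
    exact ⟨max (‖ξ‖ ^ 2) (‖η‖ ^ 2), BN_coef π ξ η (le_max_left _ _) (le_max_right _ _)⟩

theorem MemB.add {f g : G → ℂ} (hf : MemB f) (hg : MemB g) : MemB (fun x => f x + g x) := by
  obtain ⟨r, hr⟩ := hf
  obtain ⟨s, hs⟩ := hg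
  exact ⟨_, hr.add hs⟩

theorem MemB.sub {f g : G → ℂ} (hf : MemB f) (hg : MemB g) : MemB (fun x => f x - g x) := by
  obtain ⟨r, hr⟩ := hf
  obtain ⟨s, hs⟩ := hg
  exact ⟨_, hr.sub hs⟩

theorem MemB.mul {f g : G → ℂ} (hf : MemB f) (hg : MemB g) : MemB (fun x => f x * g x) := by
  obtain ⟨r, hr⟩ := hf
  obtain ⟨s, hs⟩ := hg
  exact ⟨_, hr.mul hs⟩

theorem MemB.neg {f : G → ℂ} (hf : MemB f) : MemB (fun x => -f x) := by
  obtain ⟨r, hr⟩ := hf
  exact ⟨_, hr.neg⟩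

theorem memB_const (c : ℂ) : MemB (fun _ : G => c) := ⟨_, BN_const c⟩

theorem BN.comp {A : Type} [Group A] (φ : A →* G) {f : G → ℂ} {r : ℝ} (h : BN f r) :
    BN (fun a => f (φ a)) r := by
  obtain ⟨p, q, h1, h2, h3⟩ := h
  refine ⟨fun a => p (φ a), fun a => q (φ a), ?_, by simpa using h2, by simpa using h3⟩
  have : Blk (fun a => f (φ a)) (fun a => p (φ a)) (fun a => q (φ a)) =
      (Blk f p q).submatrix (fun a => (φ a.1, a.2)) (fun a => (φ a.1, a.2)) := by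
    ext ⟨a, i⟩ ⟨b, j⟩
    cases i <;> cases j <;> simp [Blk]
  rw [this]
  exact h1.submatrix _

/-- Neumann series. -/
theorem neumann {u : G → ℂ} {c : ℕ → ℝ} (h : ∀ N, BN (fun x => u x ^ N) (c N))
    (hc : Summable c) : (∀ x, ‖u x‖ < 1) ∧ MemB (fun x => (1 - u x)⁻¹) := by
  have h1 : ∀ x, ‖u x‖ < 1 := by
    intro x
    by_contra hx
    push Not at hx
    have h2 : ∀ N, 1 ≤ c N := fun N => by
      have h3 := (h N).norm_le x
      rw [norm_pow] at h3
      exact (one_le_pow₀ hx).trans h3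
    have h4 := hc.tendsto_atTop_zero
    have := ge_of_tendsto' h4 h2
    linarith
  refine ⟨h1, ∑' N, c N, ?_⟩
  have h2 := BN_tsum h hc
  have h3 : (fun x => ∑' N, u x ^ N) = fun x => (1 - u x)⁻¹ := by
    ext x
    exact tsum_geometric_of_norm_lt_one (h1 x)
  rwa [h3] at h2

theorem inv_const_sub {f : G → ℂ} {r : ℝ} (h : BN f r) {z : ℂ} (hz : r < ‖z‖) :
    (∀ x, z - f x ≠ 0) ∧ MemB (fun x => (z - f x)⁻¹) := by
  have hr := h.nonneg
  have hz0 : z ≠ 0 := by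
    rintro rfl
    simp at hz
    linarith
  have h1 := h.smul z⁻¹
  have hlt : ‖z⁻¹‖ * r < 1 := by
    rw [norm_inv, inv_mul_lt_one₀ (hr.trans_lt hz)]
    exact hz
  have h2 := neumann (u := fun x => z⁻¹ * f x) (c := fun N => (‖z⁻¹‖ * r) ^ N)
    (fun N => h1.pow N) (summable_geometric_of_lt_one (mul_nonneg (norm_nonneg _) hr) hlt)
  have h3 : ∀ x, z - f x = z * (1 - z⁻¹ * f x) := fun x => by field_simp
  constructor
  · intro x hx
    rw [h3, mul_eq_zero] at hx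
    rcases hx with hx | hx
    · exact hz0 hx
    · have := h2.1 x
      rw [sub_eq_zero] at hx
      rw [← hx] at this
      simp at this
  · have h4 := (memB_const z⁻¹).mul h2.2
    have h5 : (fun x => z⁻¹ * (1 - z⁻¹ * f x)⁻¹) = fun x => (z - f x)⁻¹ := by
      ext x
      rw [h3, mul_inv]
    rwa [h5] at h4

theorem exists_lower_bound {a : G → ℂ} (ha : Summable fun x => ‖a x‖ ^ 2)
    (hne : ∀ x, 1 - a x ≠ 0) : ∃ δ : ℝ, 0 < δ ∧ ∀ x, δ ≤ ‖1 - a x‖ := by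
  classical
  have h1 := ha.tendsto_cofinite_zero
  have h2 : ∀ᶠ x in cofinite, ‖a x‖ ^ 2 < (1 / 2) ^ 2 :=
    h1.eventually (gt_mem_nhds (by norm_num))
  rw [Filter.eventually_cofinite] at h2
  set s := h2.toFinset with hs
  have h3 : ∀ x ∉ s, (1 / 2 : ℝ) ≤ ‖1 - a x‖ := by
    intro x hx
    have h4 : ‖a x‖ ^ 2 < (1 / 2) ^ 2 := by
      by_contra h5
      exact hx (by rw [hs, Set.Finite.mem_toFinset]; exact h5)
    have h5 : ‖a x‖ < 1 / 2 := lt_of_pow_lt_pow_left₀ 2 (by norm_num) h4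
    have h6 : ‖(1 : ℂ)‖ - ‖a x‖ ≤ ‖1 - a x‖ := norm_sub_norm_le _ _
    rw [norm_one] at h6
    linarith
  by_cases hse : s.Nonempty
  · obtain ⟨y, hy, hmin⟩ := s.exists_min_image (fun x => ‖1 - a x‖) hse
    refine ⟨min (1 / 2) ‖1 - a y‖, lt_min (by norm_num) (norm_pos_iff.mpr (hne y)), fun x => ?_⟩
    by_cases hx : x ∈ s
    · exact (min_le_right _ _).trans (hmin x hx)
    · exact (min_le_left _ _).trans (h3 x hx)
  · refine ⟨1 / 2, by norm_num, fun x => h3 x fun hx => hse ⟨x, hx⟩⟩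

theorem inv_one_sub {a : G → ℂ} (ha : Summable fun x => ‖a x‖ ^ 2)
    (hne : ∀ x, 1 - a x ≠ 0) : MemB (fun x => (1 - a x)⁻¹) := by
  obtain ⟨δ, hδ, hle⟩ := exists_lower_bound ha hne
  have hb : Summable fun x => ‖a x * (1 - a x)⁻¹‖ ^ 2 := by
    refine Summable.of_nonneg_of_le (fun x => sq_nonneg _) (fun x => ?_) (ha.mul_right ((δ⁻¹) ^ 2))
    rw [norm_mul, mul_pow, norm_inv]
    gcongr
    exact hle x
  obtain ⟨r, hr⟩ := BN_of_summable_sq hb
  have h1 : MemB (fun x => 1 + a x * (1 - a x)⁻¹) := (memB_const 1).add ⟨r, hr⟩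
  have h2 : (fun x => 1 + a x * (1 - a x)⁻¹) = fun x => (1 - a x)⁻¹ := by
    ext x
    have := hne x
    field_simp
    ring
  rwa [h2] at h1

/-- Key invertibility lemma. -/
theorem key_inv {r hc ν : G → ℂ} {R : ℝ} (hR : 0 < R) (hr : BN r R)
    (hrc : BN (fun x => r x + hc x) R)
    (h2 : Summable fun x => ‖hc x * ν x‖ ^ 2)
    (tail : ∀ ω : ℝ, 0 < ω → ∃ (ι : Type) (s : Finset ι) (m : ι → G) (b : ι → ℂ) (ν' : G → ℂ),
      BN ν' 1 ∧ (∀ i ∈ s, ‖b i‖ ≤ 1 ∧ ‖r (m i)‖ ≤ R * (1 - ‖b i‖)) ∧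
      (∀ x, ν x = ∑ i ∈ s, b i * ν' (x * (m i)⁻¹)) ∧
      (∀ x, ∀ i ∈ s, ∀ j ∈ s, ν' (x * (m i)⁻¹) ≠ 0 → ν' (x * (m j)⁻¹) ≠ 0 → i = j) ∧
      (∀ i ∈ s, BN (fun x => (r (x * m i) - r (m i)) * ν' x) ω))
    {w : ℂ} (hw : R < ‖w‖) (hne : ∀ x, w - r x - hc x - R * ν x ≠ 0) :
    MemB (fun x => (w - r x - hc x - R * ν x)⁻¹) := by
  classical
  obtain ⟨hv0, C, hC⟩ := inv_const_sub hr hw
  have hC0 := hC.nonneg
  have hw0 : 0 < ‖w‖ := hR.trans hw
  -- choose the tail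
  set ω : ℝ := (‖w‖ / R - 1) / (2 * (C + 1)) with hω
  have hω0 : 0 < ω := by
    rw [hω]
    have : 1 < ‖w‖ / R := by rwa [one_lt_div hR]
    apply div_pos <;> linarith
  obtain ⟨ι, s, m, b, ν', t1, t2, t3, t4, t5⟩ := tail ω hω0
  set ρ : ℝ := R / ‖w‖ * (1 + C * ω) with hρ
  have hρ0 : 0 ≤ ρ := by rw [hρ]; positivity
  have hρ1 : ρ < 1 := by
    rw [hρ, div_mul_eq_mul_div, div_lt_one hw0]
    have h3 : C * ω < ‖w‖ / R - 1 := by
      have h4 : C * ω ≤ (C + 1) * ω := by nlinarith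
      have h5 : (C + 1) * ω = (‖w‖ / R - 1) / 2 := by
        rw [hω]; field_simp
      have : 1 < ‖w‖ / R := by rwa [one_lt_div hR]
      linarith
    calc R * (1 + C * ω) < R * (1 + (‖w‖ / R - 1)) := by gcongr
      _ = ‖w‖ := by field_simp; ring
  -- norms of the pieces
  have hpiece : ∀ i ∈ s, BN (fun x => R * b i * (ν' (x * (m i)⁻¹) * (w - r x)⁻¹)) ρ := by
    intro i hi
    obtain ⟨hb1, hb2⟩ := t2 i hi
    have hwr : ‖w‖ * ‖b i‖ ≤ ‖w - r (m i)‖ := by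
      have h3 : ‖w‖ - ‖r (m i)‖ ≤ ‖w - r (m i)‖ := norm_sub_norm_le _ _
      nlinarith [norm_nonneg (b i)]
    have hwr0 : 0 < ‖w - r (m i)‖ := norm_pos_iff.mpr (hv0 (m i))
    have h4 : BN (fun x => ν' (x * (m i)⁻¹)) 1 := t1.translate _
    have h5 : BN (fun x => (r x - r (m i)) * ν' (x * (m i)⁻¹)) ω := by
      have := (t5 i hi).translate (m i)⁻¹
      simpa [mul_assoc] using this
    have h6 : BN (fun x => (w - r (m i))⁻¹ *
        (ν' (x * (m i)⁻¹) + (w - r x)⁻¹ * ((r x - r (m i)) * ν' (x * (m i)⁻¹))))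
        (‖(w - r (m i))⁻¹‖ * (1 + C * ω)) := (h4.add (hC.mul h5)).smul _
    have h7 : (fun x => (w - r (m i))⁻¹ *
        (ν' (x * (m i)⁻¹) + (w - r x)⁻¹ * ((r x - r (m i)) * ν' (x * (m i)⁻¹)))) =
        fun x => ν' (x * (m i)⁻¹) * (w - r x)⁻¹ := by
      ext x
      have h8 := hv0 x
      have h9 := hv0 (m i)
      field_simp
      ring
    rw [h7] at h6
    refine (h6.smul (R * b i)).mono ?_
    rw [hρ, norm_mul, Complex.norm_real, Real.norm_eq_abs, abs_of_pos hR, norm_inv]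
    have h10 : R * ‖b i‖ * ‖w - r (m i)‖⁻¹ ≤ R / ‖w‖ := by
      rw [← div_eq_mul_inv, div_le_div_iff₀ hwr0 hw0]
      nlinarith
    calc R * ‖b i‖ * (‖w - r (m i)‖⁻¹ * (1 + C * ω))
        = (R * ‖b i‖ * ‖w - r (m i)‖⁻¹) * (1 + C * ω) := by ring
      _ ≤ R / ‖w‖ * (1 + C * ω) := by gcongr
  -- Neumann series for `u = R ν (w - r)⁻¹`
  have hpow : ∀ N, BN (fun x => (R * ν x * (w - r x)⁻¹) ^ N)
      (if N = 0 then 1 else s.card * ρ ^ N) := by
    intro N
    rcases Nat.eq_zero_or_pos N with hN | hN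
    · subst hN
      simpa using BN_const (G := G) 1
    · rw [if_neg hN.ne']
      have h3 : (fun x => (R * ν x * (w - r x)⁻¹) ^ N) =
          fun x => ∑ i ∈ s, (R * b i * (ν' (x * (m i)⁻¹) * (w - r x)⁻¹)) ^ N := by
        ext x
        have h4 : R * ν x * (w - r x)⁻¹ =
            ∑ i ∈ s, R * b i * (ν' (x * (m i)⁻¹) * (w - r x)⁻¹) := by
          rw [t3, Finset.mul_sum, Finset.sum_mul]
          exact Finset.sum_congr rfl fun i _ => by ring
        rw [h4]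
        by_cases hex : ∃ i ∈ s, ν' (x * (m i)⁻¹) ≠ 0
        · obtain ⟨i, hi, hix⟩ := hex
          have h5 : ∀ j ∈ s, j ≠ i → ν' (x * (m j)⁻¹) = 0 := by
            intro j hj hji
            by_contra h6
            exact hji (t4 x j hj i hi h6 hix)
          rw [Finset.sum_eq_single_of_mem i hi (fun j hj hji => by rw [h5 j hj hji]; ring),
            Finset.sum_eq_single_of_mem i hi (fun j hj hji => by
              rw [h5 j hj hji, zero_mul, mul_zero, zero_pow hN.ne'])]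
        · push Not at hex
          rw [Finset.sum_eq_zero (fun i hi => by rw [hex i hi]; ring),
            Finset.sum_eq_zero (fun i hi => by rw [hex i hi, zero_mul, mul_zero, zero_pow hN.ne']),
            zero_pow hN.ne']
      rw [h3]
      have h4 := BN_sum s (fun i hi => (hpiece i hi).pow N)
      rwa [Finset.sum_const, nsmul_eq_mul] at h4
  have hsum : Summable (fun N : ℕ => if N = 0 then (1 : ℝ) else s.card * ρ ^ N) := by
    have h3 : Summable (fun N : ℕ => (s.card : ℝ) * ρ ^ N) :=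
      (summable_geometric_of_lt_one hρ0 hρ1).mul_left _
    refine (summable_nat_add_iff 1).mp ?_
    simpa using (summable_nat_add_iff 1).mpr h3
  obtain ⟨hu1, hu2⟩ := neumann hpow hsum
  -- `E = w - r - R ν`
  have hE : ∀ x, w - r x - R * ν x = (w - r x) * (1 - R * ν x * (w - r x)⁻¹) := by
    intro x
    have := hv0 x
    field_simp
  have hE0 : ∀ x, w - r x - R * ν x ≠ 0 := by
    intro x
    rw [hE]
    refine mul_ne_zero (hv0 x) ?_
    intro h
    have h3 := hu1 x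
    rw [sub_eq_zero] at h
    rw [← h] at h3
    simp at h3
  have hEB : MemB (fun x => (w - r x - R * ν x)⁻¹) := by
    have h3 : (fun x => (w - r x - R * ν x)⁻¹) =
        fun x => (w - r x)⁻¹ * (1 - R * ν x * (w - r x)⁻¹)⁻¹ := by
      ext x
      rw [hE, mul_inv]
    rw [h3]
    exact MemB.mul ⟨C, hC⟩ hu2
  -- `w - r - hc`
  obtain ⟨hrc0, hrcB⟩ := inv_const_sub hrc hw
  have hPB : MemB (fun x => (w - (r x + hc x))⁻¹ * (w - r x - R * ν x)⁻¹) := hrcB.mul hEB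
  obtain ⟨M, hM⟩ := hPB
  set a : G → ℂ := fun x => R * (hc x * ν x) * ((w - (r x + hc x))⁻¹ * (w - r x - R * ν x)⁻¹)
    with ha
  have hasum : Summable fun x => ‖a x‖ ^ 2 := by
    refine Summable.of_nonneg_of_le (fun x => sq_nonneg _) (fun x => ?_) (h2.mul_right ((R * M) ^ 2))
    have h3 := hM.norm_le x
    rw [ha]
    simp only
    rw [norm_mul, norm_mul, Complex.norm_real, Real.norm_eq_abs, abs_of_pos hR, mul_pow, mul_pow]
    calc R ^ 2 * ‖hc x * ν x‖ ^ 2 * ‖(w - (r x + hc x))⁻¹ * (w - r x - R * ν x)⁻¹‖ ^ 2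
        ≤ R ^ 2 * ‖hc x * ν x‖ ^ 2 * M ^ 2 := by gcongr
      _ = ‖hc x * ν x‖ ^ 2 * (R * M) ^ 2 := by ring
  have hfac : ∀ x, w - r x - hc x - R * ν x =
      (w - r x)⁻¹ * ((w - (r x + hc x)) * (w - r x - R * ν x)) * (1 - a x) := by
    intro x
    have e1 := hv0 x
    have e2 := hrc0 x
    have e3 := hE0 x
    rw [ha]
    simp only
    field_simp
    ring
  have ha1 : ∀ x, 1 - a x ≠ 0 := by
    intro x h
    apply hne x
    rw [hfac, h, mul_zero]
  have h3 := (((memB_const w).sub ⟨R, hr⟩).mul ⟨M, hM⟩).mul (inv_one_sub hasum ha1)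
  have h4 : (fun x => (w - r x) * ((w - (r x + hc x))⁻¹ * (w - r x - R * ν x)⁻¹) * (1 - a x)⁻¹) =
      fun x => (w - r x - hc x - R * ν x)⁻¹ := by
    ext x
    rw [hfac, mul_inv, mul_inv, mul_inv, inv_inv]
  rwa [h4] at h3

end Pool.Agent.Lib.MP_9fb650_an
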