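import Pool.Agent.Lib.MP_9fb650_an.Elementary

set_option autoImplicit false

namespace Pool.Agent.Lib.MP_9fb650_an

open Filter Topology

theorem finite_torsion {A : Type} [CommGroup A]
    (h : ∀ p : ℕ, p.Prime → {x : A | x ^ p = 1}.Finite) (j : ℕ) (hj : 0 < j) :
    {x : A | x ^ j = 1}.Finite := by
  revert hj
  induction j using induction_on_primes with
  | zero => intro h0; exact absurd h0 (lt_irrefl _)
  | one => intro _; simp
  | prime_mul p a hp ih =>
    intro hpa
    have ha : 0 < a := Nat.pos_of_mul_pos_left hpa
    have h1 : {x : A | x ^ (p * a) = 1} = (fun x : A => x ^ a) ⁻¹' {x : A | x ^ p = 1} := by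
      ext x
      change x ^ (p * a) = 1 ↔ (x ^ a) ^ p = 1
      rw [← pow_mul, mul_comm a p]
    rw [h1]
    refine (h p hp).preimage' fun b _ => ?_
    by_cases hne : ∃ y : A, y ^ a = b
    · obtain ⟨y, rfl⟩ := hne
      refine ((ih ha).image (fun x => x * y)).subset ?_
      intro x hx
      refine ⟨x * y⁻¹, ?_, by simp⟩
      change (x * y⁻¹) ^ a = 1
      have hx' : x ^ a = y ^ a := hx
      rw [mul_pow, inv_pow, hx', mul_inv_cancel]
    · have : ((fun x : A => x ^ a) ⁻¹' {b}) = ∅ := by
        ext x
        simp only [Set.mem_empty_iff_false, iff_false]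
        exact fun hx => hne ⟨x, hx⟩
      rw [this]
      exact Set.finite_empty

theorem comm_case {G : Type} [Group G] {A : Type} [CommGroup A] [Infinite A] (φ : A →* G)
    (hφ : Function.Injective φ) {f : G → ℂ} (hf : MemB f) : Concl G f := by
  by_cases h : ∀ p : ℕ, p.Prime → {x : A | x ^ p = 1}.Finite
  · exact case_one (finite_torsion h) φ hφ hf
  · push Not at h
    obtain ⟨p, hp, hinf⟩ := h
    let S : Subgroup A :=
      { carrier := {x | x ^ p = 1}
        one_mem' := one_pow p
        mul_mem' := fun {a b} ha hb => by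
          change (a * b) ^ p = 1
          rw [mul_pow, show a ^ p = 1 from ha, show b ^ p = 1 from hb, one_mul]
        inv_mem' := fun {a} ha => by
          change a⁻¹ ^ p = 1
          rw [inv_pow, show a ^ p = 1 from ha, inv_one] }
    have hS : Infinite S := hinf.to_subtype
    refine case_two hp (A := S) (fun x => ?_) (φ.comp S.subtype)
      (hφ.comp Subtype.val_injective) hf
    ext
    exact x.2

theorem finite_case {G : Type} [Group G] [Finite G] {f : G → ℂ} (hf : MemB f) : Concl G f := by
  have hall : ∀ u : G → ℂ, MemB u := fun u => by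
    have := Fintype.ofFinite G
    exact BN_of_summable_sq (Summable.of_finite)
  refine ⟨f, (mem_BSet _).mpr hf, 0, (mem_BSet _).mpr (hall _), spec_eq fun z _ => hall _,
    spec_eq fun z _ => hall _, by simp⟩

theorem main {G : Type} [Group G]
    (hG : Finite G ∨ ∃ A : Subgroup G, (A : Set G).Infinite ∧ ∀ a ∈ A, ∀ b ∈ A, a * b = b * a)
    {f : G → ℂ} (hf : MemB f) : Concl G f := by
  rcases hG with hG | ⟨A, hA, hcomm⟩
  · exact finite_case hf
  · let _ : CommGroup A :=
      { (inferInstance : Group A) with
        mul_comm := fun a b => Subtype.ext (hcomm a a.2 b b.2) }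
    have : Infinite A := hA.to_subtype
    exact comm_case (A := A) A.subtype Subtype.val_injective hf

end Pool.Agent.Lib.MP_9fb650_an
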