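import Pool.Agent.Lib.MP_9fb650_an.Assemble

set_option autoImplicit false

namespace Pool.Agent.Lib.MP_9fb650_an

open Filter Topology
open scoped ComplexOrder ComplexConjugate

section gen

variable {G : Type} [Group G]

open Classical in
/-- indicator of a subgroup -/
noncomputable def oneS (S : Subgroup G) (x : G) : ℂ := if x ∈ S then 1 else 0

theorem BN_oneS (S : Subgroup G) : BN (oneS S) 1 := by
  classical
  have h1 : BN (fun _ : S => (1 : ℂ)) 1 := by simpa using BN_const (G := S) 1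
  have h2 := h1.extend S.subtype Subtype.val_injective
  have h3 : Function.extend S.subtype (fun _ : S => (1 : ℂ)) 0 = oneS S := by
    ext x
    by_cases hx : x ∈ S
    · have : x = S.subtype ⟨x, hx⟩ := rfl
      rw [oneS, if_pos hx, this, (show Function.Injective S.subtype from
        Subtype.val_injective).extend_apply]
    · rw [oneS, if_neg hx, Function.extend_apply']
      · rfl
      · rintro ⟨a, ha⟩
        apply hx
        rw [← ha]
        exact a.2
  rwa [h3] at h2

theorem MemB_sum {ι : Type*} (s : Finset ι) {F : ι → G → ℂ} (hF : ∀ i ∈ s, MemB (F i)) :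
    MemB (fun x => ∑ i ∈ s, F i x) := by
  classical
  choose! r hr using hF
  exact ⟨_, BN_sum s hr⟩

theorem exists_V {A : Type} [Group A] (S : Subgroup A) (hS : (S : Set A).Finite) :
    ∃ V : L2 A ℂ, ‖V‖ = 1 ∧ (∀ x, inner ℂ V (Lsh x V) = oneS S x) ∧ ∀ y, V y ≠ 0 → y ∈ S := by
  classical
  set s := hS.toFinset with hs
  have hmem : ∀ x, x ∈ s ↔ x ∈ S := fun x => by rw [hs, Set.Finite.mem_toFinset]; rfl
  have hne : s.Nonempty := ⟨1, (hmem 1).mpr S.one_mem⟩
  have hcard : (0 : ℝ) < s.card := by exact_mod_cast hne.card_pos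
  set c : ℝ := (Real.sqrt s.card)⁻¹ with hc
  have hcc : c * c = (s.card : ℝ)⁻¹ := by
    rw [hc, ← mul_inv, Real.mul_self_sqrt hcard.le]
  let V : L2 A ℂ := ⟨fun y => (c : ℂ) * oneS S y, (memL2_iff (G := A) _).mpr (by
    refine summable_of_ne_finset_zero (s := s) fun y hy => ?_
    rw [oneS, if_neg (fun h => hy ((hmem y).mpr h))]
    simp)⟩
  have hV : ∀ y, V y = (c : ℂ) * oneS S y := fun y => rfl
  have hin : ∀ x, inner ℂ V (Lsh x V) = oneS S x := by
    intro x
    rw [L2_inner, tsum_eq_sum (s := s)]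
    · have h1 : ∀ y ∈ s, inner ℂ (V y) ((Lsh x V) y) = (s.card : ℂ)⁻¹ * oneS S x := by
        intro y hy
        rw [Lsh_apply, hV, hV, RCLike.inner_apply]
        have hy' : y ∈ S := (hmem y).mp hy
        have e1 : oneS S y = 1 := by rw [oneS, if_pos hy']
        have e2 : oneS S (x⁻¹ * y) = oneS S x := by
          unfold oneS
          have : x⁻¹ * y ∈ S ↔ x ∈ S := by
            rw [S.mul_mem_cancel_right hy', S.inv_mem_iff]
          simp only [this]
        rw [e1, e2, mul_one, Complex.conj_ofReal]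
        have h3 : (c : ℂ) * c = (s.card : ℂ)⁻¹ := by
          rw [← Complex.ofReal_mul, hcc]
          push_cast
          rfl
        rw [← h3]
        ring
      rw [Finset.sum_congr rfl h1, Finset.sum_const, nsmul_eq_mul]
      have : (s.card : ℂ) ≠ 0 := by exact_mod_cast hcard.ne'
      field_simp
    · intro y hy
      rw [hV]
      have : oneS S y = 0 := by rw [oneS, if_neg (fun h => hy ((hmem y).mpr h))]
      rw [this, mul_zero, inner_zero_left]
  refine ⟨V, ?_, hin, ?_⟩
  · have h3 := hin 1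
    rw [Lsh_one] at h3
    have h4 := inner_self_eq_norm_sq (𝕜 := ℂ) V
    rw [h3, oneS, if_pos S.one_mem, RCLike.one_re] at h4
    nlinarith [norm_nonneg V]
  · intro y hy
    by_contra h
    apply hy
    rw [hV, oneS, if_neg h, mul_zero]

end gen

section

variable (p : ℕ)

/-- the model group -/
abbrev Vp : Type := Multiplicative (ℕ →₀ ZMod p)

/-- coordinates -/
def co (x : Vp p) (i : ℕ) : ZMod p := Multiplicative.toAdd x i

theorem co_mul (x y : Vp p) (i : ℕ) : co p (x * y) i = co p x i + co p y i := rfl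

theorem co_inv (x : Vp p) (i : ℕ) : co p x⁻¹ i = -co p x i := rfl

theorem co_one (i : ℕ) : co p 1 i = 0 := rfl

theorem co_ext {x y : Vp p} (h : ∀ i, co p x i = co p y i) : x = y := Finsupp.ext h

/-- subgroups by vanishing coordinates -/
def Sg (T : Set ℕ) : Subgroup (Vp p) where
  carrier := {x | ∀ i ∈ T, co p x i = 0}
  one_mem' := fun _ _ => rfl
  mul_mem' := fun ha hb i hi => by rw [co_mul, ha i hi, hb i hi, add_zero]
  inv_mem' := fun ha i hi => by rw [co_inv, ha i hi, neg_zero]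

theorem mem_Sg (T : Set ℕ) (x : Vp p) : x ∈ Sg p T ↔ ∀ i ∈ T, co p x i = 0 := Iff.rfl

/-- natural functions -/
def Nat' (F : Vp p → ℂ) : Prop := ∀ ε : ℝ, 0 < ε → ∃ K : ℕ, ∀ m,
  BN (fun x => (F (x * m) - F m) * oneS (Sg p {i | i < K}) x) ε

variable {p}

theorem inv_of_Nat [NeZero p] {F : Vp p → ℂ} (hF : Nat' p F) {z : ℂ}
    (hz : z ∉ closure (Set.range F)) : MemB (fun x => (z - F x)⁻¹) := by
  classical
  obtain ⟨δ, hδ, hle⟩ : ∃ δ : ℝ, 0 < δ ∧ ∀ x, δ ≤ ‖z - F x‖ := by
    rw [Metric.mem_closure_iff] at hz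
    push Not at hz
    obtain ⟨δ, hδ, h⟩ := hz
    refine ⟨δ, hδ, fun x => ?_⟩
    have := h _ ⟨x, rfl⟩
    rwa [dist_eq_norm] at this
  obtain ⟨K, hK⟩ := hF (δ / 2) (by positivity)
  -- representatives
  set Q : Finset (ℕ →₀ ZMod p) := (Finset.range K).finsupp (fun _ => Finset.univ) with hQ
  have hpiece : ∀ q : Vp p, MemB (fun x => oneS (Sg p {i | i < K}) (x * q⁻¹) * (z - F x)⁻¹) := by
    intro q
    have hzq := hle q
    have hzq0 : z - F q ≠ 0 := by
      intro h
      rw [h, norm_zero] at hzq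
      linarith
    have h1 := (hK q).smul (z - F q)⁻¹
    have h2 : ‖(z - F q)⁻¹‖ * (δ / 2) ≤ 1 / 2 := by
      rw [norm_inv]
      have : ‖z - F q‖⁻¹ ≤ δ⁻¹ := by gcongr
      calc _ ≤ δ⁻¹ * (δ / 2) := by gcongr
        _ = 1 / 2 := by field_simp
    have h3 := h1.mono h2
    obtain ⟨h4, h5⟩ := neumann (fun N => h3.pow N)
      (summable_geometric_of_lt_one (by norm_num) (by norm_num))
    have h6 := (MemB.mul ⟨1, BN_oneS (Sg p {i | i < K})⟩ (memB_const (z - F q)⁻¹)).mul h5
    obtain ⟨r, hr⟩ := h6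
    refine ⟨r, ?_⟩
    have h7 := hr.translate q⁻¹
    have h8 : (fun x => oneS (Sg p {i | i < K}) (x * q⁻¹) * (z - F q)⁻¹ *
        (1 - (z - F q)⁻¹ * ((F (x * q⁻¹ * q) - F q) * oneS (Sg p {i | i < K}) (x * q⁻¹)))⁻¹) =
        fun x => oneS (Sg p {i | i < K}) (x * q⁻¹) * (z - F x)⁻¹ := by
      ext x
      rw [inv_mul_cancel_right]
      by_cases hx : x * q⁻¹ ∈ Sg p {i | i < K}
      · have e1 : oneS (Sg p {i | i < K}) (x * q⁻¹) = 1 := by rw [oneS, if_pos hx]
        rw [e1, one_mul, mul_one, one_mul, ← mul_inv]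
        congr 1
        field_simp
        ring
      · have e1 : oneS (Sg p {i | i < K}) (x * q⁻¹) = 0 := by rw [oneS, if_neg hx]
        rw [e1]
        ring
    rwa [h8] at h7
  have h1 := MemB_sum Q (F := fun q x => oneS (Sg p {i | i < K})
    (x * (Multiplicative.ofAdd q)⁻¹) * (z - F x)⁻¹) (fun q _ => hpiece (Multiplicative.ofAdd q))
  have h2 : (fun x => ∑ q ∈ Q, oneS (Sg p {i | i < K})
    (x * (Multiplicative.ofAdd q)⁻¹) * (z - F x)⁻¹) = fun x => (z - F x)⁻¹ := by
    ext x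
    rw [← Finset.sum_mul]
    have h3 : ∑ q ∈ Q, oneS (Sg p {i | i < K}) (x * (Multiplicative.ofAdd q)⁻¹) = 1 := by
      set q₀ : ℕ →₀ ZMod p := (Multiplicative.toAdd x).filter (fun i => i < K) with hq₀
      have hq₀Q : q₀ ∈ Q := by
        rw [hQ, Finset.mem_finsupp_iff]
        refine ⟨fun i hi => ?_, fun i _ => Finset.mem_univ _⟩
        rw [hq₀, Finsupp.support_filter, Finset.mem_filter] at hi
        exact Finset.mem_range.mpr hi.2
      rw [Finset.sum_eq_single_of_mem q₀ hq₀Q]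
      · rw [oneS, if_pos]
        intro i hi
        rw [co_mul, co_inv]
        have : co p (Multiplicative.ofAdd q₀) i = co p x i := by
          change q₀ i = _
          rw [hq₀, Finsupp.filter_apply, if_pos (show i < K from hi)]
          rfl
        rw [this, add_neg_cancel]
      · intro q hq hne
        rw [oneS, if_neg]
        intro hmem
        apply hne
        ext1 i
        by_cases hi : i < K
        · have := hmem i hi
          rw [co_mul, co_inv, add_neg_eq_zero] at this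
          rw [hq₀, Finsupp.filter_apply, if_pos hi]
          exact this.symm
        · rw [hq₀, Finsupp.filter_apply, if_neg hi]
          rw [hQ, Finset.mem_finsupp_iff] at hq
          by_contra hc
          exact hi (Finset.mem_range.mp (hq.1 (Finsupp.mem_support_iff.mpr hc)))
    rw [h3, one_mul]
  rwa [h2] at h1

theorem Nat'.sub {F F' : Vp p → ℂ} (h : Nat' p F) (h' : Nat' p F') :
    Nat' p (fun x => F x - F' x) := by
  intro ε hε
  obtain ⟨K, hK⟩ := h (ε / 2) (by positivity)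
  obtain ⟨K', hK'⟩ := h' (ε / 2) (by positivity)
  refine ⟨max K K', fun m => ?_⟩
  have e : ∀ L, L ≤ max K K' → ∀ x, oneS (Sg p {i | i < L}) x * oneS (Sg p {i | i < max K K'}) x =
      oneS (Sg p {i | i < max K K'}) x := by
    intro L hL x
    unfold oneS
    by_cases hx : x ∈ Sg p {i | i < max K K'}
    · have : x ∈ Sg p {i | i < L} := fun i hi => hx i (lt_of_lt_of_le hi hL)
      rw [if_pos hx, if_pos this, one_mul]
    · rw [if_neg hx, mul_zero]
  have h1 := ((hK m).mul (BN_oneS (Sg p {i | i < max K K'}))).sub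
    ((hK' m).mul (BN_oneS (Sg p {i | i < max K K'})))
  have h2 : (fun x => (F (x * m) - F m) * oneS (Sg p {i | i < K}) x *
      oneS (Sg p {i | i < max K K'}) x - (F' (x * m) - F' m) * oneS (Sg p {i | i < K'}) x *
      oneS (Sg p {i | i < max K K'}) x) =
      fun x => ((F (x * m) - F' (x * m)) - (F m - F' m)) * oneS (Sg p {i | i < max K K'}) x := by
    ext x
    rw [mul_assoc, mul_assoc, e K (le_max_left _ _), e K' (le_max_right _ _)]
    ring
  rw [h2] at h1
  exact h1.mono (by linarith)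

theorem Nat'.smul {F : Vp p → ℂ} (h : Nat' p F) (c : ℂ) : Nat' p (fun x => c * F x) := by
  intro ε hε
  obtain ⟨K, hK⟩ := h (ε / (‖c‖ + 1)) (by positivity)
  refine ⟨K, fun m => ?_⟩
  have h1 := (hK m).smul c
  have h2 : (fun x => c * ((F (x * m) - F m) * oneS (Sg p {i | i < K}) x)) =
      fun x => (c * F (x * m) - c * F m) * oneS (Sg p {i | i < K}) x := by
    ext x; ring
  rw [h2] at h1
  refine h1.mono ?_
  rw [mul_div_assoc', div_le_iff₀ (by positivity)]
  nlinarith [norm_nonneg c]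

/-- digits -/
noncomputable def dg (k : ℕ) (x : Vp p) : ℂ := 1 - oneS (Sg p {k}) x

theorem dg_eq (k : ℕ) (x : Vp p) [Decidable (co p x k = 0)] :
    dg k x = if co p x k = 0 then 0 else 1 := by
  unfold dg oneS
  have : x ∈ Sg p {k} ↔ co p x k = 0 := by simp [mem_Sg]
  by_cases h : co p x k = 0
  · rw [if_pos (this.mpr h), if_pos h, sub_self]
  · rw [if_neg (fun h' => h (this.mp h')), if_neg h, sub_zero]

theorem BN_dg (k : ℕ) : BN (dg (p := p) k) 2 := by
  have h1 := (BN_const (G := Vp p) 1).sub (BN_oneS (Sg p {k}))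
  exact h1.mono (by norm_num)

theorem norm_dg_le (k : ℕ) (x : Vp p) : ‖dg k x‖ ≤ 1 := by
  classical
  rw [dg_eq]
  split_ifs <;> simp

/-- combined digits -/
noncomputable def dd (k : ℕ) (x : Vp p) : ℂ :=
  (1 / 2 : ℂ) ^ k * (dg (2 * k) x + Complex.I * dg (2 * k + 1) x)

theorem BN_dd (k : ℕ) : BN (dd (p := p) k) (4 * (1 / 2) ^ k) := by
  have h1 := ((BN_dg (p := p) (2 * k)).add ((BN_dg (p := p) (2 * k + 1)).smul Complex.I)).smul
    ((1 / 2 : ℂ) ^ k)
  refine h1.mono ?_
  rw [Complex.norm_I, norm_pow]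
  norm_num
  linarith

/-- the auxiliary function -/
noncomputable def uu (x : Vp p) : ℂ := ∑' k, dd k x - (1 + Complex.I)

theorem summable_half : Summable fun k : ℕ => 4 * (1 / 2 : ℝ) ^ k :=
  (summable_geometric_of_lt_one (by norm_num) (by norm_num)).mul_left _

theorem summable_dd (x : Vp p) : Summable fun k => dd k x :=
  Summable.of_norm_bounded summable_half fun k => (BN_dd k).norm_le x

theorem MemB_uu : MemB (uu (p := p)) :=
  MemB.sub ⟨_, BN_tsum BN_dd summable_half⟩ (memB_const _)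

theorem dd_diff (K k : ℕ) (hk : k < K) (x m : Vp p) :
    (dd k (x * m) - dd k m) * oneS (Sg p {i | i < 2 * K}) x = 0 := by
  classical
  by_cases hx : x ∈ Sg p {i | i < 2 * K}
  · have h1 : co p x (2 * k) = 0 := hx _ (show 2 * k < 2 * K by omega)
    have h2 : co p x (2 * k + 1) = 0 := hx _ (show 2 * k + 1 < 2 * K by omega)
    have h3 : dd k (x * m) = dd k m := by
      unfold dd
      rw [dg_eq, dg_eq, dg_eq, dg_eq, co_mul, co_mul, h1, h2, zero_add, zero_add]
    rw [h3, sub_self, zero_mul]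
  · rw [oneS, if_neg hx, mul_zero]

theorem Nat_uu : Nat' p (uu (p := p)) := by
  intro ε hε
  obtain ⟨K, hK⟩ := exists_pow_lt_of_lt_one (show 0 < ε / 16 by positivity)
      (show (1 / 2 : ℝ) < 1 by norm_num)
  refine ⟨2 * K, fun m => ?_⟩
  set c : ℕ → ℝ := fun k => if k < K then 0 else 8 * (1 / 2) ^ k with hc
  have hcK : ∀ k, c (k + K) = 8 * (1 / 2) ^ K * (1 / 2) ^ k := by
    intro k
    rw [hc]
    simp only
    rw [if_neg (by omega), pow_add]
    ring
  have hcs' : Summable fun k => c (k + K) := by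
    simp only [hcK]
    exact (summable_geometric_of_lt_one (by norm_num) (by norm_num)).mul_left _
  have hcs : Summable c := (summable_nat_add_iff K).mp hcs'
  have hct : ∑' k, c k ≤ ε := by
    rw [← hcs.sum_add_tsum_nat_add K]
    have h1 : ∑ k ∈ Finset.range K, c k = 0 := by
      refine Finset.sum_eq_zero fun k hk => ?_
      rw [hc]
      simp only
      rw [if_pos (Finset.mem_range.mp hk)]
    rw [h1, zero_add]
    simp only [hcK]
    rw [tsum_mul_left, tsum_geometric_of_lt_one (by norm_num) (by norm_num)]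
    norm_num
    linarith
  have hterm : ∀ k, BN (fun x => (dd k (x * m) - dd k m) * oneS (Sg p {i | i < 2 * K}) x) (c k) := by
    intro k
    by_cases hk : k < K
    · have h1 : (fun x => (dd k (x * m) - dd k m) * oneS (Sg p {i | i < 2 * K}) x) =
          fun _ => (0 : ℂ) := by
        ext x
        exact dd_diff K k hk x m
      rw [h1, hc]
      simp only
      rw [if_pos hk]
      simpa using BN_const (G := Vp p) 0
    · have h1 := (((BN_dd (p := p) k).translate m).sub (BN_const (dd k m))).mul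
        (BN_oneS (Sg p {i | i < 2 * K}))
      refine h1.mono ?_
      rw [hc]
      simp only
      rw [if_neg hk]
      have := (BN_dd (p := p) k).norm_le m
      linarith
  have h1 := (BN_tsum hterm hcs).mono hct
  have h2 : (fun x => ∑' k, (dd k (x * m) - dd k m) * oneS (Sg p {i | i < 2 * K}) x) =
      fun x => (uu (x * m) - uu m) * oneS (Sg p {i | i < 2 * K}) x := by
    ext x
    rw [tsum_mul_right, (summable_dd _).tsum_sub (summable_dd _)]
    unfold uu
    ring
  rwa [h2] at h1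

/-- binary expansions -/
theorem dig (K : ℕ) {s : ℝ} (hs0 : 0 ≤ s) (hs2 : s ≤ 2) : ∃ S : Finset ℕ, (∀ i ∈ S, i < K) ∧
    0 ≤ s - ∑ i ∈ S, (1 / 2 : ℝ) ^ i ∧ s - ∑ i ∈ S, (1 / 2 : ℝ) ^ i ≤ 2 * (1 / 2) ^ K := by
  classical
  induction K with
  | zero => exact ⟨∅, by simp, by simpa using hs0, by simpa using hs2⟩
  | succ K ih =>
    obtain ⟨S, h1, h2, h3⟩ := ih
    by_cases h : (1 / 2 : ℝ) ^ K ≤ s - ∑ i ∈ S, (1 / 2 : ℝ) ^ i
    · have hK : K ∉ S := fun hK => lt_irrefl _ (h1 K hK)
      refine ⟨insert K S, ?_, ?_, ?_⟩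
      · intro i hi
        rw [Finset.mem_insert] at hi
        rcases hi with rfl | hi
        · omega
        · have := h1 i hi; omega
      · rw [Finset.sum_insert hK]; linarith
      · rw [Finset.sum_insert hK, pow_succ]; linarith
    · push Not at h
      refine ⟨S, fun i hi => (h1 i hi).trans (Nat.lt_succ_self _), h2, ?_⟩
      rw [pow_succ]; linarith

theorem uu_dense [Fact (1 < p)] {z : ℂ} (hz : ‖z‖ ≤ 1) {ε : ℝ} (hε : 0 < ε) :
    ∃ x : Vp p, ‖uu x - z‖ < ε := by
  classical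
  obtain ⟨K, hK⟩ := exists_pow_lt_of_lt_one (show 0 < ε / 4 by positivity)
      (show (1 / 2 : ℝ) < 1 by norm_num)
  have hre := abs_le.mp ((Complex.abs_re_le_norm z).trans hz)
  have him := abs_le.mp ((Complex.abs_im_le_norm z).trans hz)
  obtain ⟨S₁, a1, a2, a3⟩ := dig K (s := z.re + 1) (by linarith) (by linarith)
  obtain ⟨S₂, b1, b2, b3⟩ := dig K (s := z.im + 1) (by linarith) (by linarith)
  let y : ℕ →₀ ZMod p := Finsupp.onFinset (Finset.range (2 * K))
    (fun i => if (∃ k ∈ S₁, i = 2 * k) ∨ (∃ k ∈ S₂, i = 2 * k + 1) then 1 else 0) (by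
      intro i hi
      rw [Finset.mem_range]
      by_contra hc
      apply hi
      rw [if_neg]
      rintro (⟨k, hk, rfl⟩ | ⟨k, hk, rfl⟩)
      · have := a1 k hk; omega
      · have := b1 k hk; omega)
  have h10 : (1 : ZMod p) ≠ 0 := by
    have : Nontrivial (ZMod p) := ZMod.nontrivial p
    exact one_ne_zero
  have hy1 : ∀ k, dg (2 * k) (Multiplicative.ofAdd y) = if k ∈ S₁ then 1 else 0 := by
    intro k
    rw [dg_eq]
    have : co p (Multiplicative.ofAdd y) (2 * k) =
        if (∃ k' ∈ S₁, 2 * k = 2 * k') ∨ (∃ k' ∈ S₂, 2 * k = 2 * k' + 1) then 1 else 0 := rfl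
    rw [this]
    by_cases hk : k ∈ S₁
    · rw [if_pos (Or.inl ⟨k, hk, rfl⟩), if_neg h10, if_pos hk]
    · rw [if_neg (c := (∃ k' ∈ S₁, 2 * k = 2 * k') ∨ (∃ k' ∈ S₂, 2 * k = 2 * k' + 1)), if_pos rfl,
        if_neg hk]
      rintro (⟨k', hk', h⟩ | ⟨k', hk', h⟩)
      · have : k = k' := by omega
        exact hk (this ▸ hk')
      · omega
  have hy2 : ∀ k, dg (2 * k + 1) (Multiplicative.ofAdd y) = if k ∈ S₂ then 1 else 0 := by
    intro k
    rw [dg_eq]
    have : co p (Multiplicative.ofAdd y) (2 * k + 1) =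
        if (∃ k' ∈ S₁, 2 * k + 1 = 2 * k') ∨ (∃ k' ∈ S₂, 2 * k + 1 = 2 * k' + 1) then 1 else 0 := rfl
    rw [this]
    by_cases hk : k ∈ S₂
    · rw [if_pos (Or.inr ⟨k, hk, rfl⟩), if_neg h10, if_pos hk]
    · rw [if_neg (c := (∃ k' ∈ S₁, 2 * k + 1 = 2 * k') ∨ (∃ k' ∈ S₂, 2 * k + 1 = 2 * k' + 1)),
        if_pos rfl, if_neg hk]
      rintro (⟨k', hk', h⟩ | ⟨k', hk', h⟩)
      · omega
      · have : k = k' := by omega
        exact hk (this ▸ hk')
  refine ⟨Multiplicative.ofAdd y, ?_⟩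
  have hsum : ∑' k, dd k (Multiplicative.ofAdd y) =
      ((∑ i ∈ S₁, (1 / 2 : ℝ) ^ i : ℝ) : ℂ) + Complex.I * ((∑ i ∈ S₂, (1 / 2 : ℝ) ^ i : ℝ) : ℂ) := by
    have e1 : ∀ k, dd k (Multiplicative.ofAdd y) =
        (if k ∈ S₁ then (1 / 2 : ℂ) ^ k else 0) +
          Complex.I * (if k ∈ S₂ then (1 / 2 : ℂ) ^ k else 0) := by
      intro k
      unfold dd
      rw [hy1, hy2]
      split_ifs <;> ring
    have s1 : Summable fun k => (if k ∈ S₁ then (1 / 2 : ℂ) ^ k else 0) :=
      summable_of_ne_finset_zero (s := S₁) fun k hk => if_neg hk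
    have s2 : Summable fun k => (if k ∈ S₂ then (1 / 2 : ℂ) ^ k else 0) :=
      summable_of_ne_finset_zero (s := S₂) fun k hk => if_neg hk
    simp only [e1]
    rw [s1.tsum_add (s2.mul_left _), tsum_mul_left,
      tsum_eq_sum (s := S₁) (fun k hk => if_neg hk), tsum_eq_sum (s := S₂) (fun k hk => if_neg hk),
      Finset.sum_congr rfl (fun k hk => if_pos hk), Finset.sum_congr rfl (fun k hk => if_pos hk)]
    push_cast
    rfl
  unfold uu
  rw [hsum]
  have hzz : z = (z.re : ℂ) + Complex.I * (z.im : ℂ) := by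
    rw [mul_comm]; exact (Complex.re_add_im z).symm
  have h3 : ((∑ i ∈ S₁, (1 / 2 : ℝ) ^ i : ℝ) : ℂ) + Complex.I * ((∑ i ∈ S₂, (1 / 2 : ℝ) ^ i : ℝ) : ℂ)
      - (1 + Complex.I) - z = -((z.re + 1 - ∑ i ∈ S₁, (1 / 2 : ℝ) ^ i : ℝ) : ℂ) -
        Complex.I * ((z.im + 1 - ∑ i ∈ S₂, (1 / 2 : ℝ) ^ i : ℝ) : ℂ) := by
    conv_lhs => rw [hzz]
    push_cast
    ring
  rw [h3]
  refine (norm_sub_le _ _).trans_lt ?_
  rw [norm_neg, norm_mul, Complex.norm_I, one_mul, Complex.norm_real, Complex.norm_real,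
    Real.norm_eq_abs, Real.norm_eq_abs, abs_of_nonneg a2, abs_of_nonneg b2]
  linarith

theorem uu_shift (x : Vp p) (k : ℕ) (c : ZMod p) :
    ‖uu (x * Multiplicative.ofAdd (Finsupp.single (2 * k) c)) - uu x‖ ≤ 2 * (1 / 2) ^ k := by
  classical
  set e : Vp p := Multiplicative.ofAdd (Finsupp.single (2 * k) c) with he
  have hco : ∀ i, i ≠ 2 * k → co p (x * e) i = co p x i := by
    intro i hi
    rw [co_mul]
    have : co p e i = 0 := by
      change (Finsupp.single (2 * k) c) i = 0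
      rw [Finsupp.single_apply, if_neg (Ne.symm hi)]
    rw [this, add_zero]
  have h1 : uu (x * e) - uu x = ∑' l, (dd l (x * e) - dd l x) := by
    rw [(summable_dd _).tsum_sub (summable_dd _)]
    unfold uu
    ring
  have h2 : ∀ l, l ≠ k → dd l (x * e) - dd l x = 0 := by
    intro l hl
    unfold dd
    rw [dg_eq, dg_eq, dg_eq, dg_eq, hco _ (by omega), hco _ (by omega), sub_self]
  rw [h1, tsum_eq_single k h2]
  have h3 : dd k (x * e) - dd k x = (1 / 2 : ℂ) ^ k * (dg (2 * k) (x * e) - dg (2 * k) x) := by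
    unfold dd
    have : dg (2 * k + 1) (x * e) = dg (2 * k + 1) x := by
      rw [dg_eq, dg_eq, hco _ (by omega)]
    rw [this]
    ring
  rw [h3, norm_mul, norm_pow]
  have h4 := norm_sub_le (dg (2 * k) (x * e)) (dg (2 * k) x)
  have h5 := norm_dg_le (2 * k) (x * e)
  have h6 := norm_dg_le (2 * k) x
  have h7 : ‖(1 / 2 : ℂ)‖ = 1 / 2 := by norm_num
  rw [h7]
  have h8 : (0 : ℝ) ≤ (1 / 2) ^ k := by positivity
  nlinarith

end

end Pool.Agent.Lib.MP_9fb650_an
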