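import Pool.Agent.Lib.MP_9fb650_an.Choice

set_option autoImplicit false

namespace Pool.Agent.Lib.MP_9fb650_an

open Filter Topology
open scoped ComplexOrder ComplexConjugate

/-- idempotent ultrafilters -/
def Idem {A : Type} [Group A] (F : Ultrafilter A) : Prop :=
  ∀ p : A → Prop, (∀ᶠ m in (F : Filter A), p m) ↔
    ∀ᶠ m in (F : Filter A), ∀ᶠ m' in (F : Filter A), p (m * m')

theorem exists_idem (A : Type) [Group A] [Infinite A] :
    ∃ F : Ultrafilter A, Idem F ∧ (F : Filter A) ≤ cofinite := by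
  let _ : Semigroup (Ultrafilter A) := Ultrafilter.semigroup
  let s : Set (Ultrafilter A) := {F | (F : Filter A) ≤ cofinite}
  have hs : s = ⋂ a : A, {F : Ultrafilter A | ({a}ᶜ : Set A) ∈ F} := by
    ext F
    simp only [s, Set.mem_iInter]
    constructor
    · intro h a
      exact h (by simp)
    · intro h t ht
      rw [mem_cofinite] at ht
      have h1 : t = ⋂ a ∈ tᶜ, ({a}ᶜ : Set A) := by
        ext x
        simp only [Set.mem_iInter, Set.mem_compl_iff, Set.mem_singleton_iff]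
        constructor
        · intro hx a ha hxa
          rw [hxa] at hx
          exact ha hx
        · intro h2
          by_contra hx
          exact h2 x hx rfl
      rw [h1]
      exact (biInter_mem ht).mpr fun a _ => h a
  have hne : s.Nonempty := ⟨hyperfilter A, hyperfilter_le_cofinite⟩
  have hcl : IsClosed s := by
    rw [hs]
    exact isClosed_iInter fun a => ultrafilter_isClosed_basic _
  have hmul : ∀ᵉ (x ∈ s) (y ∈ s), x * y ∈ s := by
    intro x hx y hy t ht
    change ∀ᶠ m in ((x * y : Ultrafilter A) : Filter A), m ∈ t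
    rw [Ultrafilter.eventually_mul]
    refine Eventually.of_forall fun m => ?_
    have h1 : {m' | m * m' ∈ t} ∈ (cofinite : Filter A) := by
      rw [mem_cofinite] at ht ⊢
      exact ht.preimage (f := fun m' => m * m') (mul_right_injective m).injOn
    exact hy h1
  obtain ⟨F, hF, hFF⟩ := exists_idempotent_in_compact_subsemigroup
    (fun V : Ultrafilter A => Ultrafilter.continuous_mul_left V) s hne hcl.isCompact hmul
  refine ⟨F, fun p => ?_, hF⟩
  rw [← Ultrafilter.eventually_mul, hFF]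

section

variable {A : Type} [CommGroup A] {H : Type} [NormedAddCommGroup H] [InnerProductSpace ℂ H]
  [CompleteSpace H] (π : A →* unitary (H →L[ℂ] H)) (F : Ultrafilter A)

/-- the action -/
noncomputable def Ua (x : A) : H →L[ℂ] H := (π x : H →L[ℂ] H)

theorem Ua_mul (x y : A) (v : H) : Ua π (x * y) v = Ua π x (Ua π y v) := by
  unfold Ua
  rw [map_mul]
  rfl

theorem Ua_one (v : H) : Ua π 1 v = v := by
  unfold Ua
  rw [map_one]
  rfl

theorem Ua_comm (x y : A) (v : H) : Ua π x (Ua π y v) = Ua π y (Ua π x v) := by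
  rw [← Ua_mul, ← Ua_mul, mul_comm]

theorem Ua_inner (x : A) (u v : H) : inner ℂ (Ua π x u) (Ua π x v) = inner ℂ u v := by
  have h1 : inner ℂ (Ua π x u) (Ua π x v) =
      inner ℂ u ((star (π x : H →L[ℂ] H)) ((π x : H →L[ℂ] H) v)) := by
    rw [ContinuousLinearMap.star_eq_adjoint, ContinuousLinearMap.adjoint_inner_right]
    rfl
  have h2 : (star (π x : H →L[ℂ] H)) ((π x : H →L[ℂ] H) v) = v := by
    have h3 : (star (π x : H →L[ℂ] H)) * (π x : H →L[ℂ] H) = 1 := Unitary.coe_star_mul_self _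
    have h4 := DFunLike.congr_fun h3 v
    exact h4
  rw [h1, h2]

theorem Ua_norm (x : A) (v : H) : ‖Ua π x v‖ = ‖v‖ := by
  have h1 := Ua_inner π x v v
  have h2 := inner_self_eq_norm_sq (𝕜 := ℂ) (Ua π x v)
  have h3 := inner_self_eq_norm_sq (𝕜 := ℂ) v
  rw [h1, h3] at h2
  exact ((sq_eq_sq₀ (norm_nonneg _) (norm_nonneg _)).mp h2).symm

theorem Ua_adj (x : A) (u v : H) : inner ℂ (Ua π x u) v = inner ℂ u (Ua π x⁻¹ v) := by
  have h := Ua_inner π x u (Ua π x⁻¹ v)
  rw [← Ua_mul, mul_inv_cancel, Ua_one] at h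
  exact h

theorem Ua_inv_sub (x : A) (v : H) : ‖Ua π x⁻¹ v - v‖ = ‖Ua π x v - v‖ := by
  rw [← Ua_norm π x (Ua π x⁻¹ v - v), map_sub, ← Ua_mul, mul_inv_cancel, Ua_one, norm_sub_rev]

/-- vectors asymptotically fixed by the powers -/
def Fx (k : ℤ) (v : H) : Prop := Tendsto (fun n : A => Ua π (n ^ k) v) (F : Filter A) (𝓝 v)

theorem Fx_iff (k : ℤ) (v : H) :
    Fx π F k v ↔ Tendsto (fun n : A => ‖Ua π (n ^ k) v - v‖) (F : Filter A) (𝓝 0) :=
  tendsto_iff_norm_sub_tendsto_zero

theorem Fx_neg (k : ℤ) (v : H) : Fx π F (-k) v ↔ Fx π F k v := by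
  rw [Fx_iff, Fx_iff]
  simp only [zpow_neg, Ua_inv_sub]

theorem Ua_npow_sub (x : A) (k : ℕ) (v : H) : ‖Ua π (x ^ k) v - v‖ ≤ k * ‖Ua π x v - v‖ := by
  induction k with
  | zero => simp [Ua_one]
  | succ k ih =>
    rw [pow_succ, Ua_mul]
    have h1 : Ua π (x ^ k) (Ua π x v) - v = Ua π (x ^ k) (Ua π x v - v) + (Ua π (x ^ k) v - v) := by
      rw [map_sub]; abel
    rw [h1]
    refine (norm_add_le _ _).trans ?_
    rw [Ua_norm]
    push_cast
    linarith

theorem Fx_mul_nat (k : ℤ) (m : ℕ) (v : H) (h : Fx π F k v) : Fx π F (k * m) v := by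
  rw [Fx_iff] at h ⊢
  have h1 := h.const_mul (m : ℝ)
  rw [mul_zero] at h1
  refine squeeze_zero (fun n => norm_nonneg _) (fun n => ?_) h1
  rw [zpow_mul, zpow_natCast]
  exact Ua_npow_sub π _ _ _

theorem Fx_mul (k m : ℤ) (v : H) (h : Fx π F k v) : Fx π F (k * m) v := by
  obtain ⟨l, rfl | rfl⟩ := m.eq_nat_or_neg
  · exact Fx_mul_nat π F k l v h
  · rw [mul_neg, Fx_neg]
    exact Fx_mul_nat π F k l v h

/-- the subspace of asymptotically fixed vectors -/
def SI (I : Submonoid ℕ) : Submodule ℂ H where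
  carrier := {v | ∃ i ∈ I, Fx π F i v}
  zero_mem' := ⟨1, I.one_mem, by simp [Fx]⟩
  add_mem' := by
    rintro a b ⟨i, hi, ha⟩ ⟨j, hj, hb⟩
    refine ⟨i * j, I.mul_mem hi hj, ?_⟩
    have h1 := Fx_mul π F i j a ha
    have h2 := Fx_mul π F j i b hb
    rw [mul_comm] at h2
    push_cast
    have h3 := Tendsto.add h1 h2
    simpa only [Fx, map_add] using h3
  smul_mem' := by
    rintro c a ⟨i, hi, ha⟩
    refine ⟨i, hi, ?_⟩
    have h3 := Tendsto.const_smul ha c
    simpa only [Fx, map_smul] using h3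

theorem Ua_SI (I : Submonoid ℕ) (x : A) (v : H) (hv : v ∈ SI π F I) : Ua π x v ∈ SI π F I := by
  obtain ⟨i, hi, h⟩ := hv
  refine ⟨i, hi, ?_⟩
  rw [Fx_iff] at h ⊢
  refine h.congr fun n => ?_
  rw [Ua_comm, ← map_sub, Ua_norm]

theorem Ua_closure (I : Submonoid ℕ) (x : A) (v : H) (hv : v ∈ (SI π F I).topologicalClosure) :
    Ua π x v ∈ (SI π F I).topologicalClosure := by
  have h1 : (v : H) ∈ closure ((SI π F I : Submodule ℂ H) : Set H) := hv
  have h2 : Ua π x v ∈ closure (Ua π x '' ((SI π F I : Submodule ℂ H) : Set H)) :=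
    image_closure_subset_closure_image (Ua π x).continuous ⟨v, h1, rfl⟩
  refine closure_mono ?_ h2
  rintro _ ⟨u, hu, rfl⟩
  exact Ua_SI π F I x u hu

/-- Weak limits vanish on the orthogonal complement. -/
theorem weak_zero (hF : Idem F) (K : Submodule ℂ H) (k : ℤ) (hk : ∀ v, Fx π F k v → v ∈ K)
    {v : H} (hv : v ∈ Kᗮ) (y : H) :
    Tendsto (fun n : A => inner ℂ y (Ua π (n ^ k) v)) (F : Filter A) (𝓝 0) := by
  -- existence of limits
  have hlim : ∀ y : H, ∃ z : ℂ, Tendsto (fun n : A => inner ℂ (Ua π (n ^ k) v) y)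
      (F : Filter A) (𝓝 z) := by
    intro y
    have hc : IsCompact (Metric.closedBall (0 : ℂ) (‖v‖ * ‖y‖)) := isCompact_closedBall _ _
    obtain ⟨z, _, hz⟩ := hc.ultrafilter_le_nhds
      (F.map (fun n : A => inner ℂ (Ua π (n ^ k) v) y)) (by
      rw [Ultrafilter.coe_map, Filter.le_principal_iff, Filter.mem_map]
      refine Filter.Eventually.of_forall fun n => ?_
      rw [mem_closedBall_zero_iff]
      have := norm_inner_le_norm (𝕜 := ℂ) (Ua π (n ^ k) v) y
      rwa [Ua_norm] at this)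
    exact ⟨z, hz⟩
  choose L hL using hlim
  have hbd : ∀ y, ‖L y‖ ≤ ‖v‖ * ‖y‖ := by
    intro y
    refine le_of_tendsto' (hL y).norm fun n => ?_
    have := norm_inner_le_norm (𝕜 := ℂ) (Ua π (n ^ k) v) y
    rwa [Ua_norm] at this
  let L' : H →ₗ[ℂ] ℂ :=
    { toFun := L
      map_add' := fun a b => tendsto_nhds_unique (hL (a + b)) (by
        simpa only [inner_add_right] using (hL a).add (hL b))
      map_smul' := fun c a => tendsto_nhds_unique (hL (c • a)) (by
        simpa only [inner_smul_right, RingHom.id_apply, smul_eq_mul] using (hL a).const_mul c) }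
  let L'' : H →L[ℂ] ℂ := L'.mkContinuous ‖v‖ hbd
  set v' : H := (InnerProductSpace.toDual ℂ H).symm L'' with hv'
  have hLv : ∀ y, Tendsto (fun n : A => inner ℂ (Ua π (n ^ k) v) y) (F : Filter A)
      (𝓝 (inner ℂ v' y)) := by
    intro y
    have : inner ℂ v' y = L y := by
      rw [hv', InnerProductSpace.toDual_symm_apply]
      rfl
    rw [this]
    exact hL y
  -- idempotency
  have hid : ∀ y, Tendsto (fun n : A => inner ℂ (Ua π (n ^ k) v') y) (F : Filter A)
      (𝓝 (inner ℂ v' y)) := by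
    intro y
    rw [Metric.tendsto_nhds]
    intro ε hε
    have h1 : ∀ᶠ n in (F : Filter A), dist (inner ℂ (Ua π (n ^ k) v) y) (inner ℂ v' y) < ε / 2 :=
      Metric.tendsto_nhds.mp (hLv y) _ (half_pos hε)
    rw [hF] at h1
    filter_upwards [h1] with m hm
    have h2 : ∀ᶠ m' in (F : Filter A), dist (inner ℂ (Ua π (m' ^ k) v) (Ua π (m ^ k)⁻¹ y))
        (inner ℂ v' (Ua π (m ^ k)⁻¹ y)) < ε / 2 :=
      Metric.tendsto_nhds.mp (hLv _) _ (half_pos hε)
    obtain ⟨m', h3, h4⟩ := (hm.and h2).exists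
    rw [← Ua_adj, ← Ua_adj, ← Ua_mul, ← mul_zpow] at h4
    rw [dist_comm] at h4
    calc dist (inner ℂ (Ua π (m ^ k) v') y) (inner ℂ v' y) ≤
        dist (inner ℂ (Ua π (m ^ k) v') y) (inner ℂ (Ua π ((m * m') ^ k) v) y) +
        dist (inner ℂ (Ua π ((m * m') ^ k) v) y) (inner ℂ v' y) := dist_triangle _ _ _
      _ < ε / 2 + ε / 2 := add_lt_add h4 h3
      _ = ε := add_halves ε
  -- strong convergence
  have hstr : Fx π F k v' := by
    rw [Fx_iff]
    have h1 : ∀ n : A, ‖Ua π (n ^ k) v' - v'‖ ^ 2 =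
        2 * ‖v'‖ ^ 2 - 2 * (inner ℂ (Ua π (n ^ k) v') v' : ℂ).re := by
      intro n
      have := norm_sub_sq (𝕜 := ℂ) (Ua π (n ^ k) v') v'
      rw [Ua_norm] at this
      rw [this]
      change ‖v'‖ ^ 2 - 2 * (inner ℂ (Ua π (n ^ k) v') v' : ℂ).re + ‖v'‖ ^ 2 = _
      ring
    have h2 : Tendsto (fun n : A => ‖Ua π (n ^ k) v' - v'‖ ^ 2) (F : Filter A) (𝓝 0) := by
      simp only [h1]
      have h3 := (Complex.continuous_re.tendsto _).comp (hid v')
      have h4 : (inner ℂ v' v' : ℂ).re = ‖v'‖ ^ 2 := inner_self_eq_norm_sq (𝕜 := ℂ) v'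
      rw [h4] at h3
      have h5 := (tendsto_const_nhds (x := 2 * ‖v'‖ ^ 2)).sub (h3.const_mul 2)
      rw [sub_self] at h5
      exact h5
    have h3 := (Real.continuous_sqrt.tendsto 0).comp h2
    rw [Real.sqrt_zero] at h3
    refine h3.congr fun n => ?_
    simp only [Function.comp]
    exact Real.sqrt_sq (norm_nonneg _)
  have hK : v' ∈ K := hk v' hstr
  -- `v' = 0`
  have h0 : inner ℂ v' v' = (0 : ℂ) := by
    have h1 := hLv v'
    have h2 : Tendsto (fun n : A => inner ℂ v (Ua π (n ^ (-k)) v')) (F : Filter A)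
        (𝓝 (inner ℂ v v')) := by
      have h3 := (Fx_neg π F k v').mpr hstr
      exact Filter.Tendsto.inner tendsto_const_nhds h3
    have h4 : (fun n : A => inner ℂ v (Ua π (n ^ (-k)) v')) =
        fun n : A => inner ℂ (Ua π (n ^ k) v) v' := by
      ext n
      rw [zpow_neg, ← Ua_adj]
    rw [h4] at h2
    rw [tendsto_nhds_unique h1 h2]
    exact Submodule.inner_left_of_mem_orthogonal hK hv
  have hv0 : v' = 0 := inner_self_eq_zero.mp h0
  have h1 := hLv y
  rw [hv0, inner_zero_left] at h1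
  have h2 := (Complex.continuous_conj.tendsto 0).comp h1
  rw [map_zero] at h2
  refine h2.congr fun n => ?_
  simp only [Function.comp]
  exact inner_conj_symm _ _

end

end Pool.Agent.Lib.MP_9fb650_an
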